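import Mathlib

open MeasureTheory Set
open scoped ENNReal Pointwise

namespace Pool.Agent.MP_83e7a5

/-- Convexity of a set in a real or complex vector space (with real convex combinations). -/
def IsConvexSet (𝕜 : Type*) [RCLike 𝕜] {X : Type*} [AddCommGroup X] [Module 𝕜 X] (F : Set X) : Prop :=
  ∀ f ∈ F, ∀ g ∈ F, ∀ t : ℝ, 0 ≤ t → t ≤ 1 → ((t : ℝ) : 𝕜) • f + ((1 - t : ℝ) : 𝕜) • g ∈ F

/-- The seminorm with unit ball `F - F` (Minkowski functional), evaluated at `h`. -/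
noncomputable def diffGauge (𝕜 : Type*) [RCLike 𝕜] {X : Type*} [AddCommGroup X] [Module 𝕜 X]
    (F : Set X) (h : X) : ℝ :=
  sInf {r : ℝ | 0 < r ∧ ∃ u ∈ F - F, h = ((r : ℝ) : 𝕜) • u}

/-- The Borel sigma-algebra on `F` for the topology given by the seminorm with unit ball `F - F`:
it is generated by the sets `U` that are open for this seminorm. -/
def gaugeBorel (𝕜 : Type*) [RCLike 𝕜] {X : Type*} [AddCommGroup X] [Module 𝕜 X]
    (F : Set X) : MeasurableSpace F :=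
  MeasurableSpace.generateFrom
    {U : Set F | ∀ f ∈ U, ∃ ε : ℝ, 0 < ε ∧ ∀ g : F, diffGauge 𝕜 F ((g : X) - (f : X)) < ε → g ∈ U}

/-- The information `N_n(f) = (N_{n-1}(f), L_n(f))`, where the `n`-th functional may depend on the
values already observed: `L k y` is the functional used after the `k` values `y` were seen. -/
def info {𝕜 : Type*} [RCLike 𝕜] {X : Type*} [NormedAddCommGroup X] [NormedSpace 𝕜 X]
    (L : (k : ℕ) → (Fin k → 𝕜) → (X →L[𝕜] 𝕜)) : (n : ℕ) → X → (Fin n → 𝕜)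
  | 0, _ => Fin.elim0
  | (n + 1), f => Fin.snoc (α := fun _ => 𝕜) (info L n f) (L n (info L n f) f)

/-- An adaptive deterministic algorithm with `n` measurements: a rule for choosing continuous linear
functionals and an arbitrary map `φ` applied to the `n` observed values. -/
structure AdaptiveAlg (𝕜 : Type*) [RCLike 𝕜] (X Y : Type*) [NormedAddCommGroup X]
    [NormedSpace 𝕜 X] (n : ℕ) where
  L : (k : ℕ) → (Fin k → 𝕜) → (X →L[𝕜] 𝕜)
  φ : (Fin n → 𝕜) → Y

/-- The map `f ↦ φ (N_n f)` computed by an adaptive algorithm. -/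
def AdaptiveAlg.eval {𝕜 : Type*} [RCLike 𝕜] {X Y : Type*} [NormedAddCommGroup X]
    [NormedSpace 𝕜 X] {n : ℕ} (A : AdaptiveAlg 𝕜 X Y n) (f : X) : Y :=
  A.φ (info A.L n f)

/-- `e_n^{det-non}(S,F)`: infimum over non-adaptive deterministic algorithms with `n` measurements of
the worst case error over `F`. -/
noncomputable def eDetNon {𝕜 : Type*} [RCLike 𝕜] {X Y : Type*} [NormedAddCommGroup X]
    [NormedSpace 𝕜 X] [NormedAddCommGroup Y] [NormedSpace 𝕜 Y] (S : X →L[𝕜] Y) (F : Set X)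
    (n : ℕ) : ℝ≥0∞ :=
  ⨅ (L : Fin n → (X →L[𝕜] 𝕜)) (φ : (Fin n → 𝕜) → Y), ⨆ f ∈ F, ‖S f - φ (fun i => L i f)‖ₑ

/-- The joint measurability required of a randomized algorithm: `(f, ω) ↦ ‖S f - A^ω f‖` is
measurable on `F × Ω`, with the Borel sigma-algebra of the seminorm with unit ball `F - F` on `F`. -/
def JointlyMeasurable {𝕜 : Type*} [RCLike 𝕜] {X Y : Type*} [NormedAddCommGroup X]
    [NormedSpace 𝕜 X] [NormedAddCommGroup Y] [NormedSpace 𝕜 Y] (S : X →L[𝕜] Y) (F : Set X)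
    {Ω : Type*} (mΩ : MeasurableSpace Ω) {n : ℕ} (A : Ω → AdaptiveAlg 𝕜 X Y n) : Prop :=
  @Measurable (F × Ω) ℝ (@Prod.instMeasurableSpace F Ω (gaugeBorel 𝕜 F) mΩ) _
    (fun p => ‖S (p.1 : X) - (A p.2).eval (p.1 : X)‖)

/-- `e_n^{ran}(S,F)`: infimum over randomized (adaptive) algorithms with `n` measurements of the
worst case (over `f ∈ F`) expected error. -/
noncomputable def eRan {𝕜 : Type*} [RCLike 𝕜] {X Y : Type*} [NormedAddCommGroup X]
    [NormedSpace 𝕜 X] [NormedAddCommGroup Y] [NormedSpace 𝕜 Y] (S : X →L[𝕜] Y) (F : Set X)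
    (n : ℕ) : ℝ≥0∞ :=
  ⨅ (Ω : Type) (mΩ : MeasurableSpace Ω) (P : @Measure Ω mΩ) (_ : @IsProbabilityMeasure Ω mΩ P)
    (A : Ω → AdaptiveAlg 𝕜 X Y n) (_ : JointlyMeasurable S F mΩ A),
    ⨆ f ∈ F, ∫⁻ ω, ‖S f - (A ω).eval f‖ₑ ∂P

/-- `r(a) = sup {α ∈ ℝ : sup_n n^α a_n < ∞}`, the polynomial rate of a sequence (over `n ≥ 1`). -/
noncomputable def rate (a : ℕ → ℝ≥0∞) : EReal :=
  sSup ((fun α : ℝ => (α : EReal)) ''
    {α : ℝ | (⨆ (n : ℕ) (_ : 1 ≤ n), (n : ℝ≥0∞) ^ α * a n) < ∞})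

/-- `g` is the rate gain of some instance `(X, Y, S, F)` with `r(e^{ran}) ∈ ℝ`: real or complex Banach
spaces `X`, `Y`, a continuous linear `S : X → Y` and a nonempty convex set `F` in `X`. -/
def IsRateGain (g : EReal) : Prop :=
  ∃ (𝕜 : Type) (_ : RCLike 𝕜) (X Y : Type) (_ : NormedAddCommGroup X) (_ : NormedSpace 𝕜 X)
    (_ : CompleteSpace X) (_ : NormedAddCommGroup Y) (_ : NormedSpace 𝕜 Y) (_ : CompleteSpace Y)
    (S : X →L[𝕜] Y) (F : Set X) (ρ : ℝ),
    F.Nonempty ∧ IsConvexSet 𝕜 F ∧ rate (eRan S F) = (ρ : EReal) ∧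
      g = rate (eRan S F) - rate (eDetNon S F)

/-- `g` is the rate gain of some instance `(X, Y, S, F)` with `r(e^{ran}) ∈ ℝ` and `Y` a Hilbert
space. -/
def IsRateGainHilbert (g : EReal) : Prop :=
  ∃ (𝕜 : Type) (_ : RCLike 𝕜) (X Y : Type) (_ : NormedAddCommGroup X) (_ : NormedSpace 𝕜 X)
    (_ : CompleteSpace X) (_ : NormedAddCommGroup Y) (_ : InnerProductSpace 𝕜 Y)
    (_ : CompleteSpace Y) (S : X →L[𝕜] Y) (F : Set X) (ρ : ℝ),
    F.Nonempty ∧ IsConvexSet 𝕜 F ∧ rate (eRan S F) = (ρ : EReal) ∧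
      g = rate (eRan S F) - rate (eDetNon S F)

/-- `γ_B`: the supremum of the rate gain over all instances. -/
noncomputable def gammaB : EReal := sSup {g | IsRateGain g}

/-- `γ_H`: the supremum of the rate gain over all instances with `Y` a Hilbert space. -/
noncomputable def gammaH : EReal := sSup {g | IsRateGainHilbert g}

end Pool.Agent.MP_83e7a5
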