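import Mathlib
import Pool.Agent.H74.Defs

open MeasureTheory Set
open scoped ENNReal Pointwise

namespace Pool.Agent.H74

open Pool.Agent.MP_83e7a5

/-- The weighted positive simplex in `ℓ_P(ℕ)`. -/
def Fset (P : ℝ≥0∞) (c : ℕ → ℝ) : Set (lp (fun _ : ℕ => ℝ) P) :=
  {x | (∀ i, 0 ≤ x i) ∧ ∀ s : Finset ℕ, ∑ i ∈ s, c i * x i ≤ 1}

/-- Slowly growing weights `(1 + log₂ (i+1))^(1/b)`. -/
noncomputable def cw (b : ℕ) (i : ℕ) : ℝ := ((1 + Nat.log 2 (i + 1) : ℕ) : ℝ) ^ (1 / (b : ℝ))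

/-- The identity operator on `ℓ_P(ℕ)`. -/
noncomputable def Sid (P : ℝ≥0∞) [Fact (1 ≤ P)] :
    lp (fun _ : ℕ => ℝ) P →L[ℝ] lp (fun _ : ℕ => ℝ) P :=
  ContinuousLinearMap.id ℝ _

end Pool.Agent.H74
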