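import Mathlib
import Pool.Agent.H74.Inst

open MeasureTheory Set
open scoped ENNReal Pointwise

namespace Pool.Agent.H74

open Pool.Agent.MP_83e7a5

/-- Functions on a normed space computable with `k` adaptive continuous linear measurements. -/
def CompC {X β : Type*} [NormedAddCommGroup X] [NormedSpace ℝ X] : ℕ → (X → β) → Prop
  | 0, g => ∃ z, ∀ f, g f = z
  | (k + 1), g => ∃ (L : X →L[ℝ] ℝ) (h : ℝ → X → β), (∀ y, CompC k (h y)) ∧ ∀ f, g f = h (L f) f

section
variable {X : Type*} [NormedAddCommGroup X] [NormedSpace ℝ X]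

lemma CompC.const {β : Type*} (z : β) : CompC 0 (fun _ : X => z) := ⟨z, fun _ => rfl⟩

lemma CompC.one (L : X →L[ℝ] ℝ) : CompC 1 (fun f : X => L f) :=
  ⟨L, fun y _ => y, fun y => ⟨y, fun _ => rfl⟩, fun _ => rfl⟩

lemma CompC.map {β γ : Type*} (F : β → γ) :
    ∀ (k : ℕ) (g : X → β), CompC k g → CompC k (fun t => F (g t))
  | 0, g, ⟨z, hz⟩ => ⟨F z, fun t => by simp only [hz]⟩
  | (k + 1), g, ⟨a, h, hh, hg⟩ => ⟨a, fun y t => F (h y t), fun y => CompC.map F k _ (hh y),
      fun t => by simp only [hg t]⟩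

lemma CompC.bind {β γ : Type*} (m : ℕ) (h : γ → X → β) (hh : ∀ z, CompC m (h z)) :
    ∀ (k : ℕ) (g : X → γ), CompC k g → CompC (k + m) (fun t => h (g t) t)
  | 0, g, ⟨z, hz⟩ => by
    have : (fun t => h (g t) t) = h z := by
      funext t; rw [hz]
    rw [this, zero_add]
    exact hh z
  | (k + 1), g, ⟨a, g', hg', hg⟩ => by
    rw [show k + 1 + m = (k + m) + 1 by ring]
    refine ⟨a, fun y t => h (g' y t) t, fun y => CompC.bind m h hh k _ (hg' y), fun t => ?_⟩
    simp only [hg t]

lemma CompC.succ {β : Type*} {k : ℕ} {g : X → β} (hg : CompC k g) : CompC (k + 1) g :=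
  ⟨0, fun _ => g, fun _ => hg, fun _ => rfl⟩

lemma CompC.mono {β : Type*} {k m : ℕ} {g : X → β} (hg : CompC k g) (hkm : k ≤ m) : CompC m g := by
  induction hkm with
  | refl => exact hg
  | step _ ih => exact ih.succ

/-- union over a finset of index values -/
lemma CompC.biUnion {ι : Type*} [DecidableEq ι] {k : ℕ} (g : ι → X → Finset ℕ) (hg : ∀ i, CompC k (g i))
    (s : Finset ι) : CompC (s.card * k) (fun f => s.biUnion (fun i => g i f)) := by
  induction s using Finset.induction_on with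
  | empty => simpa using CompC.const (X := X) (∅ : Finset ℕ)
  | insert i s hi ih =>
    rw [Finset.card_insert_of_notMem hi, Nat.add_mul, one_mul, add_comm]
    have := CompC.bind (s.card * k) (fun (D : Finset ℕ) (f : X) => D ∪ s.biUnion (fun i => g i f))
      (fun D => CompC.map (fun E => D ∪ E) _ _ ih) k (g i) (hg i)
    simpa only [Finset.biUnion_insert] using this

/-- A decision tree computation is an adaptive algorithm. -/
lemma CompC.toAlg {Y : Type*} : ∀ (n : ℕ) (g : X → Y), CompC n g →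
    ∃ A : AdaptiveAlg ℝ X Y n, ∀ f, A.eval f = g f
  | 0, g, ⟨z, hz⟩ => ⟨⟨fun _ _ => 0, fun _ => z⟩, fun f => (hz f).symm⟩
  | (n + 1), g, ⟨L0, h, hh, hg⟩ => by
    choose A hA using fun y => CompC.toAlg n (h y) (hh y)
    let L : (k : ℕ) → (Fin k → ℝ) → (X →L[ℝ] ℝ) := fun k =>
      match k with
      | 0 => fun _ => L0
      | (k + 1) => fun y => (A (y 0)).L k (Fin.tail y)
    refine ⟨⟨L, fun y => (A (y 0)).φ (Fin.tail y)⟩, fun f => ?_⟩
    have key : ∀ k, info L (k + 1) f = Fin.cons (α := fun _ => ℝ) (L0 f) (info (A (L0 f)).L k f) := by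
      intro k
      induction k with
      | zero =>
        funext i
        fin_cases i
        show Fin.snoc (α := fun _ => ℝ) (info L 0 f) (L 0 (info L 0 f) f) 0 = L0 f
        simp [Fin.snoc, L]
      | succ k ih =>
        show Fin.snoc (α := fun _ => ℝ) (info L (k + 1) f) (L (k + 1) (info L (k + 1) f) f) = _
        rw [ih]
        show Fin.snoc (α := fun _ => ℝ) (Fin.cons (α := fun _ => ℝ) (L0 f) (info (A (L0 f)).L k f))
          ((A ((Fin.cons (α := fun _ => ℝ) (L0 f) (info (A (L0 f)).L k f) : Fin (k + 1) → ℝ) 0)).L k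
            (Fin.tail (Fin.cons (α := fun _ => ℝ) (L0 f) (info (A (L0 f)).L k f))) f) = _
        rw [Fin.cons_zero, Fin.tail_cons, ← Fin.cons_snoc_eq_snoc_cons]
        rfl
    show (A (info L (n + 1) f 0)).φ (Fin.tail (info L (n + 1) f)) = g f
    rw [key, Fin.cons_zero, Fin.tail_cons]
    have := hA (L0 f) f
    rw [hg f, ← this]
    rfl

end

end Pool.Agent.H74
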