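import Mathlib

open Set

namespace Pool.Agent.H74

/-- total mass of a candidate set -/
noncomputable def mass (p : ℕ → ℝ) (D : Finset ℕ) : ℝ := ∑ i ∈ D, p i

/-- label-weighted mass of a candidate set -/
noncomputable def lab (p : ℕ → ℝ) (θ : ℕ → ℕ) (D : Finset ℕ) : ℝ := ∑ i ∈ D, (θ i : ℝ) * p i

/-- rounding -/
noncomputable def dec (V A : ℝ) : ℕ := ⌊V / A + 1 / 2⌋₊

/-- successive filtering by decoded labels -/
noncomputable def iter (p : ℕ → ℝ) (θ : ℕ → ℕ → ℕ) : ℕ → Finset ℕ → Finset ℕ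
  | 0, D => D
  | (u + 1), D => (iter p θ u D).filter
      (fun i => θ u i = dec (lab p (θ u) (iter p θ u D)) (mass p (iter p θ u D)))

lemma dec_eq {p : ℕ → ℝ} (hp : ∀ i, 0 ≤ p i) {D : Finset ℕ} {j : ℕ} (hj : j ∈ D) (hpj : 0 < p j)
    {θ : ℕ → ℕ} {R : ℕ} (hθ : ∀ i ∈ D, θ i < R)
    (hnoise : ∑ i ∈ D.erase j, p i ≤ p j / (4 * R)) : dec (lab p θ D) (mass p D) = θ j := by
  have hR : 0 < R := lt_of_le_of_lt (Nat.zero_le _) (hθ j hj)
  have hR' : (0 : ℝ) < R := by exact_mod_cast hR
  set ν := ∑ i ∈ D.erase j, p i with hν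
  have hν0 : 0 ≤ ν := Finset.sum_nonneg fun i _ => hp i
  have hA : mass p D = p j + ν := by
    unfold mass; rw [← Finset.add_sum_erase _ _ hj]
  have hApos : 0 < mass p D := by rw [hA]; linarith
  have hV : lab p θ D - θ j * mass p D = ∑ i ∈ D.erase j, ((θ i : ℝ) - θ j) * p i := by
    unfold lab mass
    rw [Finset.mul_sum, ← Finset.sum_sub_distrib, ← Finset.add_sum_erase _ _ hj]
    rw [sub_self, zero_add]
    apply Finset.sum_congr rfl
    intro i _; ring
  have hbound : |lab p θ D - θ j * mass p D| ≤ R * ν := by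
    rw [hV]
    calc |∑ i ∈ D.erase j, ((θ i : ℝ) - θ j) * p i|
        ≤ ∑ i ∈ D.erase j, |((θ i : ℝ) - θ j) * p i| := Finset.abs_sum_le_sum_abs _ _
      _ ≤ ∑ i ∈ D.erase j, (R : ℝ) * p i := by
          apply Finset.sum_le_sum
          intro i hi
          rw [abs_mul, abs_of_nonneg (hp i)]
          apply mul_le_mul_of_nonneg_right _ (hp i)
          have h1 : (θ i : ℝ) < R := by exact_mod_cast hθ i (Finset.mem_of_mem_erase hi)
          have h2 : (θ j : ℝ) < R := by exact_mod_cast hθ j hj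
          have h3 : (0 : ℝ) ≤ θ i := by positivity
          have h4 : (0 : ℝ) ≤ θ j := by positivity
          rw [abs_le]; constructor <;> linarith
      _ = R * ν := by rw [← Finset.mul_sum]
  have h1 : R * ν ≤ p j / 4 := by
    calc R * ν ≤ R * (p j / (4 * R)) := mul_le_mul_of_nonneg_left hnoise hR'.le
      _ = p j / 4 := by field_simp
  have h2 : |lab p θ D / mass p D - θ j| ≤ 1 / 4 := by
    have e : lab p θ D / mass p D - θ j = (lab p θ D - θ j * mass p D) / mass p D := by
      field_simp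
    rw [e, abs_div, abs_of_pos hApos, div_le_iff₀ hApos]
    rw [hA] at hbound ⊢
    linarith
  rw [abs_le] at h2
  unfold dec
  rw [Nat.floor_eq_iff (by
    have : (0 : ℝ) ≤ θ j := by positivity
    linarith)]
  constructor <;> linarith

lemma iter_eq {p : ℕ → ℝ} (hp : ∀ i, 0 ≤ p i) {D0 : Finset ℕ} {j : ℕ} (hj : j ∈ D0) (hpj : 0 < p j)
    {θ : ℕ → ℕ → ℕ} {R : ℕ → ℕ} {T : ℕ} (hθ : ∀ u ≤ T, ∀ i ∈ D0, θ u i < R u)
    (hnoise : ∀ u ≤ T, ∑ i ∈ (D0.filter (fun i => ∀ v < u, θ v i = θ v j)).erase j, p i ≤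
      p j / (4 * R u)) :
    ∀ u ≤ T + 1, iter p θ u D0 = D0.filter (fun i => ∀ v < u, θ v i = θ v j)
  | 0, _ => by
    unfold iter
    ext i; simp
  | (u + 1), hu => by
    have ih := iter_eq hp hj hpj hθ hnoise u (by omega)
    unfold iter
    rw [ih]
    have hdec := dec_eq hp (D := D0.filter (fun i => ∀ v < u, θ v i = θ v j)) (j := j)
      (by simp [hj]) hpj (θ := θ u) (R := R u)
      (fun i hi => hθ u (by omega) i (Finset.mem_of_mem_filter i hi)) (hnoise u (by omega))
    rw [hdec]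
    ext i
    simp only [Finset.mem_filter]
    constructor
    · rintro ⟨⟨h1, h2⟩, h3⟩
      refine ⟨h1, fun v hv => ?_⟩
      rcases Nat.lt_succ_iff_lt_or_eq.mp hv with h | rfl
      · exact h2 v h
      · exact h3
    · rintro ⟨h1, h2⟩
      exact ⟨⟨h1, fun v hv => h2 v (Nat.lt_succ_of_lt hv)⟩, h2 u (Nat.lt_succ_self u)⟩

lemma mem_iter {p : ℕ → ℝ} (hp : ∀ i, 0 ≤ p i) {D0 : Finset ℕ} {j : ℕ} (hj : j ∈ D0) (hpj : 0 < p j)
    {θ : ℕ → ℕ → ℕ} {R : ℕ → ℕ} {T : ℕ} (hθ : ∀ u ≤ T, ∀ i ∈ D0, θ u i < R u)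
    (hnoise : ∀ u ≤ T, ∑ i ∈ (D0.filter (fun i => ∀ v < u, θ v i = θ v j)).erase j, p i ≤
      p j / (4 * R u)) : j ∈ iter p θ (T + 1) D0 := by
  rw [iter_eq hp hj hpj hθ hnoise (T + 1) le_rfl]
  simp [hj]

/-- the number of functions agreeing at two different points -/
lemma card_agree_one (m R : ℕ) (i j : Fin m) (hij : i ≠ j) :
    (Finset.univ.filter (fun θ : Fin m → Fin R => θ i = θ j)).card * R = R ^ m := by
  classical
  have h1 : Fintype.card ({θ : Fin m → Fin R // θ i = θ j} × Fin R) = Fintype.card (Fin m → Fin R) := by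
    apply Fintype.card_congr
    refine
      { toFun := fun x => Function.update x.1.1 i x.2
        invFun := fun θ => (⟨Function.update θ i (θ j), by
          rw [Function.update_self, Function.update_of_ne hij.symm]⟩, θ i)
        left_inv := ?_
        right_inv := ?_ }
    · rintro ⟨⟨θ, hθ⟩, c⟩
      simp only [Function.update_self, Function.update_of_ne hij.symm, Function.update_idem]
      congr 1
      apply Subtype.ext
      show Function.update θ i (θ j) = θ
      rw [← hθ, Function.update_eq_self]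
    · intro θ
      simp
  rw [Fintype.card_prod, Fintype.card_fin, Fintype.card_fun, Fintype.card_fin, Fintype.card_fin,
    Fintype.card_subtype] at h1
  exact h1

/-- label space for one repeat -/
abbrev Lab (m T : ℕ) (Rr : ℕ → ℕ) : Type := (v : Fin (T + 1)) → (Fin m → Fin (Rr v))

lemma card_agree (m T : ℕ) (Rr : ℕ → ℕ) (i j : Fin m) (hij : i ≠ j) (u : ℕ) (hu : u ≤ T) :
    (Finset.univ.filter (fun ω : Lab m T Rr => ∀ v : Fin (T + 1), (v : ℕ) ≤ u → ω v i = ω v j)).card *
      ∏ v ∈ Finset.range (u + 1), Rr v = Fintype.card (Lab m T Rr) := by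
  classical
  have h1 : (Finset.univ.filter
      (fun ω : Lab m T Rr => ∀ v : Fin (T + 1), (v : ℕ) ≤ u → ω v i = ω v j)) =
      Fintype.piFinset (fun v : Fin (T + 1) => if (v : ℕ) ≤ u then
        Finset.univ.filter (fun θ : Fin m → Fin (Rr v) => θ i = θ j) else Finset.univ) := by
    ext ω
    simp only [Finset.mem_filter, Finset.mem_univ, true_and, Fintype.mem_piFinset]
    constructor
    · intro h v
      split_ifs with hv
      · simpa using h v hv
      · exact Finset.mem_univ _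
    · intro h v hv
      have := h v
      rw [if_pos hv] at this
      simpa using this
  have h2 : ∏ v ∈ Finset.range (u + 1), Rr v =
      ∏ v : Fin (T + 1), (if (v : ℕ) ≤ u then Rr v else 1) := by
    rw [Fin.prod_univ_eq_prod_range (fun v => if v ≤ u then Rr v else 1) (T + 1)]
    rw [Finset.prod_ite, Finset.prod_const_one, mul_one]
    congr 1
    ext v; simp; omega
  rw [h1, Fintype.card_piFinset, h2, ← Finset.prod_mul_distrib, Fintype.card_pi]
  apply Finset.prod_congr rfl
  intro v _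
  split_ifs with hv
  · rw [card_agree_one m (Rr v) i j hij]; simp
  · simp

lemma markov_count {Ω : Type*} [Fintype Ω] (X : Ω → ℝ) (hX : ∀ ω, 0 ≤ X ω) {τ : ℝ} :
    ((Finset.univ.filter (fun ω => τ < X ω)).card : ℝ) * τ ≤ ∑ ω, X ω := by
  classical
  calc ((Finset.univ.filter (fun ω => τ < X ω)).card : ℝ) * τ
      = ∑ _ω ∈ Finset.univ.filter (fun ω => τ < X ω), τ := by simp
    _ ≤ ∑ ω ∈ Finset.univ.filter (fun ω => τ < X ω), X ω := by
        apply Finset.sum_le_sum
        intro ω hω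
        exact (Finset.mem_filter.mp hω).2.le
    _ ≤ ∑ ω, X ω := Finset.sum_le_sum_of_subset_of_nonneg (Finset.filter_subset _ _)
        (fun ω _ _ => hX ω)

/-- noise colliding with `j` on the labels `0..u` -/
noncomputable def noise (m T : ℕ) (Rr : ℕ → ℕ) (p : ℕ → ℝ) (j : Fin m) (u : ℕ) (ω : Lab m T Rr) : ℝ := by
  classical
  exact ∑ i : Fin m, if i ≠ j ∧ ∀ v : Fin (T + 1), (v : ℕ) ≤ u → ω v i = ω v j then p i else 0

lemma sum_noise (m T : ℕ) (Rr : ℕ → ℕ) (hRr : ∀ v, 0 < Rr v) (p : ℕ → ℝ) (hp : ∀ i, 0 ≤ p i)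
    (hsum : ∑ i : Fin m, p i ≤ 1) (j : Fin m) (u : ℕ) (hu : u ≤ T) :
    ∑ ω : Lab m T Rr, noise m T Rr p j u ω ≤
      (Fintype.card (Lab m T Rr) : ℝ) / ∏ v ∈ Finset.range (u + 1), (Rr v : ℝ) := by
  classical
  unfold noise
  rw [Finset.sum_comm]
  have hprod : (0 : ℝ) < ∏ v ∈ Finset.range (u + 1), (Rr v : ℝ) :=
    Finset.prod_pos fun v _ => by exact_mod_cast hRr v
  calc ∑ i : Fin m, ∑ ω : Lab m T Rr,
        (if i ≠ j ∧ ∀ v : Fin (T + 1), (v : ℕ) ≤ u → ω v i = ω v j then p i else 0)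
      ≤ ∑ i : Fin m, p i * ((Fintype.card (Lab m T Rr) : ℝ) /
          ∏ v ∈ Finset.range (u + 1), (Rr v : ℝ)) := by
        apply Finset.sum_le_sum
        intro i _
        by_cases hij : i = j
        · simp only [hij, ne_eq, not_true_eq_false, false_and, if_false, Finset.sum_const_zero]
          have := hp j
          positivity
        · have h1 := card_agree m T Rr i j hij u hu
          have h2 : ((Finset.univ.filter (fun ω : Lab m T Rr =>
              ∀ v : Fin (T + 1), (v : ℕ) ≤ u → ω v i = ω v j)).card : ℝ) =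
              (Fintype.card (Lab m T Rr) : ℝ) / ∏ v ∈ Finset.range (u + 1), (Rr v : ℝ) := by
            rw [eq_div_iff hprod.ne', ← h1]
            push_cast; ring
          rw [← h2]
          simp only [ne_eq, hij, not_false_eq_true, true_and]
          rw [← Finset.sum_filter, Finset.sum_const, nsmul_eq_mul, mul_comm]
    _ = (∑ i : Fin m, p i) * ((Fintype.card (Lab m T Rr) : ℝ) /
          ∏ v ∈ Finset.range (u + 1), (Rr v : ℝ)) := by rw [Finset.sum_mul]
    _ ≤ 1 * ((Fintype.card (Lab m T Rr) : ℝ) / ∏ v ∈ Finset.range (u + 1), (Rr v : ℝ)) := by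
        apply mul_le_mul_of_nonneg_right hsum (by positivity)
    _ = _ := one_mul _

/-- the label of `i` at level `v` as a natural number -/
def lbl {m T : ℕ} {Rr : ℕ → ℕ} (ω : Lab m T Rr) (v i : ℕ) : ℕ :=
  if h : v < T + 1 ∧ i < m then (ω ⟨v, h.1⟩ ⟨i, h.2⟩ : ℕ) else 0

/-- labels used in the rounds; the last round uses the index itself -/
def rlab {m T : ℕ} {Rr : ℕ → ℕ} (ω : Lab m T Rr) (u i : ℕ) : ℕ :=
  if u < T then lbl ω (u + 1) i else i

/-- bucket `β` -/
def bucket {m T : ℕ} {Rr : ℕ → ℕ} (ω : Lab m T Rr) (β : ℕ) : Finset ℕ :=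
  (Finset.range m).filter (fun i => lbl ω 0 i = β)

/-- candidates of one repeat -/
noncomputable def candAll {m T : ℕ} {Rr : ℕ → ℕ} (B : ℕ) (p : ℕ → ℝ) (ω : Lab m T Rr) : Finset ℕ :=
  (Finset.range B).biUnion (fun β => iter p (rlab ω) (T + 1) (bucket ω β))

lemma sum_subset_range (m : ℕ) (p : ℕ → ℝ) (S : Finset ℕ) (hS : S ⊆ Finset.range m) :
    ∑ i ∈ S, p i = ∑ i : Fin m, if (i : ℕ) ∈ S then p i else 0 := by
  rw [Fin.sum_univ_eq_sum_range (fun i => if i ∈ S then p i else 0) m, ← Finset.sum_filter]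
  congr 1
  ext i
  simp only [Finset.mem_filter]
  exact ⟨fun h => ⟨hS h, h⟩, fun h => h.2⟩

lemma mem_candAll {m T : ℕ} {Rr R : ℕ → ℕ} {B : ℕ} (hB : Rr 0 = B) (hR : ∀ v, Rr (v + 1) = R v)
    (hm : m ≤ R T) {p : ℕ → ℝ} (hp : ∀ i, 0 ≤ p i) (j : Fin m) (hpj : 0 < p j)
    (ω : Lab m T Rr) (hn : ∀ u ≤ T, noise m T Rr p j u ω ≤ p j / (4 * R u)) :
    (j : ℕ) ∈ candAll B p ω := by
  classical
  have hj0 : lbl ω 0 j = (ω ⟨0, Nat.succ_pos T⟩ j : ℕ) := by
    unfold lbl; rw [dif_pos ⟨Nat.succ_pos T, j.2⟩]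
  unfold candAll
  rw [Finset.mem_biUnion]
  refine ⟨lbl ω 0 j, ?_, ?_⟩
  · rw [Finset.mem_range, hj0, ← hB]; exact (ω ⟨0, Nat.succ_pos T⟩ j).2
  · refine mem_iter hp (R := R) (θ := rlab ω) (T := T) ?_ hpj ?_ ?_
    · simp [bucket, j.2]
    · intro u hu i hi
      have him : i < m := by
        have := Finset.mem_of_mem_filter i hi
        exact Finset.mem_range.mp this
      unfold rlab
      split_ifs with hu'
      · unfold lbl
        rw [dif_pos ⟨by omega, him⟩, ← hR u]
        exact (ω ⟨u + 1, by omega⟩ ⟨i, him⟩).2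
      · have : u = T := by omega
        subst this
        exact lt_of_lt_of_le him hm
    · intro u hu
      refine le_trans ?_ (hn u hu)
      rw [sum_subset_range m p _ (by
        intro i hi
        have h1 := Finset.mem_of_mem_erase hi
        have h2 := Finset.mem_of_mem_filter i h1
        exact Finset.mem_of_mem_filter i h2)]
      unfold noise
      apply Finset.sum_le_sum
      intro i _
      by_cases hi : (i : ℕ) ∈ ((bucket ω (lbl ω 0 j)).filter
          (fun i => ∀ v < u, rlab ω v i = rlab ω v j)).erase j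
      · rw [if_pos hi]
        rw [Finset.mem_erase, Finset.mem_filter, bucket, Finset.mem_filter] at hi
        obtain ⟨hne, ⟨_, hl0⟩, hlv⟩ := hi
        rw [if_pos]
        refine ⟨fun h => hne (by rw [h]), ?_⟩
        intro v hv
        apply Fin.ext
        rcases v with ⟨v, hvT⟩
        rcases Nat.eq_zero_or_pos v with rfl | hvpos
        · have e1 : lbl ω 0 i = (ω ⟨0, hvT⟩ i : ℕ) := by
            unfold lbl; rw [dif_pos ⟨Nat.succ_pos T, i.2⟩]
          have e2 : lbl ω 0 j = (ω ⟨0, hvT⟩ j : ℕ) := by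
            unfold lbl; rw [dif_pos ⟨Nat.succ_pos T, j.2⟩]
          rw [← e1, ← e2, hl0]
        · obtain ⟨w, rfl⟩ : ∃ w, v = w + 1 := ⟨v - 1, by omega⟩
          have hv' : w + 1 ≤ u := hv
          have hw := hlv w (by omega)
          unfold rlab at hw
          rw [if_pos (by omega), if_pos (by omega)] at hw
          have e1 : lbl ω (w + 1) i = (ω ⟨w + 1, hvT⟩ i : ℕ) := by
            unfold lbl; rw [dif_pos ⟨hvT, i.2⟩]
          have e2 : lbl ω (w + 1) j = (ω ⟨w + 1, hvT⟩ j : ℕ) := by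
            unfold lbl; rw [dif_pos ⟨hvT, j.2⟩]
          rw [← e1, ← e2, hw]
      · rw [if_neg hi]
        split_ifs
        · exact hp _
        · exact le_rfl

/-- radices: `B` buckets, then `q^(2^v)` -/
def radix (B q : ℕ) : ℕ → ℕ
  | 0 => B
  | (v + 1) => q ^ (2 ^ v)

lemma radix_pos {B q : ℕ} (hB : 0 < B) (hq : 0 < q) (v : ℕ) : 0 < radix B q v := by
  cases v with
  | zero => exact hB
  | succ v => exact pow_pos hq _

lemma prod_radix (B q : ℕ) (u : ℕ) :
    (∏ v ∈ Finset.range (u + 1), (radix B q v : ℝ)) * q = B * (q : ℝ) ^ (2 ^ u) := by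
  induction u with
  | zero => simp [radix]
  | succ u ih =>
    rw [Finset.prod_range_succ]
    calc (∏ v ∈ Finset.range (u + 1), (radix B q v : ℝ)) * (radix B q (u + 1) : ℝ) * q
        = ((∏ v ∈ Finset.range (u + 1), (radix B q v : ℝ)) * q) * (radix B q (u + 1) : ℝ) := by ring
      _ = B * (q : ℝ) ^ (2 ^ u) * (q : ℝ) ^ (2 ^ u) := by rw [ih]; simp [radix]
      _ = B * (q : ℝ) ^ (2 ^ (u + 1)) := by rw [mul_assoc, ← pow_add]; ring_nf

/-- number of label choices for which the heavy index `j` is missed -/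
lemma card_fail {m T B q : ℕ} (hB : 0 < B) (hq : 0 < q) (hm : m ≤ q ^ (2 ^ T)) {p : ℕ → ℝ}
    (hp : ∀ i, 0 ≤ p i) (hsum : ∑ i : Fin m, p i ≤ 1) (j : Fin m) {δ : ℝ} (hδ : 0 < δ)
    (hpj : δ ≤ p j) :
    ((Finset.univ.filter (fun ω : Lab m T (radix B q) => (j : ℕ) ∉ candAll B p ω)).card : ℝ) ≤
      (T + 1) * (4 * q / (B * δ)) * Fintype.card (Lab m T (radix B q)) := by
  classical
  have hpj0 : 0 < p j := lt_of_lt_of_le hδ hpj
  have hB' : (0 : ℝ) < B := by exact_mod_cast hB
  have hq' : (0 : ℝ) < q := by exact_mod_cast hq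
  have hsub : Finset.univ.filter (fun ω : Lab m T (radix B q) => (j : ℕ) ∉ candAll B p ω) ⊆
      (Finset.range (T + 1)).biUnion (fun u => Finset.univ.filter
        (fun ω : Lab m T (radix B q) => p j / (4 * (q : ℝ) ^ (2 ^ u)) < noise m T (radix B q) p j u ω)) := by
    intro ω hω
    rw [Finset.mem_filter] at hω
    by_contra hcon
    apply hω.2
    apply mem_candAll (R := fun v => q ^ (2 ^ v)) rfl (fun v => rfl) hm hp j hpj0 ω
    intro u hu
    by_contra hlt
    apply hcon
    rw [Finset.mem_biUnion]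
    refine ⟨u, Finset.mem_range.mpr (by omega), ?_⟩
    rw [Finset.mem_filter]
    refine ⟨Finset.mem_univ _, ?_⟩
    push Not at hlt
    push_cast at hlt
    exact hlt
  calc ((Finset.univ.filter (fun ω : Lab m T (radix B q) => (j : ℕ) ∉ candAll B p ω)).card : ℝ)
      ≤ ∑ u ∈ Finset.range (T + 1), ((Finset.univ.filter
        (fun ω : Lab m T (radix B q) => p j / (4 * (q : ℝ) ^ (2 ^ u)) < noise m T (radix B q) p j u ω)).card : ℝ) := by
        have := (Finset.card_le_card hsub).trans Finset.card_biUnion_le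
        exact_mod_cast this
    _ ≤ ∑ _u ∈ Finset.range (T + 1), (4 * q / (B * δ)) * Fintype.card (Lab m T (radix B q)) := by
        apply Finset.sum_le_sum
        intro u hu
        have huT : u ≤ T := by
          have := Finset.mem_range.mp hu; omega
        have hτ : 0 < p j / (4 * (q : ℝ) ^ (2 ^ u)) := by positivity
        have h1 := markov_count (fun ω : Lab m T (radix B q) => noise m T (radix B q) p j u ω)
          (fun ω => by
            unfold noise
            apply Finset.sum_nonneg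
            intro i _
            split_ifs
            · exact hp _
            · exact le_rfl) (τ := p j / (4 * (q : ℝ) ^ (2 ^ u)))
        have h2 := sum_noise m T (radix B q) (radix_pos hB hq) p hp hsum j u huT
        have h3 := prod_radix B q u
        have hprod : (0 : ℝ) < ∏ v ∈ Finset.range (u + 1), (radix B q v : ℝ) :=
          Finset.prod_pos fun v _ => by exact_mod_cast radix_pos hB hq v
        have h4 := h1.trans h2
        rw [← le_div_iff₀ hτ] at h4
        refine h4.trans ?_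
        have h5 : (Fintype.card (Lab m T (radix B q)) : ℝ) / (∏ v ∈ Finset.range (u + 1), (radix B q v : ℝ)) /
            (p j / (4 * (q : ℝ) ^ (2 ^ u))) = (4 * q / (B * p j)) * Fintype.card (Lab m T (radix B q)) := by
          have h6 : (∏ v ∈ Finset.range (u + 1), (radix B q v : ℝ)) = B * (q : ℝ) ^ (2 ^ u) / q := by
            rw [← h3]; field_simp
          rw [h6]
          field_simp
        rw [h5]
        apply mul_le_mul_of_nonneg_right _ (by positivity)
        apply div_le_div_of_nonneg_left (by positivity) (by positivity)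
        exact mul_le_mul_of_nonneg_left hpj hB'.le
    _ = _ := by simp; ring

/-- all repeats together -/
noncomputable def candK {m T : ℕ} {Rr : ℕ → ℕ} (K B : ℕ) (p : ℕ → ℝ) (ω : Fin K → Lab m T Rr) :
    Finset ℕ :=
  Finset.univ.biUnion (fun r => candAll B p (ω r))

lemma card_bad {m T B q K : ℕ} (hB : 0 < B) (hq : 0 < q) (hm : m ≤ q ^ (2 ^ T)) {p : ℕ → ℝ}
    (hp : ∀ i, 0 ≤ p i) (hsum : ∑ i : Fin m, p i ≤ 1) {δ φ : ℝ} (hδ : 0 < δ)
    (hφ : (T + 1) * (4 * q / (B * δ)) ≤ φ) :
    ((Finset.univ.filter (fun ω : Fin K → Lab m T (radix B q) =>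
      ∃ j : Fin m, δ ≤ p j ∧ (j : ℕ) ∉ candK K B p ω)).card : ℝ) ≤
      φ ^ K / δ * Fintype.card (Fin K → Lab m T (radix B q)) := by
  classical
  have hφ0 : 0 ≤ φ := le_trans (by positivity) hφ
  set H := Finset.univ.filter (fun j : Fin m => δ ≤ p j) with hH
  have hHcard : (H.card : ℝ) ≤ 1 / δ := by
    rw [le_div_iff₀ hδ]
    calc (H.card : ℝ) * δ = ∑ _j ∈ H, δ := by simp
      _ ≤ ∑ j ∈ H, p j := Finset.sum_le_sum fun j hj => (Finset.mem_filter.mp hj).2
      _ ≤ ∑ j : Fin m, p j := Finset.sum_le_sum_of_subset_of_nonneg (Finset.filter_subset _ _)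
          (fun j _ _ => hp j)
      _ ≤ 1 := hsum
  have hsub : Finset.univ.filter (fun ω : Fin K → Lab m T (radix B q) =>
      ∃ j : Fin m, δ ≤ p j ∧ (j : ℕ) ∉ candK K B p ω) ⊆
      H.biUnion (fun j => Fintype.piFinset (fun _ : Fin K =>
        Finset.univ.filter (fun ω : Lab m T (radix B q) => (j : ℕ) ∉ candAll B p ω))) := by
    intro ω hω
    obtain ⟨j, hj1, hj2⟩ := (Finset.mem_filter.mp hω).2
    rw [Finset.mem_biUnion]
    refine ⟨j, Finset.mem_filter.mpr ⟨Finset.mem_univ _, hj1⟩, ?_⟩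
    rw [Fintype.mem_piFinset]
    intro r
    rw [Finset.mem_filter]
    refine ⟨Finset.mem_univ _, fun h => hj2 ?_⟩
    unfold candK
    rw [Finset.mem_biUnion]
    exact ⟨r, Finset.mem_univ _, h⟩
  have hcardK : (Fintype.card (Fin K → Lab m T (radix B q)) : ℝ) =
      (Fintype.card (Lab m T (radix B q)) : ℝ) ^ K := by
    rw [Fintype.card_fun, Fintype.card_fin]; push_cast; rfl
  calc ((Finset.univ.filter (fun ω : Fin K → Lab m T (radix B q) =>
      ∃ j : Fin m, δ ≤ p j ∧ (j : ℕ) ∉ candK K B p ω)).card : ℝ)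
      ≤ ∑ j ∈ H, ((Fintype.piFinset (fun _ : Fin K =>
        Finset.univ.filter (fun ω : Lab m T (radix B q) => (j : ℕ) ∉ candAll B p ω))).card : ℝ) := by
        have := (Finset.card_le_card hsub).trans Finset.card_biUnion_le
        exact_mod_cast this
    _ ≤ ∑ _j ∈ H, (φ * Fintype.card (Lab m T (radix B q))) ^ K := by
        apply Finset.sum_le_sum
        intro j hj
        rw [Fintype.card_piFinset, Finset.prod_const, Finset.card_univ, Fintype.card_fin]
        push_cast
        apply pow_le_pow_left₀ (by positivity)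
        refine (card_fail hB hq hm hp hsum j hδ (Finset.mem_filter.mp hj).2).trans ?_
        exact mul_le_mul_of_nonneg_right hφ (by positivity)
    _ = H.card * (φ ^ K * Fintype.card (Fin K → Lab m T (radix B q))) := by
        rw [Finset.sum_const, nsmul_eq_mul, mul_pow, hcardK]
    _ ≤ (1 / δ) * (φ ^ K * Fintype.card (Fin K → Lab m T (radix B q))) := by
        apply mul_le_mul_of_nonneg_right hHcard (by positivity)
    _ = _ := by ring

end Pool.Agent.H74
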