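import Mathlib
import Pool.Agent.H74.CompC
import Pool.Agent.H74.Decode

open MeasureTheory Set
open scoped ENNReal Pointwise

namespace Pool.Agent.H74

open Pool.Agent.MP_83e7a5

/-- `ℓ_P(ℕ)` -/
abbrev LP (P : ℝ≥0∞) : Type := lp (fun _ : ℕ => ℝ) P

/-- weighted coordinates -/
def pw {P : ℝ≥0∞} (c : ℕ → ℝ) (f : LP P) (i : ℕ) : ℝ := c i * f i

section
variable {P : ℝ≥0∞} [hP1 : Fact (1 ≤ P)]

/-- coordinate functionals -/
noncomputable def ev (P : ℝ≥0∞) [Fact (1 ≤ P)] (i : ℕ) : LP P →L[ℝ] ℝ :=
  lp.evalCLM ℝ (fun _ : ℕ => ℝ) P i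

lemma ev_apply (i : ℕ) (f : LP P) : ev P i f = f i := rfl

/-- label-weighted mass functional -/
noncomputable def labL (P : ℝ≥0∞) [Fact (1 ≤ P)] (c : ℕ → ℝ) (θ : ℕ → ℝ) (D : Finset ℕ) : LP P →L[ℝ] ℝ :=
  ∑ i ∈ D, (θ i * c i) • ev P i

lemma labL_apply (c : ℕ → ℝ) (θ : ℕ → ℝ) (D : Finset ℕ) (f : LP P) :
    labL P c θ D f = ∑ i ∈ D, θ i * pw c f i := by
  unfold labL pw
  rw [sum_apply]
  apply Finset.sum_congr rfl
  intro i _
  show (θ i * c i) • (ev P i f) = _
  rw [ev_apply, smul_eq_mul, mul_assoc]

lemma comp_iter (c : ℕ → ℝ) (θ : ℕ → ℕ → ℕ) (D0 : Finset ℕ) :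
    ∀ u : ℕ, CompC (2 * u) (fun f : LP P => iter (pw c f) θ u D0)
  | 0 => ⟨D0, fun _ => rfl⟩
  | (u + 1) => by
    have ih := comp_iter c θ D0 u
    refine CompC.bind 2 (fun (D : Finset ℕ) (f : LP P) =>
      D.filter (fun i => θ u i = dec (lab (pw c f) (θ u) D) (mass (pw c f) D))) ?_ (2 * u) _ ih
    intro D
    refine ⟨labL P c (fun i => (θ u i : ℝ)) D, fun V f =>
      D.filter (fun i => θ u i = dec V (mass (pw c f) D)), ?_, ?_⟩
    · intro V
      refine ⟨labL P c (fun _ => 1) D, fun A _ => D.filter (fun i => θ u i = dec V A), ?_, ?_⟩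
      · intro A; exact ⟨_, fun _ => rfl⟩
      · intro f
        rw [labL_apply]
        simp only [one_mul]
        rfl
    · intro f
      rw [labL_apply]
      rfl

lemma comp_candAll (c : ℕ → ℝ) (B : ℕ) {m T : ℕ} {Rr : ℕ → ℕ} (ω : Lab m T Rr) :
    CompC (B * (2 * (T + 1))) (fun f : LP P => candAll B (pw c f) ω) := by
  have := CompC.biUnion (X := LP P) (k := 2 * (T + 1))
    (fun (β : ℕ) (f : LP P) => iter (pw c f) (rlab ω) (T + 1) (bucket ω β))
    (fun β => comp_iter c (rlab ω) (bucket ω β) (T + 1)) (Finset.range B)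
  rw [Finset.card_range] at this
  exact this

lemma comp_candK (c : ℕ → ℝ) (K B : ℕ) {m T : ℕ} {Rr : ℕ → ℕ} (ω : Fin K → Lab m T Rr) :
    CompC (K * (B * (2 * (T + 1)))) (fun f : LP P => candK K B (pw c f) ω) := by
  have := CompC.biUnion (X := LP P) (k := B * (2 * (T + 1)))
    (fun (r : Fin K) (f : LP P) => candAll B (pw c f) (ω r))
    (fun r => comp_candAll c B (ω r)) Finset.univ
  rw [Finset.card_univ, Fintype.card_fin] at this
  exact this

omit hP1 in
lemma card_candK (c : ℕ → ℝ) (K B : ℕ) {m T : ℕ} {Rr : ℕ → ℕ} (ω : Fin K → Lab m T Rr) (f : LP P) :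
    (candK K B (pw c f) ω).card ≤ K * B := by
  unfold candK
  refine Finset.card_biUnion_le.trans ?_
  calc ∑ r : Fin K, (candAll B (pw c f) (ω r)).card ≤ ∑ _r : Fin K, B := by
        apply Finset.sum_le_sum
        intro r _
        unfold candAll
        refine Finset.card_biUnion_le.trans ?_
        calc ∑ β ∈ Finset.range B, (iter (pw c f) (rlab (ω r)) (T + 1) (bucket (ω r) β)).card
            ≤ ∑ _β ∈ Finset.range B, 1 := by
              apply Finset.sum_le_sum
              intro β _
              rw [Finset.card_le_one]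
              intro i hi j hj
              unfold iter at hi hj
              have h1 := (Finset.mem_filter.mp hi).2
              have h2 := (Finset.mem_filter.mp hj).2
              unfold rlab at h1 h2
              rw [if_neg (lt_irrefl T)] at h1 h2
              rw [h1, h2]
          _ = B := by simp
    _ = K * B := by simp

/-- output: restriction to a finite set of coordinates -/
noncomputable def out (D : Finset ℕ) (f : LP P) : LP P := ∑ i ∈ D, f i • lp.single P i (1 : ℝ)

lemma comp_out (D : Finset ℕ) : CompC D.card (fun f : LP P => out D f) := by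
  induction D using Finset.induction_on with
  | empty => exact ⟨0, fun f => by simp [out]⟩
  | insert i s hi ih =>
    rw [Finset.card_insert_of_notMem hi]
    refine ⟨ev P i, fun y f => y • lp.single P i (1 : ℝ) + out s f, fun y => ?_, fun f => ?_⟩
    · exact CompC.map (fun z => y • lp.single P i (1 : ℝ) + z) _ _ ih
    · exact Finset.sum_insert hi

lemma comp_total (c : ℕ → ℝ) (K B : ℕ) {m T : ℕ} {Rr : ℕ → ℕ} (ω : Fin K → Lab m T Rr) :
    CompC (K * (B * (2 * (T + 1))) + K * B) (fun f : LP P => out (candK K B (pw c f) ω) f) := by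
  have := CompC.bind (K * B) (fun (D : Finset ℕ) (f : LP P) => if D.card ≤ K * B then out D f else 0)
    (fun D => by
      by_cases hD : D.card ≤ K * B
      · simp only [hD, if_true]
        exact (comp_out D).mono hD
      · simp only [hD, if_false]
        exact (CompC.const (0 : LP P)).mono (Nat.zero_le _)) _ _ (comp_candK (P := P) c K B ω)
  simpa only [card_candK, if_true] using this

omit hP1 in
lemma out_apply (D : Finset ℕ) (f : LP P) (i : ℕ) : out D f i = if i ∈ D then f i else 0 := by
  unfold out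
  rw [lp.coeFn_sum, Finset.sum_apply]
  have h1 : ∀ k ∈ D, (f k • lp.single P k (1 : ℝ) : LP P) i = if k = i then f i else 0 := by
    intro k _
    rw [lp.coeFn_smul, Pi.smul_apply, smul_eq_mul]
    by_cases hk : k = i
    · subst hk
      rw [lp.single_apply_self]; simp
    · rw [lp.single_apply_ne _ _ _ (Ne.symm hk)]; simp [hk]
  rw [Finset.sum_congr rfl h1, Finset.sum_ite_eq']

omit hP1 in
lemma resid_apply (D : Finset ℕ) (f : LP P) (i : ℕ) : (f - out D f) i = if i ∈ D then 0 else f i := by
  rw [lp.coeFn_sub, Pi.sub_apply, out_apply]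
  split_ifs <;> simp

lemma continuous_out (D : Finset ℕ) : Continuous (fun f : LP P => out D f) := by
  unfold out
  refine continuous_finsetSum _ (fun i _ => ?_)
  exact (ev P i).continuous.smul continuous_const

/-- measurability of a set-valued computation -/
lemma meas_bind {Ω' : Type*} [MeasurableSpace Ω'] (g : Ω' → Finset ℕ) (h : Finset ℕ → Ω' → Finset ℕ)
    (hg : ∀ D, MeasurableSet {f | g f = D}) (hh : ∀ E D, MeasurableSet {f | h E f = D}) :
    ∀ D, MeasurableSet {f | h (g f) f = D} := by
  intro D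
  have : {f | h (g f) f = D} = ⋃ E, ({f | g f = E} ∩ {f | h E f = D}) := by
    ext f; simp
  rw [this]
  exact MeasurableSet.iUnion fun E => (hg E).inter (hh E D)

lemma meas_iter [MeasurableSpace (LP P)] [BorelSpace (LP P)] (c : ℕ → ℝ) (θ : ℕ → ℕ → ℕ)
    (D0 : Finset ℕ) : ∀ (u : ℕ) (D : Finset ℕ), MeasurableSet {f : LP P | iter (pw c f) θ u D0 = D}
  | 0 => fun D => by
    by_cases h : D0 = D
    · simp [iter, h]
    · simp [iter, h]
  | (u + 1) => by
    have ih := meas_iter c θ D0 u
    refine meas_bind (fun f : LP P => iter (pw c f) θ u D0) (fun D f =>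
      D.filter (fun i => θ u i = dec (lab (pw c f) (θ u) D) (mass (pw c f) D))) ih ?_
    intro E D
    have h1 : Measurable (fun f : LP P => dec (lab (pw c f) (θ u) E) (mass (pw c f) E)) := by
      unfold dec
      apply Nat.measurable_floor.comp
      apply Measurable.add _ measurable_const
      have e1 : (fun f : LP P => lab (pw c f) (θ u) E) = fun f => labL P c (fun i => (θ u i : ℝ)) E f := by
        funext f; rw [labL_apply]; rfl
      have e2 : (fun f : LP P => mass (pw c f) E) = fun f => labL P c (fun _ => 1) E f := by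
        funext f; rw [labL_apply]; simp only [one_mul]; rfl
      apply Measurable.div
      · rw [e1]; exact (labL P c _ E).continuous.measurable
      · rw [e2]; exact (labL P c _ E).continuous.measurable
    have h2 : {f : LP P | E.filter (fun i => θ u i = dec (lab (pw c f) (θ u) E) (mass (pw c f) E)) = D} =
        (fun f : LP P => dec (lab (pw c f) (θ u) E) (mass (pw c f) E)) ⁻¹'
          {t : ℕ | E.filter (fun i => θ u i = t) = D} := rfl
    rw [h2]
    exact h1 (MeasurableSet.of_discrete)

lemma meas_biUnion {ι : Type*} [DecidableEq ι] {Ω' : Type*} [MeasurableSpace Ω'] (g : ι → Ω' → Finset ℕ)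
    (hg : ∀ i D, MeasurableSet {f | g i f = D}) (s : Finset ι) :
    ∀ D, MeasurableSet {f | s.biUnion (fun i => g i f) = D} := by
  induction s using Finset.induction_on with
  | empty =>
    intro D
    by_cases h : (∅ : Finset ℕ) = D
    · simp [h]
    · simp [h]
  | insert i s hi ih =>
    have := meas_bind (g i) (fun E f => E ∪ s.biUnion (fun i => g i f)) (hg i) (by
      intro E
      exact meas_bind (fun f => s.biUnion (fun i => g i f)) (fun G _ => E ∪ G) ih (by
        intro G D
        by_cases h : E ∪ G = D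
        · simp [h]
        · simp [h]))
    intro D
    simpa only [Finset.biUnion_insert] using this D

lemma meas_candK [MeasurableSpace (LP P)] [BorelSpace (LP P)] (c : ℕ → ℝ) (K B : ℕ) {m T : ℕ}
    {Rr : ℕ → ℕ} (ω : Fin K → Lab m T Rr) (D : Finset ℕ) :
    MeasurableSet {f : LP P | candK K B (pw c f) ω = D} := by
  unfold candK candAll
  apply meas_biUnion
  intro r
  apply meas_biUnion
  intro β
  exact meas_iter c _ _ _

lemma meas_err [MeasurableSpace (LP P)] [BorelSpace (LP P)] (c : ℕ → ℝ) (K B : ℕ) {m T : ℕ}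
    {Rr : ℕ → ℕ} (ω : Fin K → Lab m T Rr) :
    Measurable (fun f : LP P => ‖f - out (candK K B (pw c f) ω) f‖) := by
  intro U hU
  have : (fun f : LP P => ‖f - out (candK K B (pw c f) ω) f‖) ⁻¹' U =
      ⋃ D : Finset ℕ, ({f : LP P | candK K B (pw c f) ω = D} ∩ (fun f : LP P => ‖f - out D f‖) ⁻¹' U) := by
    ext f; simp
  rw [this]
  refine MeasurableSet.iUnion fun D => (meas_candK c K B ω D).inter ?_
  exact ((continuous_id.sub (continuous_out D)).norm.measurable) hU

end

end Pool.Agent.H74
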