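import Mathlib
import Pool.Agent.H74.Inst

open MeasureTheory Set
open scoped ENNReal Pointwise

namespace Pool.Agent.H74

open Pool.Agent.MP_83e7a5

/-- The key entropy lemma: for a linear map from `ℓ_1^{5^N+1}` to `ℝ^N`, some difference of two unit
vectors is within distance `< 1/2` of the kernel. -/
theorem exists_near_kernel (N : ℕ)
    (T : PiLp 1 (fun _ : Fin (5 ^ N + 1) => ℝ) →ₗ[ℝ] (Fin N → ℝ)) :
    ∃ i j : Fin (5 ^ N + 1), i ≠ j ∧ ∃ u : PiLp 1 (fun _ : Fin (5 ^ N + 1) => ℝ),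
      ‖u‖ < 1 / 2 ∧
      T (PiLp.single 1 i (1 : ℝ) - PiLp.single 1 j (1 : ℝ)) = T u := by
  classical
  set Z := PiLp 1 (fun _ : Fin (5 ^ N + 1) => ℝ) with hZ
  let V : Submodule ℝ Z := LinearMap.ker T
  have hV : IsClosed (V : Set Z) := V.closed_of_finiteDimensional
  let e : Fin (5 ^ N + 1) → Z := fun i => PiLp.single 1 i (1 : ℝ)
  have he : ∀ i, ‖e i‖ = 1 := by
    intro i
    simp only [e]
    rw [PiLp.norm_single]
    norm_num
  by_contra hcon
  push Not at hcon
  let q : Fin (5 ^ N + 1) → (Z ⧸ V) := fun i => (2 : ℝ) • Submodule.Quotient.mk (e i)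
  have hsep : ∀ i j, i ≠ j → 1 ≤ ‖q i - q j‖ := by
    intro i j hij
    by_contra hlt
    push Not at hlt
    have h1 : q i - q j = (2 : ℝ) • (Submodule.Quotient.mk (e i - e j) : Z ⧸ V) := by
      simp only [q, Submodule.Quotient.mk_sub, smul_sub]
    rw [h1, norm_smul] at hlt
    have h2 : ‖(Submodule.Quotient.mk (e i - e j) : Z ⧸ V)‖ < 1 / 2 := by
      have : ‖(2 : ℝ)‖ = 2 := by norm_num
      rw [this] at hlt
      linarith
    obtain ⟨u, hu1, hu2⟩ := Submodule.Quotient.norm_mk_lt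
      (Submodule.Quotient.mk (e i - e j) : Z ⧸ V) (ε := 1 / 2 - ‖(Submodule.Quotient.mk (e i - e j) : Z ⧸ V)‖)
      (by linarith)
    have hu3 : ‖u‖ < 1 / 2 := by linarith
    apply hcon i j hij u hu3
    have h3 : (Submodule.Quotient.mk (e i - e j) : Z ⧸ V) = Submodule.Quotient.mk u := hu1.symm
    rw [Submodule.Quotient.eq] at h3
    have h4 : T ((e i - e j) - u) = 0 := h3
    rw [map_sub, sub_eq_zero] at h4
    exact h4
  have hinj : Function.Injective q := by
    intro i j hij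
    by_contra hne
    have := hsep i j hne
    rw [hij, sub_self, norm_zero] at this
    linarith
  have hcard := Besicovitch.card_le_of_separated (E := Z ⧸ V) (Finset.univ.image q)
    (by
      intro c hc
      obtain ⟨i, -, rfl⟩ := Finset.mem_image.1 hc
      have h5 : ‖(Submodule.Quotient.mk (e i) : Z ⧸ V)‖ ≤ 1 := by
        rw [← he i]
        exact Submodule.Quotient.norm_mk_le V (e i)
      simp only [q]
      rw [norm_smul]
      have : ‖(2 : ℝ)‖ = 2 := by norm_num
      rw [this]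
      linarith)
    (by
      intro c hc d hd hcd
      obtain ⟨i, -, rfl⟩ := Finset.mem_image.1 hc
      obtain ⟨j, -, rfl⟩ := Finset.mem_image.1 hd
      apply hsep
      intro h
      exact hcd (by rw [h]))
  rw [Finset.card_image_of_injective _ hinj, Finset.card_univ, Fintype.card_fin] at hcard
  have hrank : Module.finrank ℝ (Z ⧸ V) ≤ N := by
    have h6 : Module.finrank ℝ (Z ⧸ V) = Module.finrank ℝ (LinearMap.range T) :=
      LinearEquiv.finrank_eq T.quotKerEquivRange
    rw [h6]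
    calc Module.finrank ℝ (LinearMap.range T) ≤ Module.finrank ℝ (Fin N → ℝ) :=
          Submodule.finrank_le _
      _ = N := by simp
  have h7 : 5 ^ Module.finrank ℝ (Z ⧸ V) ≤ 5 ^ N := Nat.pow_le_pow_right (by norm_num) hrank
  omega

/-- Embedding of finite sequences in `ℓ_P(ℕ)`. -/
noncomputable def emb (P : ℝ≥0∞) (n : ℕ) : (Fin n → ℝ) →ₗ[ℝ] lp (fun _ : ℕ => ℝ) P :=
  ∑ k : Fin n, (lp.lsingle (𝕜 := ℝ) (E := fun _ : ℕ => ℝ) P (k : ℕ)) ∘ₗ (LinearMap.proj k)

theorem emb_apply_lt (P : ℝ≥0∞) (n : ℕ) (w : Fin n → ℝ) (i : Fin n) :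
    (emb P n w) (i : ℕ) = w i := by
  simp only [emb, LinearMap.sum_apply, LinearMap.comp_apply, LinearMap.proj_apply, lp.lsingle_apply,
    lp.coeFn_sum, Finset.sum_apply]
  rw [Finset.sum_eq_single i]
  · simp
  · intro b _ hb
    rw [lp.single_apply_ne]
    intro h
    exact hb (Fin.ext h).symm
  · intro h
    exact absurd (Finset.mem_univ i) h

theorem emb_apply_ge (P : ℝ≥0∞) (n : ℕ) (w : Fin n → ℝ) (i : ℕ) (hi : n ≤ i) :
    (emb P n w) i = 0 := by
  simp only [emb, LinearMap.sum_apply, LinearMap.comp_apply, LinearMap.proj_apply, lp.lsingle_apply,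
    lp.coeFn_sum, Finset.sum_apply]
  apply Finset.sum_eq_zero
  intro b _
  rw [lp.single_apply_ne]
  intro h
  have := b.2
  omega

theorem emb_mem_Fset (P : ℝ≥0∞) (c : ℕ → ℝ) (hc1 : ∀ i, 1 ≤ c i) (hmono : Monotone c) (n : ℕ)
    (w : Fin (n + 1) → ℝ) (hw : ∀ i, 0 ≤ w i) (hsum : c n * ∑ i, w i ≤ 1) :
    emb P (n + 1) w ∈ Fset P c := by
  have hnn : ∀ i, 0 ≤ (emb P (n + 1) w) i := by
    intro i
    by_cases h : i < n + 1
    · have := emb_apply_lt P (n + 1) w ⟨i, h⟩
      simp only at this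
      rw [this]
      exact hw _
    · rw [emb_apply_ge P (n + 1) w i (by omega)]
  refine ⟨hnn, ?_⟩
  intro s
  have hz : ∑ i ∈ s, c i * (emb P (n + 1) w) i ≤
      ∑ i ∈ Finset.range (n + 1), c i * (emb P (n + 1) w) i := by
    rw [← Finset.sum_filter_add_sum_filter_not s (fun i => i < n + 1)]
    have h0 : ∑ i ∈ s.filter (fun i => ¬ i < n + 1), c i * (emb P (n + 1) w) i = 0 := by
      apply Finset.sum_eq_zero
      intro i hi
      rw [emb_apply_ge P (n + 1) w i (by have := (Finset.mem_filter.1 hi).2; omega), mul_zero]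
    rw [h0, add_zero]
    apply Finset.sum_le_sum_of_subset_of_nonneg
    · intro i hi
      exact Finset.mem_range.2 (Finset.mem_filter.1 hi).2
    · intro i _ _
      exact mul_nonneg (le_trans zero_le_one (hc1 i)) (hnn i)
  refine hz.trans (le_trans ?_ hsum)
  rw [Finset.sum_range, Finset.mul_sum]
  apply Finset.sum_le_sum
  intro i _
  rw [emb_apply_lt]
  exact mul_le_mul_of_nonneg_right (hmono (by have := i.2; omega)) (hw i)

/-- Lower bound for nonadaptive deterministic algorithms. -/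
theorem det_lower (P : ℝ≥0∞) [Fact (1 ≤ P)] (c : ℕ → ℝ) (hc1 : ∀ i, 1 ≤ c i) (hmono : Monotone c)
    (N : ℕ) :
    ENNReal.ofReal (1 / (10 * c (5 ^ N))) ≤ eDetNon (Sid P) (Fset P c) N := by
  classical
  unfold eDetNon
  refine le_iInf fun L => le_iInf fun φ => ?_
  set n := 5 ^ N with hn
  set C := c n with hC
  have hC1 : 1 ≤ C := hc1 n
  have hC0 : 0 < C := lt_of_lt_of_le one_pos hC1
  let T0 : (Fin (n + 1) → ℝ) →ₗ[ℝ] (Fin N → ℝ) :=
    (LinearMap.pi fun k => (L k).toLinearMap) ∘ₗ (emb P (n + 1))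
  let T : PiLp 1 (fun _ : Fin (5 ^ N + 1) => ℝ) →ₗ[ℝ] (Fin N → ℝ) :=
    T0 ∘ₗ (WithLp.linearEquiv 1 ℝ (Fin (n + 1) → ℝ)).toLinearMap
  obtain ⟨i, j, hij, u, hu, hT⟩ := exists_near_kernel N T
  let h : Fin (n + 1) → ℝ := fun k =>
    (if k = i then 1 else 0) - (if k = j then 1 else 0) - u k
  have hu1 : ∑ k, |u k| < 1 / 2 := by
    rw [PiLp.norm_eq_of_nat 1 (by norm_num)] at hu
    simpa using hu
  have hTh : T0 h = 0 := by
    have h1 : T0 h = T (PiLp.single 1 i (1 : ℝ) - PiLp.single 1 j (1 : ℝ)) - T u := by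
      rw [← map_sub]
      change T0 h = T0 _
      congr 1
      ext k
      simp only [h, LinearEquiv.coe_coe, WithLp.linearEquiv_apply]
      simp
    rw [h1, hT, sub_self]
  have habs : ∑ k, |h k| ≤ 5 / 2 := by
    have h1 : ∀ k, |h k| ≤ (if k = i then 1 else 0) + (if k = j then 1 else 0) + |u k| := by
      intro k
      simp only [h]
      calc |(if k = i then (1 : ℝ) else 0) - (if k = j then 1 else 0) - u k|
          ≤ |(if k = i then (1 : ℝ) else 0) - (if k = j then 1 else 0)| + |u k| := abs_sub _ _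
        _ ≤ |(if k = i then (1 : ℝ) else 0)| + |(if k = j then (1 : ℝ) else 0)| + |u k| := by
            gcongr
            exact abs_sub _ _
        _ = _ := by
            congr 1
            congr 1
            · split_ifs <;> simp
            · split_ifs <;> simp
    calc ∑ k, |h k| ≤ ∑ k, ((if k = i then 1 else 0) + (if k = j then 1 else 0) + |u k|) :=
          Finset.sum_le_sum fun k _ => h1 k
      _ = 1 + 1 + ∑ k, |u k| := by
          rw [Finset.sum_add_distrib, Finset.sum_add_distrib]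
          simp
      _ ≤ 5 / 2 := by linarith
  have hi : 1 / 2 ≤ |h i| := by
    have h2 : |u i| ≤ ∑ k, |u k| :=
      Finset.single_le_sum (f := fun k => |u k|) (fun k _ => abs_nonneg _) (Finset.mem_univ i)
    have h3 : h i = 1 - u i := by
      simp [h, hij]
    rw [h3]
    have h4 := le_abs_self (1 - u i)
    have h5 := le_abs_self (u i)
    linarith
  let κ : ℝ := 1 / (5 / 2 * C)
  have hκ : 0 < κ := by positivity
  let w1 : Fin (n + 1) → ℝ := fun k => κ * max (h k) 0
  let w2 : Fin (n + 1) → ℝ := fun k => κ * max (-h k) 0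
  have hw1 : emb P (n + 1) w1 ∈ Fset P c := by
    apply emb_mem_Fset P c hc1 hmono n w1
    · intro k
      exact mul_nonneg hκ.le (le_max_right _ _)
    · have h6 : ∑ k, w1 k ≤ κ * (5 / 2) := by
        simp only [w1]
        rw [← Finset.mul_sum]
        apply mul_le_mul_of_nonneg_left _ hκ.le
        refine le_trans (Finset.sum_le_sum fun k _ => ?_) habs
        exact max_le (le_abs_self _) (abs_nonneg _)
      calc C * ∑ k, w1 k ≤ C * (κ * (5 / 2)) := mul_le_mul_of_nonneg_left h6 hC0.le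
        _ = 1 := by
          simp only [κ]
          field_simp
        _ ≤ 1 := le_refl _
  have hw2 : emb P (n + 1) w2 ∈ Fset P c := by
    apply emb_mem_Fset P c hc1 hmono n w2
    · intro k
      exact mul_nonneg hκ.le (le_max_right _ _)
    · have h6 : ∑ k, w2 k ≤ κ * (5 / 2) := by
        simp only [w2]
        rw [← Finset.mul_sum]
        apply mul_le_mul_of_nonneg_left _ hκ.le
        refine le_trans (Finset.sum_le_sum fun k _ => ?_) habs
        exact max_le (neg_le_abs _) (abs_nonneg _)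
      calc C * ∑ k, w2 k ≤ C * (κ * (5 / 2)) := mul_le_mul_of_nonneg_left h6 hC0.le
        _ = 1 := by
          simp only [κ]
          field_simp
        _ ≤ 1 := le_refl _
  have hdiff : emb P (n + 1) w1 - emb P (n + 1) w2 = κ • emb P (n + 1) h := by
    rw [← map_sub, ← map_smul]
    congr 1
    ext k
    simp only [w1, w2, Pi.sub_apply, Pi.smul_apply, smul_eq_mul]
    rcases le_total 0 (h k) with h7 | h7
    · rw [max_eq_left h7, max_eq_right (by linarith)]
      ring
    · rw [max_eq_right h7, max_eq_left (by linarith)]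
      ring
  have hL : (fun k => L k (emb P (n + 1) w1)) = (fun k => L k (emb P (n + 1) w2)) := by
    ext k
    have h8 : L k (emb P (n + 1) w1 - emb P (n + 1) w2) = 0 := by
      rw [hdiff, map_smul]
      have h9 := congrFun hTh k
      have h10 : L k (emb P (n + 1) h) = 0 := h9
      rw [h10, smul_zero]
    rw [map_sub, sub_eq_zero] at h8
    exact h8
  have hnorm : 1 / (5 * C) ≤ ‖emb P (n + 1) w1 - emb P (n + 1) w2‖ := by
    have hP : P ≠ 0 := by
      have : (1 : ℝ≥0∞) ≤ P := Fact.out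
      intro h0
      rw [h0] at this
      simp at this
    refine le_trans ?_ (lp.norm_apply_le_norm hP _ ((i : Fin (n + 1)) : ℕ))
    rw [hdiff, lp.coeFn_smul, Pi.smul_apply, emb_apply_lt, norm_smul, Real.norm_eq_abs,
      Real.norm_eq_abs, abs_of_pos hκ]
    calc 1 / (5 * C) = κ * (1 / 2) := by
          simp only [κ]
          field_simp
      _ ≤ κ * |h i| := mul_le_mul_of_nonneg_left hi hκ.le
  set y := φ (fun k => L k (emb P (n + 1) w1)) with hy
  have hy2 : φ (fun k => L k (emb P (n + 1) w2)) = y := by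
    rw [hy, hL]
  have hor : 1 / (10 * C) ≤ ‖emb P (n + 1) w1 - y‖ ∨ 1 / (10 * C) ≤ ‖emb P (n + 1) w2 - y‖ := by
    by_contra hcon
    push Not at hcon
    have h11 : ‖emb P (n + 1) w1 - emb P (n + 1) w2‖ ≤
        ‖emb P (n + 1) w1 - y‖ + ‖emb P (n + 1) w2 - y‖ := by
      have := norm_sub_le (emb P (n + 1) w1 - y) (emb P (n + 1) w2 - y)
      simpa using this
    have h12 : 1 / (10 * C) + 1 / (10 * C) = 1 / (5 * C) := by
      field_simp
      norm_num
    linarith [hcon.1, hcon.2]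
  rcases hor with h13 | h13
  · refine le_trans ?_ (le_iSup₂ (f := fun f _ => ‖Sid P f - φ (fun i => L i f)‖ₑ)
      (emb P (n + 1) w1) hw1)
    rw [← ofReal_norm]
    exact ENNReal.ofReal_le_ofReal h13
  · refine le_trans ?_ (le_iSup₂ (f := fun f _ => ‖Sid P f - φ (fun i => L i f)‖ₑ)
      (emb P (n + 1) w2) hw2)
    rw [← ofReal_norm]
    apply ENNReal.ofReal_le_ofReal
    rw [hy2]
    exact h13

theorem cw_one_le (b : ℕ) (i : ℕ) : 1 ≤ cw b i := by
  unfold cw
  apply Real.one_le_rpow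
  · exact_mod_cast Nat.le_add_right 1 _
  · positivity

theorem cw_mono (b : ℕ) : Monotone (cw b) := by
  intro i j hij
  unfold cw
  apply Real.rpow_le_rpow
  · positivity
  · have : Nat.log 2 (i + 1) ≤ Nat.log 2 (j + 1) := Nat.log_mono_right (by omega)
    exact_mod_cast Nat.add_le_add_left this 1
  · positivity

theorem cw_five_pow_le (b : ℕ) (N : ℕ) (hN : 1 ≤ N) :
    cw b (5 ^ N) ≤ (5 * (N : ℝ)) ^ (1 / (b : ℝ)) := by
  unfold cw
  apply Real.rpow_le_rpow
  · positivity
  · have h1 : 5 ^ N + 1 ≤ 2 ^ (3 * N) := by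
      obtain ⟨m, rfl⟩ : ∃ m, N = m + 1 := ⟨N - 1, by omega⟩
      have h5 : 5 ^ m ≤ 8 ^ m := Nat.pow_le_pow_left (by norm_num) m
      have h8 : 1 ≤ 8 ^ m := Nat.one_le_pow _ _ (by norm_num)
      calc 5 ^ (m + 1) + 1 = 5 * 5 ^ m + 1 := by ring
        _ ≤ 8 * 8 ^ m := by omega
        _ = 2 ^ (3 * (m + 1)) := by
          rw [pow_mul]
          norm_num
          ring
    have h2 : Nat.log 2 (5 ^ N + 1) ≤ 3 * N := by
      calc Nat.log 2 (5 ^ N + 1) ≤ Nat.log 2 (2 ^ (3 * N)) := Nat.log_mono_right h1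
        _ = 3 * N := Nat.log_pow (by norm_num) _
    have h3 : 1 + Nat.log 2 (5 ^ N + 1) ≤ 5 * N := by omega
    exact_mod_cast h3
  · positivity

/-- The rate of nonadaptive deterministic algorithms for the weighted simplex is at most `1/b`. -/
theorem rate_det (P : ℝ≥0∞) [Fact (1 ≤ P)] (b : ℕ) (hb : 1 ≤ b) :
    rate (eDetNon (Sid P) (Fset P (cw b))) ≤ ((1 / (b : ℝ) : ℝ) : EReal) := by
  unfold rate
  apply sSup_le
  rintro _ ⟨α, hα, rfl⟩
  rw [EReal.coe_le_coe_iff]
  by_contra hlt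
  push Not at hlt
  simp only [Set.mem_setOf_eq] at hα
  set M := (⨆ (n : ℕ) (_ : 1 ≤ n), (n : ℝ≥0∞) ^ α * eDetNon (Sid P) (Fset P (cw b)) n) with hM
  have hMtop : M ≠ ⊤ := hα.ne
  set β := α - 1 / (b : ℝ) with hβ
  have hβ0 : 0 < β := by simp only [hβ]; linarith
  have hbound : ∀ N : ℕ, 1 ≤ N → (N : ℝ) ^ β ≤ M.toReal * (10 * (5 : ℝ) ^ (1 / (b : ℝ))) := by
    intro N hN
    have hN0 : (0 : ℝ) < N := by exact_mod_cast hN
    have h1 : (N : ℝ≥0∞) ^ α * ENNReal.ofReal (1 / (10 * cw b (5 ^ N))) ≤ M := by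
      calc (N : ℝ≥0∞) ^ α * ENNReal.ofReal (1 / (10 * cw b (5 ^ N)))
          ≤ (N : ℝ≥0∞) ^ α * eDetNon (Sid P) (Fset P (cw b)) N := by
            gcongr
            exact det_lower P (cw b) (cw_one_le b) (cw_mono b) N
        _ ≤ M := le_iSup₂ (f := fun (n : ℕ) (_ : 1 ≤ n) =>
            (n : ℝ≥0∞) ^ α * eDetNon (Sid P) (Fset P (cw b)) n) N hN
    have h2 : (N : ℝ≥0∞) ^ α = ENNReal.ofReal ((N : ℝ) ^ α) := by
      rw [← ENNReal.ofReal_natCast, ENNReal.ofReal_rpow_of_pos hN0]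
    rw [h2, ← ENNReal.ofReal_mul (by positivity)] at h1
    have h3 : (N : ℝ) ^ α * (1 / (10 * cw b (5 ^ N))) ≤ M.toReal :=
      (ENNReal.ofReal_le_iff_le_toReal hMtop).1 h1
    have hc0 : 0 < cw b (5 ^ N) := lt_of_lt_of_le one_pos (cw_one_le b _)
    have h4 : (N : ℝ) ^ α ≤ M.toReal * (10 * cw b (5 ^ N)) := by
      have h5 : (N : ℝ) ^ α * (1 / (10 * cw b (5 ^ N))) * (10 * cw b (5 ^ N)) = (N : ℝ) ^ α := by
        field_simp
      rw [← h5]
      exact mul_le_mul_of_nonneg_right h3 (by positivity)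
    have h6 := cw_five_pow_le b N hN
    rw [Real.mul_rpow (by norm_num) hN0.le] at h6
    have h7 : (N : ℝ) ^ α = (N : ℝ) ^ β * (N : ℝ) ^ (1 / (b : ℝ)) := by
      rw [← Real.rpow_add hN0]
      congr 1
      simp only [hβ]
      ring
    have hNb : 0 < (N : ℝ) ^ (1 / (b : ℝ)) := by positivity
    have h8 : (N : ℝ) ^ β * (N : ℝ) ^ (1 / (b : ℝ)) ≤
        (M.toReal * (10 * (5 : ℝ) ^ (1 / (b : ℝ)))) * (N : ℝ) ^ (1 / (b : ℝ)) := by
      rw [← h7]
      calc (N : ℝ) ^ α ≤ M.toReal * (10 * cw b (5 ^ N)) := h4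
        _ ≤ M.toReal * (10 * ((5 : ℝ) ^ (1 / (b : ℝ)) * (N : ℝ) ^ (1 / (b : ℝ)))) := by
            gcongr
        _ = _ := by ring
    exact le_of_mul_le_mul_right h8 hNb
  have htend : Filter.Tendsto (fun N : ℕ => (N : ℝ) ^ β) Filter.atTop Filter.atTop :=
    (tendsto_rpow_atTop hβ0).comp tendsto_natCast_atTop_atTop
  obtain ⟨N, hN1, hN2⟩ := ((Filter.eventually_ge_atTop 1).and
    (htend.eventually_gt_atTop (M.toReal * (10 * (5 : ℝ) ^ (1 / (b : ℝ)))))).exists
  exact absurd (hbound N hN1) (not_le.2 hN2)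

end Pool.Agent.H74
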