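import Mathlib
import Pool.Agent.H74.Alg

open MeasureTheory Set
open scoped ENNReal Pointwise

namespace Pool.Agent.H74

open Pool.Agent.MP_83e7a5

lemma meas_val {X : Type*} [NormedAddCommGroup X] [NormedSpace ℝ X] {F : Set X} (R : ℝ)
    (hR : ∀ u ∈ F - F, ‖u‖ ≤ R) :
    @Measurable F X (gaugeBorel ℝ F) (borel X) (Subtype.val) := by
  refine @measurable_generateFrom F X (gaugeBorel ℝ F) {s | IsOpen s} Subtype.val ?_
  intro V hV
  apply MeasurableSpace.measurableSet_generateFrom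
  intro f hf
  have hV' : IsOpen V := hV
  obtain ⟨ε, hε, hball⟩ := Metric.isOpen_iff.mp hV' f.1 hf
  have hR0 : 0 < |R| + 1 := by positivity
  refine ⟨ε / (|R| + 1), by positivity, fun g hg => ?_⟩
  have hne : {r : ℝ | 0 < r ∧ ∃ u ∈ F - F, ((g : X) - (f : X)) = ((r : ℝ) : ℝ) • u}.Nonempty :=
    ⟨1, one_pos, (g : X) - f, Set.sub_mem_sub g.2 f.2, by simp⟩
  obtain ⟨r, ⟨hr0, u, hu, hgu⟩, hr⟩ := exists_lt_of_csInf_lt hne hg
  apply hball
  rw [Metric.mem_ball, dist_eq_norm]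
  show ‖(g : X) - (f : X)‖ < ε
  rw [hgu, norm_smul, Real.norm_eq_abs]
  have h1 : |((r : ℝ) : ℝ)| = r := abs_of_pos hr0
  rw [h1]
  have h2 : ‖u‖ ≤ |R| := (hR u hu).trans (le_abs_self R)
  rw [lt_div_iff₀ hR0] at hr
  have h3 := norm_nonneg u
  nlinarith

section
variable {P : ℝ≥0∞} [hP1 : Fact (1 ≤ P)]

/-- norm control by sup and sum -/
def NormProp (P : ℝ≥0∞) [Fact (1 ≤ P)] (Θ : ℝ → ℝ) : Prop :=
  ∀ (z : LP P) (δ : ℝ), 0 ≤ δ → (∀ i, 0 ≤ z i ∧ z i ≤ δ) → (∀ s : Finset ℕ, ∑ i ∈ s, z i ≤ 1) →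
    ‖z‖ ≤ Θ δ

omit hP1 in
lemma Fset_le {c : ℕ → ℝ} (hc : ∀ i, 1 ≤ c i) {f : LP P} (hf : f ∈ Fset P c) (s : Finset ℕ) :
    ∑ i ∈ s, f i ≤ 1 := by
  refine le_trans (Finset.sum_le_sum fun i _ => ?_) (hf.2 s)
  have := hf.1 i
  nlinarith [hc i]

omit hP1 in
lemma Fset_apply_le {c : ℕ → ℝ} (hc : ∀ i, 1 ≤ c i) {f : LP P} (hf : f ∈ Fset P c) (i : ℕ) :
    f i ≤ 1 := by
  have := Fset_le hc hf {i}
  simpa using this

lemma norm_Fset_le {c : ℕ → ℝ} (hc : ∀ i, 1 ≤ c i) {Θ : ℝ → ℝ} (hΘ : NormProp P Θ) {f : LP P}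
    (hf : f ∈ Fset P c) : ‖f‖ ≤ Θ 1 :=
  hΘ f 1 zero_le_one (fun i => ⟨hf.1 i, Fset_apply_le hc hf i⟩) (Fset_le hc hf)

lemma norm_resid_le {c : ℕ → ℝ} (hc : ∀ i, 1 ≤ c i) {Θ : ℝ → ℝ} (hΘ : NormProp P Θ) {f : LP P}
    (hf : f ∈ Fset P c) (D : Finset ℕ) {δ : ℝ} (hδ : 0 ≤ δ) (hD : ∀ i, i ∉ D → f i ≤ δ) :
    ‖f - out D f‖ ≤ Θ δ := by
  apply hΘ _ δ hδ
  · intro i
    rw [resid_apply]
    split_ifs with hi
    · exact ⟨le_rfl, hδ⟩
    · exact ⟨hf.1 i, hD i hi⟩
  · intro s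
    refine le_trans (Finset.sum_le_sum fun i _ => ?_) (Fset_le hc hf s)
    rw [resid_apply]
    split_ifs
    · exact hf.1 i
    · exact le_rfl

theorem main_ran {c : ℕ → ℝ} (hc : ∀ i, 1 ≤ c i) {Θ : ℝ → ℝ} (hΘ : NormProp P Θ)
    {m T B q K N : ℕ} (hB : 0 < B) (hq : 0 < q) (hm : m ≤ q ^ (2 ^ T)) {δ φ : ℝ} (hδ : 0 < δ)
    (hφ : (T + 1) * (4 * q / (B * δ)) ≤ φ) (hφK : φ ^ K / δ ≤ δ) (hcm : ∀ i, m ≤ i → 1 / δ ≤ c i)
    (hN : K * (B * (2 * (T + 1))) + K * B ≤ N) :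
    eRan (Sid P) (Fset P c) N ≤ ENNReal.ofReal (Θ δ + Θ 1 * δ) := by
  classical
  have hΘ0 : ∀ x, 0 ≤ x → 0 ≤ Θ x := by
    intro x hx
    have := hΘ 0 x hx (fun i => by simp [hx]) (fun s => by simp)
    simpa using this
  -- algorithms
  have hcomp : ∀ ω : Fin K → Lab m T (radix B q),
      ∃ A : AdaptiveAlg ℝ (LP P) (LP P) N, ∀ f, A.eval f = out (candK K B (pw c f) ω) f := fun ω =>
    CompC.toAlg N _ ((comp_total c K B ω).mono hN)
  choose A hA using hcomp
  let mΩ : MeasurableSpace (Fin K → Lab m T (radix B q)) := ⊤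
  have hne : Nonempty (Fin K → Lab m T (radix B q)) :=
    ⟨fun _ v _ => ⟨0, radix_pos hB hq v⟩⟩
  set cardΩ : ℝ≥0∞ := (Fintype.card (Fin K → Lab m T (radix B q)) : ℝ≥0∞) with hcardΩ
  have hc0 : cardΩ ≠ 0 := by
    rw [hcardΩ]; exact_mod_cast Fintype.card_ne_zero
  have hc1 : cardΩ ≠ ∞ := ENNReal.natCast_ne_top _
  let Pr : @Measure (Fin K → Lab m T (radix B q)) mΩ := cardΩ⁻¹ • Measure.count
  have hPr : IsProbabilityMeasure Pr := by
    refine ⟨?_⟩
    show (cardΩ⁻¹ • Measure.count) Set.univ = 1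
    rw [Measure.smul_apply, Measure.count_univ, smul_eq_mul]
    have : ENat.card (Fin K → Lab m T (radix B q)) = (Fintype.card (Fin K → Lab m T (radix B q)) : ℕ∞) :=
      ENat.card_eq_coe_fintype_card
    rw [this]
    exact ENNReal.inv_mul_cancel hc0 hc1
  have hbd : ∀ u ∈ Fset P c - Fset P c, ‖u‖ ≤ 2 * Θ 1 := by
    rintro _ ⟨x, hx, y, hy, rfl⟩
    calc ‖x - y‖ ≤ ‖x‖ + ‖y‖ := norm_sub_le _ _
      _ ≤ 2 * Θ 1 := by
        have := norm_Fset_le hc hΘ hx
        have := norm_Fset_le hc hΘ hy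
        linarith
  have hjoint : JointlyMeasurable (Sid P) (Fset P c) mΩ A := by
    unfold JointlyMeasurable
    let _ : MeasurableSpace (Fset P c) := gaugeBorel ℝ (Fset P c)
    apply measurable_from_prod_countable_left
    intro ω
    let _ : MeasurableSpace (LP P) := borel (LP P)
    have _ : BorelSpace (LP P) := ⟨rfl⟩
    have h1 := (meas_err (P := P) c K B ω).comp (meas_val (2 * Θ 1) hbd)
    convert h1 using 1
    funext f
    simp only [Function.comp, Sid, hA]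
    rfl
  -- bound the error of this randomized algorithm
  refine iInf_le_of_le _ (iInf_le_of_le mΩ (iInf_le_of_le Pr (iInf_le_of_le hPr
    (iInf_le_of_le A (iInf_le_of_le hjoint ?_)))))
  apply iSup₂_le
  intro f hf
  set p : ℕ → ℝ := pw c f with hp
  have hp0 : ∀ i, 0 ≤ p i := fun i => by
    have := hf.1 i
    have := hc i
    rw [hp]; unfold pw; positivity
  have hpsum : ∑ i : Fin m, p i ≤ 1 := by
    rw [Fin.sum_univ_eq_sum_range p m]
    exact hf.2 (Finset.range m)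
  set bad : Finset (Fin K → Lab m T (radix B q)) := Finset.univ.filter
    (fun ω => ∃ j : Fin m, δ ≤ p j ∧ (j : ℕ) ∉ candK K B p ω) with hbad
  have hbadcard := card_bad (K := K) hB hq hm hp0 hpsum hδ hφ
  have hpt : ∀ ω, ‖(Sid P) f - (A ω).eval f‖ₑ ≤
      ENNReal.ofReal (Θ δ) + (↑bad : Set (Fin K → Lab m T (radix B q))).indicator (fun _ => ENNReal.ofReal (Θ 1)) ω := by
    intro ω
    rw [hA]
    show ‖f - out (candK K B p ω) f‖ₑ ≤ _
    by_cases hω : ω ∈ bad
    · rw [Set.indicator_of_mem (by exact_mod_cast hω)]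
      refine le_trans ?_ le_add_self
      rw [← ofReal_norm]
      exact ENNReal.ofReal_le_ofReal (norm_resid_le hc hΘ hf _ zero_le_one
        (fun i _ => Fset_apply_le hc hf i))
    · rw [Set.indicator_of_notMem (by exact_mod_cast hω), add_zero, ← ofReal_norm]
      apply ENNReal.ofReal_le_ofReal
      apply norm_resid_le hc hΘ hf _ hδ.le
      intro i hi
      have hfi := hf.1 i
      have hci := hc i
      by_cases him : i < m
      · have h1 : p i < δ := by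
          by_contra hcon
          push Not at hcon
          apply hω
          rw [hbad, Finset.mem_filter]
          exact ⟨Finset.mem_univ _, ⟨i, him⟩, hcon, hi⟩
        have h2 : f i ≤ p i := by
          rw [hp]; unfold pw; nlinarith
        linarith
      · push Not at him
        have h1 := hcm i him
        have h2 : c i * f i ≤ 1 := by
          have := hf.2 {i}
          simpa using this
        have h3 : 1 / δ * f i ≤ 1 := le_trans (mul_le_mul_of_nonneg_right h1 hfi) h2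
        rw [div_mul_eq_mul_div, one_mul, div_le_one hδ] at h3
        exact h3
  calc ∫⁻ ω, ‖(Sid P) f - (A ω).eval f‖ₑ ∂Pr
      ≤ ∫⁻ ω, (ENNReal.ofReal (Θ δ) +
          (↑bad : Set (Fin K → Lab m T (radix B q))).indicator (fun _ => ENNReal.ofReal (Θ 1)) ω) ∂Pr := lintegral_mono hpt
    _ = ENNReal.ofReal (Θ δ) + ENNReal.ofReal (Θ 1) * Pr (↑bad : Set (Fin K → Lab m T (radix B q))) := by
        rw [lintegral_add_left measurable_const, lintegral_const, measure_univ, mul_one,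
          lintegral_indicator_const]
        exact MeasurableSpace.measurableSet_top
    _ ≤ ENNReal.ofReal (Θ δ) + ENNReal.ofReal (Θ 1) * ENNReal.ofReal δ := by
        gcongr
        show (cardΩ⁻¹ • Measure.count) (↑bad : Set (Fin K → Lab m T (radix B q))) ≤ _
        rw [Measure.smul_apply, smul_eq_mul, Measure.count_apply_finset' MeasurableSpace.measurableSet_top]
        have hcr : (0 : ℝ) < Fintype.card (Fin K → Lab m T (radix B q)) := by
          exact_mod_cast Fintype.card_pos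
        have e1 : (bad.card : ℝ≥0∞) ≤ ENNReal.ofReal δ * cardΩ := by
          have h1 : (bad.card : ℝ) ≤ δ * Fintype.card (Fin K → Lab m T (radix B q)) :=
            hbadcard.trans (mul_le_mul_of_nonneg_right hφK hcr.le)
          have h2 : cardΩ = ENNReal.ofReal (Fintype.card (Fin K → Lab m T (radix B q)) : ℝ) := by
            rw [hcardΩ, ENNReal.ofReal_natCast]
          rw [h2, ← ENNReal.ofReal_mul hδ.le, ← ENNReal.ofReal_natCast]
          exact ENNReal.ofReal_le_ofReal h1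
        calc cardΩ⁻¹ * (bad.card : ℝ≥0∞) ≤ cardΩ⁻¹ * (ENNReal.ofReal δ * cardΩ) := by gcongr
          _ = ENNReal.ofReal δ * (cardΩ⁻¹ * cardΩ) := by ring
          _ = ENNReal.ofReal δ := by rw [ENNReal.inv_mul_cancel hc0 hc1, mul_one]
    _ = ENNReal.ofReal (Θ δ + Θ 1 * δ) := by
        rw [← ENNReal.ofReal_mul (hΘ0 1 zero_le_one), ← ENNReal.ofReal_add (hΘ0 δ hδ.le)]
        have := hΘ0 1 zero_le_one
        positivity

end

end Pool.Agent.H74
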