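import Mathlib

open MeasureTheory Set
open scoped ENNReal Pointwise

namespace Pool.Agent.H74

/-- Functions on a real vector space that can be computed from `k` adaptively chosen linear
measurements (decision tree form). -/
def Comp {E β : Type*} [AddCommGroup E] [Module ℝ E] : ℕ → (E → β) → Prop
  | 0, g => ∃ z, ∀ t, g t = z
  | (k + 1), g => ∃ (a : E →ₗ[ℝ] ℝ) (h : ℝ → E → β), (∀ y, Comp k (h y)) ∧ ∀ t, g t = h (a t) t

lemma Comp.comp_affine {E β : Type*} [AddCommGroup E] [Module ℝ E] (A : E →ₗ[ℝ] E) (v : E) :
    ∀ (k : ℕ) (g : E → β), Comp k g → Comp k (fun t => g (A t + v))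
  | 0, g, ⟨z, hz⟩ => ⟨z, fun t => hz _⟩
  | (k + 1), g, ⟨a, h, hh, hg⟩ => by
    refine ⟨a.comp A, fun y t => h (y + a v) (A t + v), fun y => ?_, fun t => ?_⟩
    · exact Comp.comp_affine A v k _ (hh _)
    · simp [hg, map_add]

/-- Sums of `k` vectors of the form `c e_j` with `|c| ≤ s`. -/
def Sig (n : ℕ) (s : ℝ) : ℕ → Set (Fin n → ℝ)
  | 0 => {0}
  | (k + 1) => {x | ∃ (j : Fin n) (c : ℝ), |c| ≤ s ∧ x = c • (Pi.single j 1 : Fin n → ℝ)} + Sig n s k

lemma slice {n : ℕ} (hn : 0 < n) {β : Type*} {s : ℝ} (hs : 0 < s) :
    ∀ (k : ℕ) (R : ℝ) (_ : 0 < R) (G : Set (Fin n → ℝ)) (_ : MeasurableSet G)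
      (_ : ∀ t ∈ G, ∀ i, |t i| ≤ R) (g : (Fin n → ℝ) → β) (_ : Comp k g),
      ∃ z : β, volume G * (ENNReal.ofReal (2 * s)) ^ k ≤
        (ENNReal.ofReal (2 * n * (R + k * s))) ^ k * volume ({t | t ∈ G ∧ g t = z} + Sig n s k) := by
  intro k
  induction k with
  | zero =>
    intro R hR G hG hGR g ⟨z, hz⟩
    refine ⟨z, ?_⟩
    have : ({t | t ∈ G ∧ g t = z} : Set (Fin n → ℝ)) = G := by
      ext t; simp [hz]
    simp [this, Sig]
  | succ k ih =>
    intro R hR G hG hGR g ⟨a, h, hh, hg⟩
    have hn' : (1 : ℝ) ≤ n := by exact_mod_cast hn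
    by_cases ha : a = 0
    · -- trivial measurement
      obtain ⟨z, hz⟩ := ih R hR G hG hGR (h 0) (hh 0)
      refine ⟨z, ?_⟩
      have hsub : ({t | t ∈ G ∧ h 0 t = z} + Sig n s k : Set (Fin n → ℝ)) ⊆
          {t | t ∈ G ∧ g t = z} + Sig n s (k + 1) := by
        rintro _ ⟨t, ⟨ht, htz⟩, σ, hσ, rfl⟩
        refine ⟨t, ⟨ht, by rw [hg, ha]; simpa using htz⟩, σ, ?_, rfl⟩
        refine ⟨0, ⟨⟨0, hn⟩, 0, by simpa using hs.le, by simp⟩, σ, hσ, by simp⟩
      calc volume G * (ENNReal.ofReal (2 * s)) ^ (k + 1)
          = ENNReal.ofReal (2 * s) * (volume G * (ENNReal.ofReal (2 * s)) ^ k) := by ring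
        _ ≤ ENNReal.ofReal (2 * n * (R + (k + 1 : ℕ) * s)) *
            ((ENNReal.ofReal (2 * n * (R + k * s))) ^ k *
              volume ({t | t ∈ G ∧ h 0 t = z} + Sig n s k)) := by
            refine mul_le_mul' (ENNReal.ofReal_le_ofReal ?_) hz
            push_cast
            have h0 : (0:ℝ) ≤ k := by positivity
            have h1 : s ≤ R + (k + 1) * s := by nlinarith [mul_nonneg h0 hs.le]
            have h2 : 0 ≤ R + (k + 1) * s := by linarith
            nlinarith
        _ ≤ ENNReal.ofReal (2 * n * (R + (k + 1 : ℕ) * s)) *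
            ((ENNReal.ofReal (2 * n * (R + (k + 1 : ℕ) * s))) ^ k *
              volume ({t | t ∈ G ∧ g t = z} + Sig n s (k + 1))) := by
            refine mul_le_mul' le_rfl (mul_le_mul' (pow_le_pow_left' (ENNReal.ofReal_le_ofReal ?_) k)
              (measure_mono hsub))
            push_cast
            nlinarith
        _ = _ := by ring
    · -- genuine measurement
      have : Nonempty (Fin n) := ⟨⟨0, hn⟩⟩
      obtain ⟨j, hj⟩ := Finite.exists_max (fun i : Fin n => |a (Pi.single i 1)|)
      have hsum : ∀ t : Fin n → ℝ, a t = ∑ i, t i * a (Pi.single i 1) := by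
        intro t
        conv_lhs => rw [pi_eq_sum_univ' t]
        simp [map_sum]
      have haj : a (Pi.single j 1) ≠ 0 := by
        intro h0
        apply ha
        apply LinearMap.ext
        intro t
        rw [hsum]
        simp only [LinearMap.zero_apply]
        apply Finset.sum_eq_zero
        intro i _
        have := hj i
        simp only [h0, abs_zero] at this
        have : a (Pi.single i 1) = 0 := abs_eq_zero.mp (le_antisymm this (abs_nonneg _))
        simp [this]
      set e : Fin n → ℝ := Pi.single j 1 with he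
      set b : (Fin n → ℝ) →ₗ[ℝ] ℝ := (a e)⁻¹ • a with hb
      have hbe : b e = 1 := by simp [hb, inv_mul_cancel₀ haj]
      have hab : ∀ t, a t = a e * b t := by
        intro t; simp only [hb, LinearMap.smul_apply, smul_eq_mul]; field_simp
      have hbR : ∀ t ∈ G, |b t| ≤ n * R := by
        intro t ht
        have h1 : b t = ∑ i, t i * (a (Pi.single i 1) / a e) := by
          simp only [hb, LinearMap.smul_apply, smul_eq_mul]
          rw [hsum t, Finset.mul_sum]
          apply Finset.sum_congr rfl
          intro i _
          field_simp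
        rw [h1]
        calc |∑ i, t i * (a (Pi.single i 1) / a e)| ≤ ∑ i, |t i * (a (Pi.single i 1) / a e)| :=
              Finset.abs_sum_le_sum_abs _ _
          _ ≤ ∑ _i : Fin n, R := by
              apply Finset.sum_le_sum
              intro i _
              rw [abs_mul, abs_div]
              have h2 : |a (Pi.single i 1)| / |a e| ≤ 1 := by
                rw [div_le_one (abs_pos.mpr haj)]
                exact hj i
              have h3 := hGR t ht i
              have h4 := abs_nonneg (t i)
              have h5 : 0 ≤ |a (Pi.single i 1)| / |a e| := by positivity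
              nlinarith
          _ = n * R := by simp
      have hbcont : Continuous b := LinearMap.continuous_of_finiteDimensional b
      -- the thickened slices
      set π : ℝ → (Fin n → ℝ) → (Fin n → ℝ) := fun u t => t + (u - b t) • e with hπ
      set G' : ℝ → Set (Fin n → ℝ) := fun u => {t | π u t ∈ G ∧ |u - b t| ≤ s} with hG'
      have hπcont : Continuous (fun p : ℝ × (Fin n → ℝ) => π p.1 p.2) := by
        simp only [hπ]
        fun_prop
      have hmeas : MeasurableSet {p : ℝ × (Fin n → ℝ) | p.2 ∈ G' p.1} := by
        have h1 : MeasurableSet ((fun p : ℝ × (Fin n → ℝ) => π p.1 p.2) ⁻¹' G) :=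
          hπcont.measurable hG
        have h2 : MeasurableSet {p : ℝ × (Fin n → ℝ) | |p.1 - b p.2| ≤ s} := by
          apply measurableSet_le
          · exact (by fun_prop : Continuous (fun p : ℝ × (Fin n → ℝ) => |p.1 - b p.2|)).measurable
          · exact measurable_const
        exact h1.inter h2
      have hbπ : ∀ u t, b (π u t) = u := by
        intro u t
        simp only [hπ, map_add, map_smul, hbe, smul_eq_mul, mul_one]
        ring
      have hfub : ∫⁻ u, volume (G' u) = ENNReal.ofReal (2 * s) * volume G := by
        have hm2 : MeasurableSet {p : (Fin n → ℝ) × ℝ | p.1 + p.2 • e ∈ G ∧ |p.2| ≤ s} := by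
          have h1 : MeasurableSet ((fun p : (Fin n → ℝ) × ℝ => p.1 + p.2 • e) ⁻¹' G) := by
            have : Continuous (fun p : (Fin n → ℝ) × ℝ => p.1 + p.2 • e) := by fun_prop
            exact this.measurable hG
          have h2 : MeasurableSet {p : (Fin n → ℝ) × ℝ | |p.2| ≤ s} := by
            apply measurableSet_le
            · exact (by fun_prop : Continuous (fun p : (Fin n → ℝ) × ℝ => |p.2|)).measurable
            · exact measurable_const
          exact h1.inter h2
        calc ∫⁻ u, volume (G' u)
            = ∫⁻ u, ∫⁻ t, ({p : ℝ × (Fin n → ℝ) | p.2 ∈ G' p.1}.indicator 1 (u, t)) := by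
              apply lintegral_congr
              intro u
              have h3 : MeasurableSet (G' u) := by
                have := measurable_prodMk_left (x := u) hmeas
                exact this
              rw [← lintegral_indicator_one h3]
              rfl
          _ = ∫⁻ t, ∫⁻ u, ({p : ℝ × (Fin n → ℝ) | p.2 ∈ G' p.1}.indicator 1 (u, t)) := by
              rw [lintegral_lintegral_swap]
              exact (measurable_one.indicator hmeas).aemeasurable
          _ = ∫⁻ t, ∫⁻ v, ({p : (Fin n → ℝ) × ℝ | p.1 + p.2 • e ∈ G ∧ |p.2| ≤ s}.indicator 1 (t, v)) := by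
              apply lintegral_congr
              intro t
              rw [← lintegral_add_right_eq_self _ (b t)]
              apply lintegral_congr
              intro v
              have hiff : (t ∈ G' (v + b t)) ↔ (t + v • e ∈ G ∧ |v| ≤ s) := by
                simp [hG', hπ]
              by_cases hc : t + v • e ∈ G ∧ |v| ≤ s
              · rw [Set.indicator_of_mem (show (v + b t, t) ∈ {p : ℝ × (Fin n → ℝ) | p.2 ∈ G' p.1} from hiff.mpr hc),
                  Set.indicator_of_mem (show (t, v) ∈ {p : (Fin n → ℝ) × ℝ | p.1 + p.2 • e ∈ G ∧ |p.2| ≤ s} from hc)]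
                rfl
              · rw [Set.indicator_of_notMem (show (v + b t, t) ∉ {p : ℝ × (Fin n → ℝ) | p.2 ∈ G' p.1} from fun h => hc (hiff.mp h)),
                  Set.indicator_of_notMem (show (t, v) ∉ {p : (Fin n → ℝ) × ℝ | p.1 + p.2 • e ∈ G ∧ |p.2| ≤ s} from hc)]
          _ = ∫⁻ v, ∫⁻ t, ({p : (Fin n → ℝ) × ℝ | p.1 + p.2 • e ∈ G ∧ |p.2| ≤ s}.indicator 1 (t, v)) := by
              rw [lintegral_lintegral_swap]
              exact (measurable_one.indicator hm2).aemeasurable
          _ = ∫⁻ v, (Icc (-s) s).indicator (fun _ => volume G) v := by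
              apply lintegral_congr
              intro v
              by_cases hv : |v| ≤ s
              · have hv' : v ∈ Icc (-s) s := abs_le.mp hv
                rw [Set.indicator_of_mem hv']
                have : ∀ t : Fin n → ℝ, ({p : (Fin n → ℝ) × ℝ | p.1 + p.2 • e ∈ G ∧ |p.2| ≤ s}.indicator (1 : (Fin n → ℝ) × ℝ → ℝ≥0∞) (t, v)) = G.indicator 1 (t + v • e) := by
                  intro t
                  by_cases hc : t + v • e ∈ G
                  · rw [Set.indicator_of_mem (show (t, v) ∈ {p : (Fin n → ℝ) × ℝ | p.1 + p.2 • e ∈ G ∧ |p.2| ≤ s} from ⟨hc, hv⟩),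
                      Set.indicator_of_mem hc]
                    rfl
                  · rw [Set.indicator_of_notMem (show (t, v) ∉ {p : (Fin n → ℝ) × ℝ | p.1 + p.2 • e ∈ G ∧ |p.2| ≤ s} from fun h => hc h.1),
                      Set.indicator_of_notMem hc]
                simp_rw [this]
                rw [lintegral_add_right_eq_self (fun t => G.indicator (1 : (Fin n → ℝ) → ℝ≥0∞) t) (v • e)]
                rw [lintegral_indicator_one hG]
              · have hv' : v ∉ Icc (-s) s := fun h => hv (abs_le.mpr h)
                rw [Set.indicator_of_notMem hv']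
                have : ∀ t : Fin n → ℝ, ({p : (Fin n → ℝ) × ℝ | p.1 + p.2 • e ∈ G ∧ |p.2| ≤ s}.indicator (1 : (Fin n → ℝ) × ℝ → ℝ≥0∞) (t, v)) = 0 := by
                  intro t
                  exact Set.indicator_of_notMem (fun h => hv h.2) _
                simp [this]
          _ = ENNReal.ofReal (2 * s) * volume G := by
              rw [lintegral_indicator_const measurableSet_Icc]
              rw [Real.volume_Icc, mul_comm]
              congr 2
              ring
      have hGfin : volume G ≠ ∞ := by
        have hsub : G ⊆ Metric.closedBall (0 : Fin n → ℝ) R := by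
          intro t ht
          rw [mem_closedBall_zero_iff, pi_norm_le_iff_of_nonneg hR.le]
          intro i
          exact hGR t ht i
        exact ((measure_mono hsub).trans_lt (measure_closedBall_lt_top)).ne
      have hnR : 0 < n * R := by positivity
      have hfub2 : ∫⁻ u in Icc (-(n * R)) (n * R), volume (G' u) = ENNReal.ofReal (2 * s) * volume G := by
        rw [← hfub]
        apply setLIntegral_eq_of_support_subset
        intro u hu
        rw [Function.mem_support] at hu
        obtain ⟨t, ht⟩ : (G' u).Nonempty := by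
          by_contra hne
          rw [Set.not_nonempty_iff_eq_empty] at hne
          simp [hne] at hu
        have := hbR _ ht.1
        rw [hbπ] at this
        exact abs_le.mp this
      obtain ⟨u, hu, hule⟩ : ∃ u ∈ Icc (-(n * R)) (n * R),
          ENNReal.ofReal (2 * s) * volume G ≤ ENNReal.ofReal (2 * n * R) * volume (G' u) := by
        have h1 : volume (Icc (-(n * R)) (n * R)) ≠ 0 := by
          rw [Real.volume_Icc]; simp; linarith
        have h2 : volume (Icc (-(n * R)) (n * R)) ≠ ∞ := by
          rw [Real.volume_Icc]; simp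
        obtain ⟨u, hu, hle⟩ := exists_setLAverage_le h1 measurableSet_Icc.nullMeasurableSet
          (f := fun u => volume (G' u)) (by
            rw [hfub2]
            exact ENNReal.mul_ne_top ENNReal.ofReal_ne_top hGfin)
        refine ⟨u, hu, ?_⟩
        rw [setLAverage_eq, hfub2, ENNReal.div_le_iff h1 h2] at hle
        refine hle.trans (le_of_eq ?_)
        rw [Real.volume_Icc, mul_comm]
        congr 2
        ring
      -- apply the induction hypothesis
      have hmu : MeasurableSet (G' u) := measurable_prodMk_left (x := u) hmeas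
      have hRs : 0 < R + s := by positivity
      have hbd : ∀ t ∈ G' u, ∀ i, |t i| ≤ R + s := by
        intro t ht i
        have h1 := hGR _ ht.1 i
        have h2 : t i = π u t i - (u - b t) * e i := by
          simp [hπ]
        rw [h2]
        have h3 : |e i| ≤ 1 := by
          rw [he]
          by_cases hij : i = j
          · subst hij; simp
          · simp [hij]
        calc |π u t i - (u - b t) * e i| ≤ |π u t i| + |(u - b t) * e i| := abs_sub _ _
          _ ≤ R + s := by
            rw [abs_mul]
            have := ht.2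
            have h4 := abs_nonneg (u - b t)
            have h5 := abs_nonneg (e i)
            nlinarith
      have hcomp : Comp k (fun t => h (a e * u) (π u t)) := by
        have := Comp.comp_affine (LinearMap.id - b.smulRight e) (u • e) k _ (hh (a e * u))
        convert this using 2 with t
        simp only [hπ, LinearMap.sub_apply, LinearMap.id_apply, LinearMap.smulRight_apply, sub_smul]
        abel_nf
      obtain ⟨z, hz⟩ := ih (R + s) hRs (G' u) hmu hbd _ hcomp
      refine ⟨z, ?_⟩
      have hsub : ({t | t ∈ G' u ∧ h (a e * u) (π u t) = z} + Sig n s k : Set (Fin n → ℝ)) ⊆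
          {t | t ∈ G ∧ g t = z} + Sig n s (k + 1) := by
        rintro _ ⟨t, ⟨ht, htz⟩, σ, hσ, rfl⟩
        refine ⟨π u t, ⟨ht.1, ?_⟩, (b t - u) • e + σ, ⟨(b t - u) • e, ⟨j, b t - u, ?_, rfl⟩, σ, hσ, rfl⟩, ?_⟩
        · rw [hg, hab, hbπ]; exact htz
        · rw [abs_sub_comm]; exact ht.2
        · simp only [hπ]
          rw [show (b t - u) • e = -((u - b t) • e) by rw [← neg_smul]; congr 1; ring]
          abel
      calc volume G * (ENNReal.ofReal (2 * s)) ^ (k + 1)
          = (ENNReal.ofReal (2 * s) * volume G) * (ENNReal.ofReal (2 * s)) ^ k := by ring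
        _ ≤ (ENNReal.ofReal (2 * n * R) * volume (G' u)) * (ENNReal.ofReal (2 * s)) ^ k := by gcongr
        _ = ENNReal.ofReal (2 * n * R) * (volume (G' u) * (ENNReal.ofReal (2 * s)) ^ k) := by ring
        _ ≤ ENNReal.ofReal (2 * n * R) * ((ENNReal.ofReal (2 * n * (R + s + k * s))) ^ k *
              volume ({t | t ∈ G' u ∧ h (a e * u) (π u t) = z} + Sig n s k)) := by gcongr
        _ ≤ ENNReal.ofReal (2 * n * (R + (k + 1 : ℕ) * s)) *
            ((ENNReal.ofReal (2 * n * (R + (k + 1 : ℕ) * s))) ^ k *
              volume ({t | t ∈ G ∧ g t = z} + Sig n s (k + 1))) := by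
            have hk0 : (0:ℝ) ≤ k := by positivity
            have hk1 : 0 ≤ (k + 1) * s := by positivity
            refine mul_le_mul' (ENNReal.ofReal_le_ofReal ?_) (mul_le_mul'
              (pow_le_pow_left' (ENNReal.ofReal_le_ofReal ?_) k) (measure_mono hsub))
            · push_cast
              nlinarith
            · push_cast
              nlinarith
        _ = _ := by ring

end Pool.Agent.H74
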