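import Mathlib
import Pool.Agent.H74.Slice
import Pool.Agent.H74.Defs

open MeasureTheory Set
open scoped ENNReal Pointwise

namespace Pool.Agent.H74

open Pool.Agent.MP_83e7a5

lemma Comp.bind {E β γ : Type*} [AddCommGroup E] [Module ℝ E] (m : ℕ) (h : γ → E → β)
    (hh : ∀ z, Comp m (h z)) :
    ∀ (k : ℕ) (g : E → γ), Comp k g → Comp (k + m) (fun t => h (g t) t)
  | 0, g, ⟨z, hz⟩ => by
    have : (fun t => h (g t) t) = h z := by
      funext t; rw [hz]
    rw [this, zero_add]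
    exact hh z
  | (k + 1), g, ⟨a, g', hg', hg⟩ => by
    rw [show k + 1 + m = (k + m) + 1 by ring]
    refine ⟨a, fun y t => h (g' y t) t, fun y => Comp.bind m h hh k _ (hg' y), fun t => ?_⟩
    simp only [hg t]

/-- The parametrised affine family `x₀ + ∑ t_i v_i`. -/
noncomputable def param (𝕜 : Type*) [RCLike 𝕜] {X : Type*} [AddCommGroup X] [Module 𝕜 X] {n : ℕ}
    (x₀ : X) (v : Fin n → X) (t : Fin n → ℝ) : X :=
  x₀ + ∑ i, ((t i : ℝ) : 𝕜) • v i

lemma comp_info {𝕜 : Type*} [RCLike 𝕜] {X : Type*} [NormedAddCommGroup X] [NormedSpace 𝕜 X]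
    {n : ℕ} (x₀ : X) (v : Fin n → X) (L : (k : ℕ) → (Fin k → 𝕜) → (X →L[𝕜] 𝕜)) :
    ∀ (k : ℕ), Comp (2 * k) (fun t : Fin n → ℝ => info L k (param 𝕜 x₀ v t))
  | 0 => ⟨Fin.elim0, fun t => rfl⟩
  | (k + 1) => by
    have ih := comp_info x₀ v L k
    have := Comp.bind (E := Fin n → ℝ) 2
      (fun (y : Fin k → 𝕜) (t : Fin n → ℝ) =>
        (Fin.snoc (α := fun _ => 𝕜) y (L k y (param 𝕜 x₀ v t)) : Fin (k + 1) → 𝕜)) ?_ (2 * k) _ ih
    · exact this
    · intro y
      -- two real measurements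
      let a1 : (Fin n → ℝ) →ₗ[ℝ] ℝ :=
        { toFun := fun t => ∑ i, t i * RCLike.re (L k y (v i))
          map_add' := by
            intro s t; simp [add_mul, Finset.sum_add_distrib]
          map_smul' := by
            intro c t; simp [Finset.mul_sum, mul_assoc] }
      let a2 : (Fin n → ℝ) →ₗ[ℝ] ℝ :=
        { toFun := fun t => ∑ i, t i * RCLike.im (L k y (v i))
          map_add' := by
            intro s t; simp [add_mul, Finset.sum_add_distrib]
          map_smul' := by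
            intro c t; simp [Finset.mul_sum, mul_assoc] }
      refine ⟨a1, fun r t => (Fin.snoc (α := fun _ => 𝕜) y
        (L k y x₀ + ((r : ℝ) : 𝕜) + ((a2 t : ℝ) : 𝕜) * RCLike.I) : Fin (k + 1) → 𝕜), ?_, ?_⟩
      · intro r
        refine ⟨a2, fun r2 _ => (Fin.snoc (α := fun _ => 𝕜) y
          (L k y x₀ + ((r : ℝ) : 𝕜) + ((r2 : ℝ) : 𝕜) * RCLike.I) : Fin (k + 1) → 𝕜), ?_, ?_⟩
        · intro r2
          exact ⟨_, fun t => rfl⟩
        · intro t; rfl
      · intro t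
        show (Fin.snoc (α := fun _ => 𝕜) y (L k y (param 𝕜 x₀ v t)) : Fin (k + 1) → 𝕜) = _
        have hkey : L k y (param 𝕜 x₀ v t) =
            L k y x₀ + ((a1 t : ℝ) : 𝕜) + ((a2 t : ℝ) : 𝕜) * RCLike.I := by
          simp only [param, map_add, map_sum, map_smul, smul_eq_mul, a1, a2, LinearMap.coe_mk,
            AddHom.coe_mk, RCLike.ofReal_mul]
          rw [add_assoc, Finset.sum_mul, ← Finset.sum_add_distrib]
          congr 1
          apply Finset.sum_congr rfl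
          intro i _
          conv_lhs => rw [← RCLike.re_add_im (L k y (v i))]
          ring
        rw [hkey]

lemma Comp.map {E β γ : Type*} [AddCommGroup E] [Module ℝ E] (F : β → γ) :
    ∀ (k : ℕ) (g : E → β), Comp k g → Comp k (fun t => F (g t))
  | 0, g, ⟨z, hz⟩ => ⟨F z, fun t => by simp only [hz]⟩
  | (k + 1), g, ⟨a, h, hh, hg⟩ => ⟨a, fun y t => F (h y t), fun y => Comp.map F k _ (hh y),
      fun t => by simp only [hg t]⟩

lemma vol_good {n : ℕ} (hn : 0 < n) (M : (Fin n → ℝ) →ₗ[ℝ] (Fin n → ℝ))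
    (hdet : |LinearMap.det M| = 1) (K : ℕ) {s : ℝ} (hs : 0 < s) (hKs : K * s ≤ 1)
    (G : Set (Fin n → ℝ)) (hG : MeasurableSet G) (hG1 : ∀ t ∈ G, ∀ i, |t i| ≤ 1)
    (g : (Fin n → ℝ) → (Fin n → ℝ)) (hg : Comp K g) (K1 K2 : Set (Fin n → ℝ))
    (h1 : ∀ t ∈ G, M t - g t ∈ K1) (h2 : ∀ x ∈ K1, ∀ σ ∈ Sig n s K, x + M σ ∈ K2) :
    volume G * (ENNReal.ofReal (2 * s)) ^ K ≤ (ENNReal.ofReal (4 * n)) ^ K * volume K2 := by
  obtain ⟨z, hz⟩ := slice hn hs K 1 one_pos G hG hG1 g hg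
  refine hz.trans ?_
  have hn' : (1 : ℝ) ≤ n := by exact_mod_cast hn
  refine mul_le_mul' (pow_le_pow_left' (ENNReal.ofReal_le_ofReal (by nlinarith)) K) ?_
  have hdet0 : LinearMap.det M ≠ 0 := by
    intro h0; rw [h0] at hdet; simp at hdet
  calc volume ({t | t ∈ G ∧ g t = z} + Sig n s K)
      ≤ volume (M ⁻¹' ((fun x => x - z) ⁻¹' K2)) := by
        apply measure_mono
        rintro _ ⟨t, ⟨ht, htz⟩, σ, hσ, rfl⟩
        have := h2 _ (h1 t ht) σ hσ
        simp only [mem_preimage, map_add]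
        rw [htz] at this
        convert this using 1
        abel
    _ = volume ((fun x => x - z) ⁻¹' K2) := by
        rw [Measure.addHaar_preimage_linearMap volume hdet0, abs_inv, hdet]
        simp
    _ = volume K2 := by
        simp only [sub_eq_add_neg]
        exact measure_preimage_add_right _ _ _

/-- the cube `[-1,1]^n` -/
def cube (n : ℕ) : Set (Fin n → ℝ) := {t | ∀ i, |t i| ≤ 1}

lemma cube_eq (n : ℕ) : cube n = Metric.closedBall (0 : Fin n → ℝ) 1 := by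
  ext t
  rw [mem_closedBall_zero_iff, pi_norm_le_iff_of_nonneg zero_le_one]
  rfl

lemma measurableSet_cube (n : ℕ) : MeasurableSet (cube n) := by
  rw [cube_eq]; exact measurableSet_closedBall

lemma volume_cube (n : ℕ) : volume (cube n) = ENNReal.ofReal (2 ^ n) := by
  rw [cube_eq, Real.volume_pi_closedBall _ zero_le_one]; simp

lemma avg_of_vol {n : ℕ} {τ : ℝ} (err : (Fin n → ℝ) → ℝ≥0∞) (hm : Measurable err)
    (hG : volume {t | t ∈ cube n ∧ err t < ENNReal.ofReal τ} ≤ ENNReal.ofReal (2 ^ n / 2)) :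
    ENNReal.ofReal τ * ENNReal.ofReal (2 ^ n / 2) ≤ ∫⁻ t in cube n, err t := by
  set G := {t | t ∈ cube n ∧ err t < ENNReal.ofReal τ} with hGdef
  have hGm : MeasurableSet G := (measurableSet_cube n).inter (measurableSet_lt hm measurable_const)
  have hvol : ENNReal.ofReal (2 ^ n / 2) ≤ volume (cube n \ G) := by
    have h1 : volume (cube n) ≤ volume (cube n \ G) + volume G := by
      refine (measure_mono ?_).trans (measure_union_le _ _)
      intro x hx
      by_cases hxG : x ∈ G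
      · exact Or.inr hxG
      · exact Or.inl ⟨hx, hxG⟩
    rw [volume_cube] at h1
    have h2 : ENNReal.ofReal (2 ^ n) = ENNReal.ofReal (2 ^ n / 2) + ENNReal.ofReal (2 ^ n / 2) := by
      rw [← ENNReal.ofReal_add (by positivity) (by positivity)]; congr 1; ring
    rw [h2] at h1
    have h3 := h1.trans (add_le_add_right hG _)
    exact (ENNReal.add_le_add_iff_right ENNReal.ofReal_ne_top).mp h3
  calc ENNReal.ofReal τ * ENNReal.ofReal (2 ^ n / 2)
      ≤ ENNReal.ofReal τ * volume (cube n \ G) := by gcongr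
    _ = ∫⁻ _t in cube n \ G, ENNReal.ofReal τ := by rw [setLIntegral_const]
    _ ≤ ∫⁻ t in cube n \ G, err t := by
        apply setLIntegral_mono hm
        intro t ht
        by_contra hlt
        exact ht.2 ⟨ht.1, not_le.mp hlt⟩
    _ ≤ ∫⁻ t in cube n, err t := lintegral_mono_set sdiff_subset

lemma sig_bound {n : ℕ} (N : (Fin n → ℝ) → ℝ) (hN0 : N 0 = 0)
    (hadd : ∀ x y, N (x + y) ≤ N x + N y) {s b : ℝ}
    (hb : ∀ (j : Fin n) (c : ℝ), |c| ≤ s → N (c • (Pi.single j 1 : Fin n → ℝ)) ≤ s * b) :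
    ∀ (K : ℕ), ∀ σ ∈ Sig n s K, N σ ≤ K * (s * b)
  | 0, σ, hσ => by
    have : σ = 0 := hσ
    simp [this, hN0]
  | (K + 1), σ, hσ => by
    obtain ⟨x, ⟨j, c, hc, rfl⟩, y, hy, rfl⟩ := hσ
    have h1 := sig_bound N hN0 hadd hb K y hy
    have h2 := hb j c hc
    have h3 := hadd (c • (Pi.single j 1 : Fin n → ℝ)) y
    push_cast
    calc N ((fun x1 x2 => x1 + x2) (c • (Pi.single j 1 : Fin n → ℝ)) y)
        ≤ N (c • (Pi.single j 1 : Fin n → ℝ)) + N y := h3
      _ ≤ (K + 1) * (s * b) := by linarith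

lemma cube_avg_sup {n : ℕ} (hn : 0 < n) (M : (Fin n → ℝ) →ₗ[ℝ] (Fin n → ℝ))
    (hdet : |LinearMap.det M| = 1) (hM : ∀ j, ‖M (Pi.single j 1)‖ ≤ 1) (K : ℕ) (hK : K < n)
    {η : ℝ} (hη0 : 0 < η) (hη1 : η ≤ 1)
    (hsmall : (2 * n * (K + 1) : ℝ) ^ K * 2 ^ (n + 1) * η ^ (n - K) ≤ 1)
    (g : (Fin n → ℝ) → (Fin n → ℝ)) (hg : Comp K g) {c : ℝ} (hc : 0 < c)
    (err : (Fin n → ℝ) → ℝ≥0∞) (hm : Measurable err)
    (herr : ∀ t ∈ cube n, ENNReal.ofReal (c * ‖M t - g t‖) ≤ err t) :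
    ENNReal.ofReal (c * η) * ENNReal.ofReal (2 ^ n / 2) ≤ ∫⁻ t in cube n, err t := by
  apply avg_of_vol err hm
  have hGm : MeasurableSet {t | t ∈ cube n ∧ err t < ENNReal.ofReal (c * η)} :=
    (measurableSet_cube n).inter (measurableSet_lt hm measurable_const)
  have hK1 : (0 : ℝ) < K + 1 := by positivity
  have hs : 0 < η / (K + 1) := by positivity
  have hKs' : K * (η / (K + 1)) ≤ η := by
    rw [mul_div_assoc', div_le_iff₀ hK1]; nlinarith
  have hKs : K * (η / (K + 1)) ≤ 1 := hKs'.trans hη1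
  have key := vol_good hn M hdet K hs hKs _ hGm (fun t ht => ht.1) g hg
    (Metric.ball 0 η) (Metric.closedBall 0 (2 * η)) ?_ ?_
  · rw [Real.volume_pi_closedBall _ (by positivity), Fintype.card_fin,
      ← ENNReal.ofReal_pow (by positivity), ← ENNReal.ofReal_pow (by positivity),
      ← ENNReal.ofReal_mul (by positivity)] at key
    have hpos : (0:ℝ) < (2 * (η / (K + 1))) ^ K := by positivity
    have h1 : volume {t | t ∈ cube n ∧ err t < ENNReal.ofReal (c * η)} ≤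
        ENNReal.ofReal ((4 * n) ^ K * (2 * (2 * η)) ^ n) / ENNReal.ofReal ((2 * (η / (K + 1))) ^ K) := by
      rw [ENNReal.le_div_iff_mul_le (Or.inl (by simpa using hpos)) (Or.inl ENNReal.ofReal_ne_top)]
      exact key
    refine h1.trans ?_
    rw [← ENNReal.ofReal_div_of_pos hpos]
    apply ENNReal.ofReal_le_ofReal
    rw [div_le_iff₀ hpos]
    obtain ⟨r, rfl⟩ : ∃ r, n = K + r := ⟨n - K, by omega⟩
    rw [show K + r - K = r by omega] at hsmall
    have h2 : ((4 : ℝ) * ((K + r : ℕ) : ℝ)) ^ K * (2 * (2 * η)) ^ (K + r) =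
        ((2 * ((K + r : ℕ) : ℝ) * (K + 1) : ℝ) ^ K * 2 ^ (K + r + 1) * η ^ r) *
          (2 ^ (K + r) / 2 * (2 * (η / (K + 1))) ^ K) := by
      have hne : ((K : ℝ) + 1) ≠ 0 := hK1.ne'
      rw [show (2 * (2 * η)) = 2 * 2 * η by ring]
      rw [mul_pow (2 * ((K + r : ℕ) : ℝ)) ((K : ℝ) + 1) K, mul_pow 2 (η / ((K : ℝ) + 1)) K,
        div_pow η ((K : ℝ) + 1) K]
      rw [mul_pow (2 * 2) η (K + r), mul_pow 2 2 (K + r)]
      rw [show (4 : ℝ) * ((K + r : ℕ) : ℝ) = 2 * (2 * ((K + r : ℕ) : ℝ)) by ring]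
      rw [mul_pow 2 (2 * ((K + r : ℕ) : ℝ)) K]
      field_simp
      ring
    rw [h2]
    calc _ ≤ 1 * (2 ^ (K + r) / 2 * (2 * (η / (K + 1))) ^ K) := by
          apply mul_le_mul_of_nonneg_right hsmall (by positivity)
      _ = _ := by ring
  · intro t ht
    rw [mem_ball_zero_iff]
    have h3 := (herr t ht.1).trans_lt ht.2
    rw [ENNReal.ofReal_lt_ofReal_iff (by positivity)] at h3
    exact lt_of_mul_lt_mul_left h3 hc.le
  · intro x hx σ hσ
    rw [mem_closedBall_zero_iff]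
    rw [mem_ball_zero_iff] at hx
    have := sig_bound (fun σ => ‖M σ‖) (by simp) (fun x y => by simpa using norm_add_le _ _)
      (s := η / (K + 1)) (b := 1) (fun j c hc => by
        simp only [map_smul, norm_smul, Real.norm_eq_abs]
        exact mul_le_mul hc (hM j) (norm_nonneg _) hs.le) K σ hσ
    simp only [mul_one] at this
    calc ‖x + M σ‖ ≤ ‖x‖ + ‖M σ‖ := norm_add_le _ _
      _ ≤ 2 * η := by linarith

lemma vol_eucl (m : ℕ) (hm : 0 < m) {r : ℝ} (hr : 0 ≤ r) :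
    volume {x : Fin (2 * m) → ℝ | ∑ i, x i ^ 2 ≤ r ^ 2} ≤
      ENNReal.ofReal ((9 * r ^ 2 / m) ^ m) := by
  have h1 : volume {x : Fin (2 * m) → ℝ | ∑ i, x i ^ 2 ≤ r ^ 2} =
      volume (Metric.closedBall (0 : EuclideanSpace ℝ (Fin (2 * m))) r) := by
    rw [← (PiLp.volume_preserving_toLp (Fin (2 * m))).measure_preimage
      measurableSet_closedBall.nullMeasurableSet]
    congr 1
    ext x
    simp only [mem_ofPred_eq, mem_preimage, mem_closedBall_zero_iff, EuclideanSpace.norm_eq]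
    rw [Real.sqrt_le_left hr]
    simp
  have hne : Nonempty (Fin (2 * m)) := ⟨⟨0, by omega⟩⟩
  have hnt : Nontrivial (EuclideanSpace ℝ (Fin (2 * m))) := by
    refine ⟨⟨WithLp.toLp 2 (fun _ => 1), 0, fun h => ?_⟩⟩
    have := congrFun (congrArg WithLp.ofLp h) ⟨0, by omega⟩
    simp at this
  rw [h1, InnerProductSpace.volume_closedBall_of_dim_even (k := m) (by simp)]
  rw [finrank_euclideanSpace_fin, ← ENNReal.ofReal_pow hr, ← ENNReal.ofReal_mul (by positivity)]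
  apply ENNReal.ofReal_le_ofReal
  have hm' : (0 : ℝ) < m := by exact_mod_cast hm
  have h2 := Real.pow_div_factorial_le_exp (m : ℝ) hm'.le m
  have h3 : (0 : ℝ) < (m.factorial : ℝ) := by exact_mod_cast Nat.factorial_pos m
  have h4 : (1 : ℝ) / m.factorial ≤ (Real.exp 1 / m) ^ m := by
    rw [div_pow, ← Real.exp_nat_mul, mul_one, div_le_div_iff₀ h3 (by positivity), one_mul]
    rw [div_le_iff₀ h3] at h2
    exact h2
  calc r ^ (2 * m) * (Real.pi ^ m / m.factorial)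
      = (r ^ 2 * Real.pi) ^ m * (1 / m.factorial) := by rw [mul_pow, ← pow_mul]; ring
    _ ≤ (r ^ 2 * Real.pi) ^ m * (Real.exp 1 / m) ^ m := by
        apply mul_le_mul_of_nonneg_left h4; positivity
    _ = (r ^ 2 * Real.pi * (Real.exp 1 / m)) ^ m := by rw [← mul_pow]
    _ ≤ (9 * r ^ 2 / m) ^ m := by
        apply pow_le_pow_left₀ (by positivity)
        have h5 : Real.pi * Real.exp 1 ≤ 9 := by
          have := Real.pi_lt_d2
          have := Real.exp_one_lt_d9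
          nlinarith [Real.pi_pos, Real.exp_pos 1]
        have h6 : 0 ≤ r ^ 2 / m := by positivity
        calc r ^ 2 * Real.pi * (Real.exp 1 / m) = (Real.pi * Real.exp 1) * (r ^ 2 / m) := by ring
          _ ≤ 9 * (r ^ 2 / m) := mul_le_mul_of_nonneg_right h5 h6
          _ = 9 * r ^ 2 / m := by ring

lemma cube_avg_eucl {m : ℕ} (hm0 : 0 < m) (K : ℕ)
    {η : ℝ} (hη1 : 1 ≤ η)
    (hsmall : 2 * (2 * (2 * m : ℕ) * (K + 1) : ℝ) ^ K * (9 * η ^ 2 / m) ^ m ≤ 1)
    (g : (Fin (2 * m) → ℝ) → (Fin (2 * m) → ℝ)) (hg : Comp K g) {c : ℝ} (hc : 0 < c)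
    (err : (Fin (2 * m) → ℝ) → ℝ≥0∞) (hm : Measurable err)
    (herr : ∀ t ∈ cube (2 * m), ENNReal.ofReal (c * √(∑ i, (t i - g t i) ^ 2)) ≤ err t) :
    ENNReal.ofReal (c * η) * ENNReal.ofReal (2 ^ (2 * m) / 2) ≤ ∫⁻ t in cube (2 * m), err t := by
  apply avg_of_vol err hm
  have hn : 0 < 2 * m := by omega
  have hη0 : 0 < η := by linarith
  have hGm : MeasurableSet {t | t ∈ cube (2 * m) ∧ err t < ENNReal.ofReal (c * η)} :=
    (measurableSet_cube _).inter (measurableSet_lt hm measurable_const)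
  have hK1 : (0 : ℝ) < K + 1 := by positivity
  have hs : (0 : ℝ) < 1 / (K + 1) := by positivity
  have hKs : K * ((1 : ℝ) / (K + 1)) ≤ 1 := by
    rw [mul_div_assoc', div_le_iff₀ hK1]; linarith
  have key := vol_good hn LinearMap.id (by simp) K hs hKs _ hGm (fun t ht => ht.1) g hg
    {x | √(∑ i, x i ^ 2) ≤ η} {x | ∑ i, x i ^ 2 ≤ (2 * η) ^ 2} ?_ ?_
  · have key2 := key.trans (mul_le_mul' le_rfl (vol_eucl m hm0 (by positivity)))
    rw [← ENNReal.ofReal_pow (by positivity), ← ENNReal.ofReal_pow (by positivity),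
      ← ENNReal.ofReal_mul (by positivity)] at key2
    have hpos : (0:ℝ) < (2 * (1 / (K + 1) : ℝ)) ^ K := by positivity
    have h1 : volume {t | t ∈ cube (2 * m) ∧ err t < ENNReal.ofReal (c * η)} ≤
        ENNReal.ofReal ((4 * ((2 * m : ℕ) : ℝ)) ^ K * (9 * (2 * η) ^ 2 / m) ^ m) /
          ENNReal.ofReal ((2 * (1 / (K + 1) : ℝ)) ^ K) := by
      rw [ENNReal.le_div_iff_mul_le (Or.inl (by simpa using hpos)) (Or.inl ENNReal.ofReal_ne_top)]
      exact key2
    refine h1.trans ?_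
    rw [← ENNReal.ofReal_div_of_pos hpos]
    apply ENNReal.ofReal_le_ofReal
    rw [div_le_iff₀ hpos]
    have hm' : (0 : ℝ) < m := by exact_mod_cast hm0
    have h2 : (4 * ((2 * m : ℕ) : ℝ)) ^ K * (9 * (2 * η) ^ 2 / m) ^ m =
        (2 * (2 * (2 * m : ℕ) * (K + 1) : ℝ) ^ K * (9 * η ^ 2 / m) ^ m) *
          (2 ^ (2 * m) / 2 * (2 * (1 / (K + 1) : ℝ)) ^ K) := by
      have hne : ((K : ℝ) + 1) ≠ 0 := hK1.ne'
      rw [show 9 * (2 * η) ^ 2 / m = 2 ^ 2 * (9 * η ^ 2 / m) by ring]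
      rw [mul_pow (2 ^ 2) (9 * η ^ 2 / (m : ℝ)) m, ← pow_mul 2 2 m]
      rw [show (4 : ℝ) * ((2 * m : ℕ) : ℝ) =
        (2 * ((2 * m : ℕ) : ℝ) * (K + 1)) * (2 * (1 / (K + 1))) by field_simp; ring]
      rw [mul_pow _ (2 * (1 / ((K : ℝ) + 1))) K]
      ring
    rw [h2]
    calc _ ≤ 1 * (2 ^ (2 * m) / 2 * (2 * (1 / (K + 1) : ℝ)) ^ K) := by
          apply mul_le_mul_of_nonneg_right hsmall (by positivity)
      _ = _ := by ring
  · intro t ht
    have h3 := (herr t ht.1).trans_lt ht.2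
    rw [ENNReal.ofReal_lt_ofReal_iff (by positivity)] at h3
    exact (lt_of_mul_lt_mul_left h3 hc.le).le
  · intro x hx σ hσ
    have e1 : ∀ x : Fin (2 * m) → ℝ, √(∑ i, x i ^ 2) = ‖(WithLp.toLp 2 x : EuclideanSpace ℝ (Fin (2 * m)))‖ := by
      intro x
      rw [EuclideanSpace.norm_eq]; simp
    have := sig_bound (fun σ => ‖(WithLp.toLp 2 σ : EuclideanSpace ℝ (Fin (2 * m)))‖) (by simp)
      (fun x y => by simpa using norm_add_le _ _)
      (s := 1 / (K + 1)) (b := 1) (fun j c hc => by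
        rw [WithLp.toLp_smul, norm_smul, Real.norm_eq_abs]
        have : ‖(WithLp.toLp 2 (Pi.single j 1) : EuclideanSpace ℝ (Fin (2 * m)))‖ = 1 := by
          simp
        rw [this]
        exact mul_le_mul_of_nonneg_right hc zero_le_one) K σ hσ
    simp only [mul_one] at this
    have hx' : √(∑ i, x i ^ 2) ≤ η := hx
    have h4 : √(∑ i, (x + σ) i ^ 2) ≤ 2 * η := by
      rw [e1]
      rw [e1] at hx'
      calc ‖(WithLp.toLp 2 (x + σ) : EuclideanSpace ℝ (Fin (2 * m)))‖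
          ≤ ‖(WithLp.toLp 2 x : EuclideanSpace ℝ (Fin (2 * m)))‖ +
            ‖(WithLp.toLp 2 σ : EuclideanSpace ℝ (Fin (2 * m)))‖ := by
              rw [WithLp.toLp_add]; exact norm_add_le _ _
        _ ≤ 2 * η := by linarith
    have h5 := (Real.sqrt_le_left (by positivity)).mp h4
    exact h5

end Pool.Agent.H74
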