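import Mathlib
import Pool.Agent.H74.Upper1

open MeasureTheory Set
open scoped ENNReal Pointwise

namespace Pool.Agent.H74

open Pool.Agent.MP_83e7a5

section
variable {𝕜 : Type*} [RCLike 𝕜] {X Y : Type*} [NormedAddCommGroup X] [NormedSpace 𝕜 X]
  [NormedAddCommGroup Y] [NormedSpace 𝕜 Y]

lemma exists_pair {S : X →L[𝕜] Y} {F : Set X} {N : ℕ} {d : ℝ}
    (h : ENNReal.ofReal d < eDetNon S F N) (L : Fin N → (X →L[𝕜] 𝕜)) :
    ∃ f ∈ F, ∃ g ∈ F, (∀ i, L i f = L i g) ∧ d < ‖S (f - g)‖ := by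
  classical
  by_contra hcon
  push Not at hcon
  apply absurd h
  rw [not_lt]
  let φ : (Fin N → 𝕜) → Y := fun y =>
    if hy : ∃ f ∈ F, (fun i => L i f) = y then S hy.choose else 0
  refine (iInf_le_of_le L (iInf_le_of_le φ ?_))
  apply iSup₂_le
  intro f hf
  have hy : ∃ f' ∈ F, (fun i => L i f') = (fun i => L i f) := ⟨f, hf, rfl⟩
  have hφ : φ (fun i => L i f) = S hy.choose := by
    simp only [φ]
    rw [dif_pos hy]
  rw [hφ, ← ofReal_norm]
  apply ENNReal.ofReal_le_ofReal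
  rw [← map_sub]
  apply hcon f hf _ hy.choose_spec.1
  intro i
  exact (congrFun hy.choose_spec.2 i).symm

lemma greedy {α : Type*} [Nonempty α] (R : ℕ → (ℕ → α) → α → Prop)
    (hcongr : ∀ k s s' a, (∀ j < k, s j = s' j) → R k s a → R k s' a) :
    ∀ (n : ℕ), (∀ k < n, ∀ s, ∃ a, R k s a) → ∃ s : ℕ → α, ∀ k < n, R k s (s k)
  | 0, _ => ⟨fun _ => Classical.arbitrary α, fun k hk => absurd hk (Nat.not_lt_zero k)⟩
  | (n + 1), hex => by
    obtain ⟨s, hs⟩ := greedy R hcongr n (fun k hk => hex k (Nat.lt_succ_of_lt hk))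
    obtain ⟨a, ha⟩ := hex n (Nat.lt_succ_self n) s
    refine ⟨Function.update s n a, fun k hk => ?_⟩
    rcases Nat.lt_succ_iff_lt_or_eq.mp hk with hlt | rfl
    · rw [Function.update_of_ne hlt.ne]
      apply hcongr k s _ _ _ (hs k hlt)
      intro j hj
      rw [Function.update_of_ne (hj.trans hlt).ne]
    · rw [Function.update_self]
      apply hcongr k s _ _ _ ha
      intro j hj
      rw [Function.update_of_ne hj.ne]

lemma select {S : X →L[𝕜] Y} {F : Set X} (hF : IsConvexSet 𝕜 F) {N : ℕ} {d : ℝ} (hd : 0 < d)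
    (h : ENNReal.ofReal d < eDetNon S F N) (sel : X → (Y →L[𝕜] 𝕜)) (n : ℕ) (hn : n ≤ N + 1) :
    ∃ g h : Fin n → X, (∀ k, g k ∈ F) ∧ (∀ k, h k ∈ F) ∧ (∀ k, ‖S (g k - h k)‖ = d) ∧
      ∀ j k, j < k → sel (g j - h j) (S (g k - h k)) = 0 := by
  obtain ⟨s, hs⟩ := greedy (α := X × X) (fun k s a => a.1 ∈ F ∧ a.2 ∈ F ∧ ‖S (a.1 - a.2)‖ = d ∧
      ∀ j < k, sel ((s j).1 - (s j).2) (S (a.1 - a.2)) = 0) (by
        rintro k s s' a hss ⟨h1, h2, h3, h4⟩
        refine ⟨h1, h2, h3, fun j hj => ?_⟩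
        rw [← hss j hj]; exact h4 j hj) n (by
        intro k hk s
        obtain ⟨f, hf, g, hg, hLfg, hlt⟩ := exists_pair h
          (fun i : Fin N => if (i : ℕ) < k then (sel ((s i).1 - (s i).2)).comp S else 0)
        set D := ‖S (f - g)‖ with hD
        have hDpos : 0 < D := hd.trans hlt
        have hl0 : 0 ≤ d / D := by positivity
        have hl1 : d / D ≤ 1 := by rw [div_le_one hDpos]; exact hlt.le
        have hdiff : (((d / D : ℝ) : 𝕜) • f + ((1 - d / D : ℝ) : 𝕜) • g) - g =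
            ((d / D : ℝ) : 𝕜) • (f - g) := by
          rw [RCLike.ofReal_sub, RCLike.ofReal_one, sub_smul, one_smul, smul_sub]
          abel
        refine ⟨(((d / D : ℝ) : 𝕜) • f + ((1 - d / D : ℝ) : 𝕜) • g, g),
          hF f hf g hg _ hl0 hl1, hg, ?_, ?_⟩
        · simp only [hdiff, map_smul, norm_smul, RCLike.norm_ofReal, abs_of_nonneg hl0]
          rw [← hD]; field_simp
        · intro j hj
          simp only [hdiff, map_smul]
          have hjN : j < N := by omega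
          have := hLfg ⟨j, hjN⟩
          simp only [hj, if_true, ContinuousLinearMap.comp_apply] at this
          rw [map_sub S, map_sub, this, sub_self, smul_zero])
  refine ⟨fun k => (s k).1, fun k => (s k).2, fun k => (hs k k.2).1, fun k => (hs k k.2).2.1,
    fun k => (hs k k.2).2.2.1, fun j k hjk => (hs k k.2).2.2.2 j hjk⟩

lemma IsConvexSet.sum_mem {F : Set X} (hF : IsConvexSet 𝕜 F) {ι : Type*} (s : Finset ι)
    (w : ι → ℝ) (hw : ∀ i ∈ s, 0 ≤ w i) (hsum : ∑ i ∈ s, w i = 1) (z : ι → X)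
    (hz : ∀ i ∈ s, z i ∈ F) : ∑ i ∈ s, ((w i : ℝ) : 𝕜) • z i ∈ F := by
  let _ : Module ℝ X := Module.compHom X (algebraMap ℝ 𝕜)
  have hsm : ∀ (r : ℝ) (x : X), r • x = ((r : ℝ) : 𝕜) • x := fun r x => rfl
  have hconv : Convex ℝ F := by
    intro x hx y hy a b ha hb hab
    have : b = 1 - a := by linarith
    subst this
    exact hF x hx y hy a ha (by linarith)
  have := hconv.sum_mem hw hsum hz
  exact this

variable {n : ℕ} (g h : Fin n → X)

/-- centre of the cube -/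
noncomputable def x0 (𝕜 : Type*) [RCLike 𝕜] {X : Type*} [AddCommGroup X] [Module 𝕜 X] {n : ℕ}
    (g h : Fin n → X) : X :=
  ∑ k, ((1 / (2 * n) : ℝ) : 𝕜) • (g k + h k)

/-- edges of the cube -/
noncomputable def vv (𝕜 : Type*) [RCLike 𝕜] {X : Type*} [AddCommGroup X] [Module 𝕜 X] {n : ℕ}
    (g h : Fin n → X) (k : Fin n) : X :=
  ((1 / (2 * n) : ℝ) : 𝕜) • (g k - h k)

/-- the parametrised cube inside `F` -/
noncomputable def PP (𝕜 : Type*) [RCLike 𝕜] {X : Type*} [AddCommGroup X] [Module 𝕜 X] {n : ℕ}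
    (g h : Fin n → X) (t : Fin n → ℝ) : X :=
  param 𝕜 (x0 𝕜 g h) (vv 𝕜 g h) t

lemma PP_mem {F : Set X} (hF : IsConvexSet 𝕜 F) (hn : 0 < n) (hg : ∀ k, g k ∈ F)
    (hh : ∀ k, h k ∈ F) {t : Fin n → ℝ} (ht : t ∈ cube n) : PP 𝕜 g h t ∈ F := by
  have hn' : (0 : ℝ) < n := by exact_mod_cast hn
  have h1 : ∀ k, (((1 + t k) / 2 : ℝ) : 𝕜) • g k + ((1 - (1 + t k) / 2 : ℝ) : 𝕜) • h k ∈ F := by
    intro k
    have := abs_le.mp (ht k)
    exact hF _ (hg k) _ (hh k) _ (by linarith) (by linarith)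
  have h2 := IsConvexSet.sum_mem hF Finset.univ (fun _ => 1 / (n : ℝ)) (fun i _ => by positivity)
    (by simp [hn'.ne']) _ (fun i _ => h1 i)
  convert h2 using 1
  unfold PP param x0 vv
  rw [← Finset.sum_add_distrib]
  apply Finset.sum_congr rfl
  intro k _
  simp only [smul_add, smul_sub, smul_smul, ← RCLike.ofReal_mul]
  have e1 : (1 / (n : ℝ)) * ((1 + t k) / 2) = 1 / (2 * n) + t k * (1 / (2 * n)) := by
    field_simp
  have e2 : (1 / (n : ℝ)) * (1 - (1 + t k) / 2) = 1 / (2 * n) - t k * (1 / (2 * n)) := by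
    field_simp; ring
  rw [e1, e2, RCLike.ofReal_add, RCLike.ofReal_sub, add_smul, sub_smul]
  abel

lemma diffGauge_PP {F : Set X} (hF : IsConvexSet 𝕜 F) (hn : 0 < n) (hg : ∀ k, g k ∈ F)
    (hh : ∀ k, h k ∈ F) {c c' : Fin n → ℝ} {r : ℝ} (hr : 0 < r) (hcc : ‖c' - c‖ ≤ r) :
    diffGauge 𝕜 F (PP 𝕜 g h c' - PP 𝕜 g h c) ≤ r / 2 := by
  unfold diffGauge
  apply csInf_le
  · exact ⟨0, fun x hx => hx.1.le⟩
  · refine ⟨by positivity, PP 𝕜 g h (fun k => (c' k - c k) / r) - PP 𝕜 g h (fun k => -((c' k - c k) / r)), ?_, ?_⟩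
    · have hcub : ∀ k, |(c' k - c k) / r| ≤ 1 := by
        intro k
        rw [abs_div, abs_of_pos hr, div_le_one hr]
        exact (norm_le_pi_norm (c' - c) k).trans hcc
      apply Set.sub_mem_sub
      · exact PP_mem g h hF hn hg hh hcub
      · exact PP_mem g h hF hn hg hh (fun k => by rw [abs_neg]; exact hcub k)
    · unfold PP param
      simp only [add_sub_add_left_eq_sub, ← Finset.sum_sub_distrib, ← sub_smul, ← RCLike.ofReal_sub]
      rw [Finset.smul_sum]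
      apply Finset.sum_congr rfl
      intro k _
      rw [smul_smul, ← RCLike.ofReal_mul]
      congr 2
      field_simp
      ring

/-- clamping to the cube -/
def clamp (t : Fin n → ℝ) : Fin n → ℝ := fun k => max (-1) (min 1 (t k))

lemma clamp_mem (t : Fin n → ℝ) : clamp t ∈ cube n := by
  intro k
  rw [abs_le]
  constructor
  · exact le_max_left _ _
  · exact max_le (by norm_num) (min_le_left _ _)

lemma clamp_of_mem {t : Fin n → ℝ} (ht : t ∈ cube n) : clamp t = t := by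
  funext k
  have := abs_le.mp (ht k)
  unfold clamp
  rw [min_eq_right this.2, max_eq_right this.1]

lemma clamp_sub (t t' : Fin n → ℝ) : ‖clamp t' - clamp t‖ ≤ ‖t' - t‖ := by
  rw [pi_norm_le_iff_of_nonneg (norm_nonneg _)]
  intro k
  refine le_trans ?_ (norm_le_pi_norm (t' - t) k)
  simp only [Pi.sub_apply, clamp, Real.norm_eq_abs]
  calc |max (-1) (min 1 (t' k)) - max (-1) (min 1 (t k))| ≤ |min 1 (t' k) - min 1 (t k)| := by
        have := abs_max_sub_max_le_max (-1) (min 1 (t' k)) (-1) (min 1 (t k))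
        simpa using this
    _ ≤ |t' k - t k| := by
        have := abs_min_sub_min_le_max 1 (t' k) 1 (t k)
        simpa using this

/-- the parametrisation of points of `F` by the cube -/
noncomputable def Phi {F : Set X} (hF : IsConvexSet 𝕜 F) (hn : 0 < n) (hg : ∀ k, g k ∈ F)
    (hh : ∀ k, h k ∈ F) (t : Fin n → ℝ) : F :=
  ⟨PP 𝕜 g h (clamp t), PP_mem g h hF hn hg hh (clamp_mem t)⟩

lemma measurable_Phi {F : Set X} (hF : IsConvexSet 𝕜 F) (hn : 0 < n) (hg : ∀ k, g k ∈ F)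
    (hh : ∀ k, h k ∈ F) :
    @Measurable (Fin n → ℝ) F _ (gaugeBorel 𝕜 F) (Phi g h hF hn hg hh) := by
  apply measurable_generateFrom
  intro U hU
  apply IsOpen.measurableSet
  rw [Metric.isOpen_iff]
  intro t ht
  obtain ⟨ε, hε, hball⟩ := hU _ ht
  refine ⟨ε, hε, fun t' ht' => ?_⟩
  apply hball
  have h1 : ‖clamp t' - clamp t‖ ≤ ε :=
    (clamp_sub t t').trans (by rw [← dist_eq_norm]; exact (Metric.mem_ball.mp ht').le)
  have := diffGauge_PP g h hF hn hg hh hε h1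
  exact lt_of_le_of_lt this (by linarith)

lemma ran_lower {F : Set X} (hF : IsConvexSet 𝕜 F) (hn : 0 < n) (hg : ∀ k, g k ∈ F)
    (hh : ∀ k, h k ∈ F) (S : X →L[𝕜] Y) (k : ℕ) (τ : ℝ)
    (hA : ∀ (A : AdaptiveAlg 𝕜 X Y k) (err : (Fin n → ℝ) → ℝ≥0∞), Measurable err →
      (∀ t ∈ cube n, err t = ‖S (PP 𝕜 g h t) - A.eval (PP 𝕜 g h t)‖ₑ) →
      ENNReal.ofReal τ * ENNReal.ofReal (2 ^ n / 2) ≤ ∫⁻ t in cube n, err t) :
    ENNReal.ofReal (τ / 2) ≤ eRan S F k := by
  unfold eRan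
  refine le_iInf fun Ω => le_iInf fun mΩ => le_iInf fun P => le_iInf fun hP => le_iInf fun A =>
    le_iInf fun hmeas => ?_
  have hsup : ∀ f ∈ F, ∫⁻ ω, ‖S f - (A ω).eval f‖ₑ ∂P ≤ ⨆ f ∈ F, ∫⁻ ω, ‖S f - (A ω).eval f‖ₑ ∂P :=
    fun f hf => le_iSup₂ (f := fun (f : X) (_ : f ∈ F) => ∫⁻ ω, ‖S f - (A ω).eval f‖ₑ ∂P) f hf
  generalize (⨆ f ∈ F, ∫⁻ ω, ‖S f - (A ω).eval f‖ₑ ∂P) = e at hsup ⊢
  obtain ⟨E, hE, hEm⟩ : ∃ E : (Fin n → ℝ) → Ω → ℝ≥0∞, (∀ t ω, E t ω =
      ‖S (PP 𝕜 g h (clamp t)) - (A ω).eval (PP 𝕜 g h (clamp t))‖ₑ) ∧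
      Measurable (Function.uncurry E) := by
    refine ⟨fun t ω => ‖S (PP 𝕜 g h (clamp t)) - (A ω).eval (PP 𝕜 g h (clamp t))‖ₑ,
      fun t ω => rfl, ?_⟩
    let _ : MeasurableSpace F := gaugeBorel 𝕜 F
    have h1 : Measurable (fun p : (Fin n → ℝ) × Ω => ((Phi g h hF hn hg hh p.1, p.2) : F × Ω)) :=
      ((measurable_Phi g h hF hn hg hh).comp measurable_fst).prodMk measurable_snd
    have hmeas' : Measurable (fun p : F × Ω =>
        ‖S (p.1 : X) - (A p.2).eval (p.1 : X)‖) := hmeas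
    have h2 := (hmeas'.comp h1).ennreal_ofReal
    simp only [ofReal_norm, Function.comp_def] at h2
    exact h2
  have hlow : ENNReal.ofReal τ * ENNReal.ofReal (2 ^ n / 2) ≤
      ∫⁻ ω, (∫⁻ t in cube n, E t ω) ∂P := by
    calc ENNReal.ofReal τ * ENNReal.ofReal (2 ^ n / 2)
        = ∫⁻ _ω, ENNReal.ofReal τ * ENNReal.ofReal (2 ^ n / 2) ∂P := by
          rw [lintegral_const, measure_univ, mul_one]
      _ ≤ _ := by
          refine lintegral_mono (fun ω => ?_)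
          refine hA (A ω) (fun t => E t ω) ?_ ?_
          · exact hEm.comp measurable_prodMk_right
          · intro t ht
            rw [hE, clamp_of_mem ht]
  rw [← lintegral_lintegral_swap hEm.aemeasurable] at hlow
  have hpt : ∀ t : Fin n → ℝ, (∫⁻ ω, E t ω ∂P) ≤ e := by
    intro t
    simp only [hE]
    exact hsup _ (PP_mem g h hF hn hg hh (clamp_mem t))
  have hup : ∫⁻ t in cube n, (∫⁻ ω, E t ω ∂P) ≤ e * ENNReal.ofReal (2 ^ n) := by
    refine (lintegral_mono hpt).trans (le_of_eq ?_)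
    rw [setLIntegral_const, volume_cube]
  have h3 := hlow.trans hup
  have hpos : (0:ℝ) < 2 ^ n := by positivity
  have h4 : ENNReal.ofReal τ * ENNReal.ofReal (2 ^ n / 2) =
      ENNReal.ofReal (τ / 2) * ENNReal.ofReal (2 ^ n) := by
    rw [← ENNReal.ofReal_mul' (by positivity), ← ENNReal.ofReal_mul' (by positivity)]
    congr 1; ring
  rw [h4] at h3
  exact (ENNReal.mul_le_mul_iff_left (by simpa using hpos) ENNReal.ofReal_ne_top).mp h3

end

end Pool.Agent.H74
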