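import Mathlib
import Pool.Agent.H74.Upper2

open MeasureTheory Set
open scoped ENNReal Pointwise

namespace Pool.Agent.H74

open Pool.Agent.MP_83e7a5

section
variable {𝕜 : Type*} [RCLike 𝕜] {X Y : Type*} [NormedAddCommGroup X] [NormedSpace 𝕜 X]

/-- Real part of a functional along the cube. -/
lemma re_PP [NormedAddCommGroup Y] [NormedSpace 𝕜 Y] (S : X →L[𝕜] Y) (l : Y →L[𝕜] 𝕜) {n : ℕ}
    (g h : Fin n → X) (t : Fin n → ℝ) :
    RCLike.re (l (S (PP 𝕜 g h t))) = RCLike.re (l (S (x0 𝕜 g h))) +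
      (1 / (2 * n)) * ∑ k, t k * RCLike.re (l (S (g k - h k))) := by
  unfold PP param vv
  simp only [map_add, map_sum, map_smul, smul_eq_mul, RCLike.re_ofReal_mul, Finset.mul_sum]
  congr 1
  apply Finset.sum_congr rfl
  intro k _
  ring

theorem key_banach_aux [NormedAddCommGroup Y] [NormedSpace 𝕜 Y] {F : Set X}
    (hF : IsConvexSet 𝕜 F) (S : X →L[𝕜] Y) {N k n : ℕ}
    (hn : 0 < n) (hnN : n ≤ N + 1) (hk : 2 * k < n) {η : ℝ} (hη0 : 0 < η) (hη1 : η ≤ 1)
    (hsmall : (2 * n * ((2 * k : ℕ) + 1) : ℝ) ^ (2 * k) * 2 ^ (n + 1) * η ^ (n - 2 * k) ≤ 1)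
    {d : ℝ} (hd : 0 < d) (hdN : ENNReal.ofReal d < eDetNon S F N) :
    ENNReal.ofReal (d * η / (4 * n)) ≤ eRan S F k := by
  classical
  have hn' : (0 : ℝ) < n := by exact_mod_cast hn
  let sel : X → (Y →L[𝕜] 𝕜) := fun u =>
    if hu : ‖S u‖ ≠ 0 then (exists_dual_vector 𝕜 (S u) hu).choose else 0
  have hsel : ∀ u, ‖S u‖ = d → ‖sel u‖ = 1 ∧ sel u (S u) = ((d : ℝ) : 𝕜) := by
    intro u hu
    have hne : ‖S u‖ ≠ 0 := by rw [hu]; exact hd.ne'
    have h1 := (exists_dual_vector 𝕜 (S u) hne).choose_spec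
    simp only [sel, dif_pos hne]
    refine ⟨h1.1, ?_⟩
    rw [h1.2, hu]
  obtain ⟨g, h, hg, hh, hSd, hzero⟩ := select hF hd hdN sel n hnN
  set l : Fin n → (Y →L[𝕜] 𝕜) := fun j => sel (g j - h j) with hl
  have hl1 : ∀ j, ‖l j‖ = 1 := fun j => (hsel _ (hSd j)).1
  have hl2 : ∀ j, l j (S (g j - h j)) = ((d : ℝ) : 𝕜) := fun j => (hsel _ (hSd j)).2
  let Mat : Matrix (Fin n) (Fin n) ℝ := fun j k => RCLike.re (l j (S (g k - h k))) / d
  have hMdet : Mat.det = 1 := by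
    rw [Matrix.det_of_isLowerTriangular Mat]
    · apply Finset.prod_eq_one
      intro j _
      simp only [Mat, hl2, RCLike.ofReal_re]
      exact div_self hd.ne'
    · intro j k hjk
      have hjk' : j < k := hjk
      simp only [Mat]
      rw [show l j (S (g k - h k)) = 0 from hzero j k hjk']
      simp
  have hMent : ∀ j k, |Mat j k| ≤ 1 := by
    intro j k
    simp only [Mat]
    rw [abs_div, abs_of_pos hd, div_le_one hd]
    calc |RCLike.re (l j (S (g k - h k)))| ≤ ‖l j (S (g k - h k))‖ := RCLike.abs_re_le_norm _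
      _ ≤ ‖l j‖ * ‖S (g k - h k)‖ := (l j).le_opNorm _
      _ = d := by rw [hl1, hSd, one_mul]
  have hfin := ran_lower g h hF hn hg hh S k (d / (2 * n) * η) ?_
  · convert hfin using 2
    field_simp
    ring
  intro A err hm herr
  set gz : (Fin n → ℝ) → (Fin n → ℝ) := fun t j =>
    (2 * n / d) * RCLike.re (l j (A.eval (PP 𝕜 g h t) - S (x0 𝕜 g h))) with hgz
  have hcomp : Comp (2 * k) gz := by
    exact Comp.map (fun y : Fin k → 𝕜 => fun j : Fin n =>
      (2 * n / d) * RCLike.re (l j (A.φ y - S (x0 𝕜 g h)))) _ _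
        (comp_info (x0 𝕜 g h) (vv 𝕜 g h) A.L k)
  apply cube_avg_sup hn (Matrix.toLin' Mat) (by rw [LinearMap.det_toLin', hMdet]; simp) ?_ (2 * k) hk
    hη0 hη1 hsmall gz hcomp (by positivity) err hm
  · intro t ht
    rw [herr t ht, ← ofReal_norm]
    apply ENNReal.ofReal_le_ofReal
    rw [div_mul_eq_mul_div, div_le_iff₀ (by positivity), mul_comm d, ← le_div_iff₀ hd]
    rw [pi_norm_le_iff_of_nonneg (by positivity)]
    intro j
    have h1 : (Matrix.toLin' Mat t - gz t) j =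
        (2 * n / d) * RCLike.re (l j (S (PP 𝕜 g h t) - A.eval (PP 𝕜 g h t))) := by
      have hMt : (Matrix.toLin' Mat t) j =
          (1 / d) * ∑ x, t x * RCLike.re (l j (S (g x - h x))) := by
        rw [Matrix.toLin'_apply]
        show ∑ x, Mat j x * t x = _
        rw [Finset.mul_sum]
        apply Finset.sum_congr rfl
        intro x _
        show RCLike.re (l j (S (g x - h x))) / d * t x = _
        ring
      rw [Pi.sub_apply, hMt]
      show _ - (2 * n / d) * RCLike.re (l j (A.eval (PP 𝕜 g h t) - S (x0 𝕜 g h))) = _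
      have e1 : RCLike.re (l j (A.eval (PP 𝕜 g h t) - S (x0 𝕜 g h))) =
          RCLike.re (l j (A.eval (PP 𝕜 g h t))) - RCLike.re (l j (S (x0 𝕜 g h))) := by
        simp only [map_sub]
      have e2 : RCLike.re (l j (S (PP 𝕜 g h t) - A.eval (PP 𝕜 g h t))) =
          RCLike.re (l j (S (PP 𝕜 g h t))) - RCLike.re (l j (A.eval (PP 𝕜 g h t))) := by
        simp only [map_sub]
      rw [e1, e2, re_PP]
      field_simp
      ring
    rw [h1, Real.norm_eq_abs, abs_mul, abs_of_pos (by positivity)]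
    rw [div_mul_eq_mul_div, div_le_div_iff_of_pos_right hd]
    rw [mul_comm]
    apply mul_le_mul_of_nonneg_right _ (by positivity)
    calc |RCLike.re (l j (S (PP 𝕜 g h t) - A.eval (PP 𝕜 g h t)))|
        ≤ ‖l j (S (PP 𝕜 g h t) - A.eval (PP 𝕜 g h t))‖ := RCLike.abs_re_le_norm _
      _ ≤ ‖l j‖ * ‖S (PP 𝕜 g h t) - A.eval (PP 𝕜 g h t)‖ := (l j).le_opNorm _
      _ = _ := by rw [hl1, one_mul]
  · intro j
    rw [Matrix.toLin'_apply, pi_norm_le_iff_of_nonneg zero_le_one]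
    intro i
    simp [Matrix.mulVec_single, hMent]

theorem key_banach [NormedAddCommGroup Y] [NormedSpace 𝕜 Y] {F : Set X}
    (hF : IsConvexSet 𝕜 F) (S : X →L[𝕜] Y) {N k n : ℕ}
    (hn : 0 < n) (hnN : n ≤ N + 1) (hk : 2 * k < n) {η : ℝ} (hη0 : 0 < η) (hη1 : η ≤ 1)
    (hsmall : (2 * n * ((2 * k : ℕ) + 1) : ℝ) ^ (2 * k) * 2 ^ (n + 1) * η ^ (n - 2 * k) ≤ 1) :
    eDetNon S F N ≤ ENNReal.ofReal (4 * n / η) * eRan S F k := by
  by_contra hcon
  rw [not_le, ENNReal.lt_iff_exists_real_btwn] at hcon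
  obtain ⟨d, hd0, hd1, hd2⟩ := hcon
  have hn' : (0 : ℝ) < n := by exact_mod_cast hn
  have hd : 0 < d := by
    rcases hd0.lt_or_eq with h | h
    · exact h
    · rw [← h] at hd1; simp at hd1
  have h1 := key_banach_aux hF S hn hnN hk hη0 hη1 hsmall hd hd2
  have h2 : ENNReal.ofReal d ≤ ENNReal.ofReal (4 * n / η) * eRan S F k := by
    calc ENNReal.ofReal d = ENNReal.ofReal (4 * n / η) * ENNReal.ofReal (d * η / (4 * n)) := by
          rw [← ENNReal.ofReal_mul (by positivity)]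
          congr 1
          field_simp
      _ ≤ _ := by gcongr
  exact absurd hd1 (not_lt.mpr h2)

theorem key_hilbert_aux [NormedAddCommGroup Y] [InnerProductSpace 𝕜 Y] {F : Set X}
    (hF : IsConvexSet 𝕜 F) (S : X →L[𝕜] Y) {N k m : ℕ}
    (hm : 0 < m) (hmN : 2 * m ≤ N + 1) {η : ℝ} (hη1 : 1 ≤ η)
    (hsmall : 2 * (2 * (2 * m : ℕ) * ((2 * k : ℕ) + 1) : ℝ) ^ (2 * k) * (9 * η ^ 2 / m) ^ m ≤ 1)
    {d : ℝ} (hd : 0 < d) (hdN : ENNReal.ofReal d < eDetNon S F N) :
    ENNReal.ofReal (d * η / (4 * (2 * m : ℕ))) ≤ eRan S F k := by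
  classical
  have hn : 0 < 2 * m := by omega
  have hn' : (0 : ℝ) < (2 * m : ℕ) := by exact_mod_cast hn
  set n := 2 * m with hnm
  let sel : X → (Y →L[𝕜] 𝕜) := fun u => ((1 / d : ℝ) : 𝕜) • innerSL 𝕜 (S u)
  obtain ⟨g, h, hg, hh, hSd, hzero⟩ := select hF hd hdN sel n hmN
  have hd' : ((d : ℝ) : 𝕜) ≠ 0 := by exact_mod_cast hd.ne'
  have hd1 : ((1 / d : ℝ) : 𝕜) ≠ 0 := by
    have : (1 / d : ℝ) ≠ 0 := by positivity
    exact_mod_cast this
  have horth : ∀ j k, j < k → inner 𝕜 (S (g j - h j)) (S (g k - h k)) = 0 := by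
    intro j k hjk
    have := hzero j k hjk
    simp only [sel, smul_apply, innerSL_apply_apply, smul_eq_mul] at this
    exact (mul_eq_zero.mp this).resolve_left hd1
  set v : Fin n → Y := fun j => ((1 / d : ℝ) : 𝕜) • S (g j - h j) with hv
  have hvn : ∀ j, ‖v j‖ = 1 := by
    intro j
    simp only [hv, norm_smul, hSd]
    rw [RCLike.norm_ofReal, abs_of_pos (by positivity)]
    field_simp
  have hvo : Orthonormal 𝕜 v := by
    refine ⟨hvn, ?_⟩
    intro j k hjk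
    simp only [hv, inner_smul_left, inner_smul_right]
    rcases lt_or_gt_of_ne hjk with h1 | h1
    · rw [horth j k h1]; simp
    · rw [← inner_conj_symm, horth k j h1]; simp
  have hvS : ∀ j k, inner 𝕜 (v j) (S (g k - h k)) = if j = k then ((d : ℝ) : 𝕜) else 0 := by
    intro j k
    have hSv : S (g k - h k) = ((d : ℝ) : 𝕜) • v k := by
      simp only [hv, smul_smul, ← RCLike.ofReal_mul]
      rw [mul_one_div_cancel hd.ne']; simp
    rw [hSv, inner_smul_right, orthonormal_iff_ite.mp hvo j k]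
    split_ifs <;> simp
  have hfin := ran_lower g h hF hn hg hh S k (d / (2 * n) * η) ?_
  · convert hfin using 2
    field_simp
    ring
  intro A err hme herr
  set gz : (Fin n → ℝ) → (Fin n → ℝ) := fun t j =>
    (2 * n / d) * RCLike.re (innerSL 𝕜 (v j) (A.eval (PP 𝕜 g h t) - S (x0 𝕜 g h))) with hgz
  have hcomp : Comp (2 * k) gz := by
    exact Comp.map (fun y : Fin k → 𝕜 => fun j : Fin n =>
      (2 * n / d) * RCLike.re (innerSL 𝕜 (v j) (A.φ y - S (x0 𝕜 g h)))) _ _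
        (comp_info (x0 𝕜 g h) (vv 𝕜 g h) A.L k)
  apply cube_avg_eucl hm (2 * k) hη1 hsmall gz hcomp (by positivity) err hme
  intro t ht
  rw [herr t ht, ← ofReal_norm]
  apply ENNReal.ofReal_le_ofReal
  have h1 : ∀ j, t j - gz t j =
      (2 * n / d) * RCLike.re (inner 𝕜 (v j) (S (PP 𝕜 g h t) - A.eval (PP 𝕜 g h t))) := by
    intro j
    have e0 := re_PP S (innerSL 𝕜 (v j)) g h t
    simp only [innerSL_apply_apply] at e0
    have e3 : ∑ k, t k * RCLike.re (inner 𝕜 (v j) (S (g k - h k))) = t j * d := by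
      rw [Finset.sum_eq_single j]
      · rw [hvS]; simp
      · intro k _ hkj
        rw [hvS, if_neg (Ne.symm hkj)]; simp
      · intro hj; exact absurd (Finset.mem_univ j) hj
    rw [e3] at e0
    show t j - (2 * n / d) * RCLike.re (innerSL 𝕜 (v j) (A.eval (PP 𝕜 g h t) - S (x0 𝕜 g h))) = _
    simp only [innerSL_apply_apply, inner_sub_right, map_sub]
    rw [e0]
    field_simp
    ring
  have h2 : ∑ i, (t i - gz t i) ^ 2 ≤ (2 * n / d) ^ 2 * ‖S (PP 𝕜 g h t) - A.eval (PP 𝕜 g h t)‖ ^ 2 := by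
    have hB := hvo.sum_inner_products_le (s := Finset.univ) (S (PP 𝕜 g h t) - A.eval (PP 𝕜 g h t))
    calc ∑ i, (t i - gz t i) ^ 2
        = (2 * n / d) ^ 2 * ∑ i, (RCLike.re (inner 𝕜 (v i) (S (PP 𝕜 g h t) - A.eval (PP 𝕜 g h t)))) ^ 2 := by
          rw [Finset.mul_sum]
          apply Finset.sum_congr rfl
          intro i _
          rw [h1, mul_pow]
      _ ≤ (2 * n / d) ^ 2 * ∑ i, ‖(inner 𝕜 (v i) (S (PP 𝕜 g h t) - A.eval (PP 𝕜 g h t)) : 𝕜)‖ ^ 2 := by
          apply mul_le_mul_of_nonneg_left _ (by positivity)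
          apply Finset.sum_le_sum
          intro i _
          rw [← sq_abs]
          exact pow_le_pow_left₀ (abs_nonneg _) (RCLike.abs_re_le_norm _) 2
      _ ≤ _ := mul_le_mul_of_nonneg_left hB (by positivity)
  have h3 : √(∑ i, (t i - gz t i) ^ 2) ≤ (2 * n / d) * ‖S (PP 𝕜 g h t) - A.eval (PP 𝕜 g h t)‖ := by
    rw [Real.sqrt_le_left (by positivity)]
    calc _ ≤ _ := h2
      _ = _ := by ring
  calc d / (2 * n) * √(∑ i, (t i - gz t i) ^ 2)
      ≤ d / (2 * n) * ((2 * n / d) * ‖S (PP 𝕜 g h t) - A.eval (PP 𝕜 g h t)‖) :=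
        mul_le_mul_of_nonneg_left h3 (by positivity)
    _ = _ := by field_simp

theorem key_hilbert [NormedAddCommGroup Y] [InnerProductSpace 𝕜 Y] {F : Set X}
    (hF : IsConvexSet 𝕜 F) (S : X →L[𝕜] Y) {N k m : ℕ}
    (hm : 0 < m) (hmN : 2 * m ≤ N + 1) {η : ℝ} (hη1 : 1 ≤ η)
    (hsmall : 2 * (2 * (2 * m : ℕ) * ((2 * k : ℕ) + 1) : ℝ) ^ (2 * k) * (9 * η ^ 2 / m) ^ m ≤ 1) :
    eDetNon S F N ≤ ENNReal.ofReal (4 * (2 * m : ℕ) / η) * eRan S F k := by
  by_contra hcon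
  rw [not_le, ENNReal.lt_iff_exists_real_btwn] at hcon
  obtain ⟨d, hd0, hd1, hd2⟩ := hcon
  have hn' : (0 : ℝ) < (2 * m : ℕ) := by
    have : 0 < 2 * m := by omega
    exact_mod_cast this
  have hη0 : 0 < η := by linarith
  have hd : 0 < d := by
    rcases hd0.lt_or_eq with h | h
    · exact h
    · rw [← h] at hd1; simp at hd1
  have h1 := key_hilbert_aux hF S hm hmN hη1 hsmall hd hd2
  have h2 : ENNReal.ofReal d ≤ ENNReal.ofReal (4 * (2 * m : ℕ) / η) * eRan S F k := by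
    calc ENNReal.ofReal d =
          ENNReal.ofReal (4 * (2 * m : ℕ) / η) * ENNReal.ofReal (d * η / (4 * (2 * m : ℕ))) := by
          rw [← ENNReal.ofReal_mul (by positivity)]
          congr 1
          field_simp
      _ ≤ _ := by gcongr
  exact absurd hd1 (not_lt.mpr h2)

end

end Pool.Agent.H74
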