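import Mathlib
import Pool.Agent.H74.Upper3

open MeasureTheory Set
open scoped ENNReal Pointwise

namespace Pool.Agent.H74

open Pool.Agent.MP_83e7a5

section
variable {𝕜 : Type*} [RCLike 𝕜] {X Y : Type*} [NormedAddCommGroup X] [NormedSpace 𝕜 X]
  [NormedAddCommGroup Y] [NormedSpace 𝕜 Y]

lemma exists_pair_exact {S : X →L[𝕜] Y} {F : Set X} (hF : IsConvexSet 𝕜 F) {N : ℕ} {d : ℝ}
    (hd : 0 < d) (h : ENNReal.ofReal d < eDetNon S F N) (L : Fin N → (X →L[𝕜] 𝕜)) :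
    ∃ f ∈ F, ∃ g ∈ F, ‖S (f - g)‖ = d ∧ ∀ i, L i (f - g) = 0 := by
  obtain ⟨f, hf, g, hg, hLfg, hlt⟩ := exists_pair h L
  set D := ‖S (f - g)‖ with hD
  have hDpos : 0 < D := hd.trans hlt
  have hl0 : 0 ≤ d / D := by positivity
  have hl1 : d / D ≤ 1 := by rw [div_le_one hDpos]; exact hlt.le
  have hdiff : (((d / D : ℝ) : 𝕜) • f + ((1 - d / D : ℝ) : 𝕜) • g) - g =
      ((d / D : ℝ) : 𝕜) • (f - g) := by
    rw [RCLike.ofReal_sub, RCLike.ofReal_one, sub_smul, one_smul, smul_sub]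
    abel
  refine ⟨((d / D : ℝ) : 𝕜) • f + ((1 - d / D : ℝ) : 𝕜) • g, hF f hf g hg _ hl0 hl1, g, hg, ?_, ?_⟩
  · simp only [hdiff, map_smul, norm_smul, RCLike.norm_ofReal, abs_of_nonneg hl0]
    rw [← hD]; field_simp
  · intro i
    simp only [hdiff, map_smul]
    rw [map_sub, hLfg i, sub_self, smul_zero]

lemma comp_info_real (hI : (RCLike.I : 𝕜) = 0)
    {n : ℕ} (x₀ : X) (v : Fin n → X) (L : (k : ℕ) → (Fin k → 𝕜) → (X →L[𝕜] 𝕜)) :
    ∀ (k : ℕ), Comp k (fun t : Fin n → ℝ => info L k (param 𝕜 x₀ v t))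
  | 0 => ⟨Fin.elim0, fun t => rfl⟩
  | (k + 1) => by
    have ih := comp_info_real hI x₀ v L k
    have := Comp.bind (E := Fin n → ℝ) 1
      (fun (y : Fin k → 𝕜) (t : Fin n → ℝ) =>
        (Fin.snoc (α := fun _ => 𝕜) y (L k y (param 𝕜 x₀ v t)) : Fin (k + 1) → 𝕜)) ?_ k _ ih
    · exact this
    · intro y
      let a1 : (Fin n → ℝ) →ₗ[ℝ] ℝ :=
        { toFun := fun t => ∑ i, t i * RCLike.re (L k y (v i))
          map_add' := by
            intro s t; simp [add_mul, Finset.sum_add_distrib]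
          map_smul' := by
            intro c t; simp [Finset.mul_sum, mul_assoc] }
      refine ⟨a1, fun r _ => (Fin.snoc (α := fun _ => 𝕜) y
        (L k y x₀ + ((r : ℝ) : 𝕜)) : Fin (k + 1) → 𝕜), ?_, ?_⟩
      · intro r
        exact ⟨_, fun t => rfl⟩
      · intro t
        show (Fin.snoc (α := fun _ => 𝕜) y (L k y (param 𝕜 x₀ v t)) : Fin (k + 1) → 𝕜) = _
        have hkey : L k y (param 𝕜 x₀ v t) = L k y x₀ + ((a1 t : ℝ) : 𝕜) := by
          simp only [param, map_add, map_sum, map_smul, smul_eq_mul, a1, LinearMap.coe_mk,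
            AddHom.coe_mk, RCLike.ofReal_mul]
          congr 1
          apply Finset.sum_congr rfl
          intro i _
          conv_lhs => rw [← RCLike.re_add_im (L k y (v i)), hI, mul_zero, add_zero]
        rw [hkey]

/-- lower bound for randomized errors from a bi-Lipschitz parametrised cube -/
lemma key_lip {F : Set X} (hF : IsConvexSet 𝕜 F) (S : X →L[𝕜] Y) {k n K : ℕ} (hn : 0 < n)
    {g h : Fin n → X} (hg : ∀ k, g k ∈ F) (hh : ∀ k, h k ∈ F) (hK : K < n)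
    (hcomp : ∀ (L : (k : ℕ) → (Fin k → 𝕜) → (X →L[𝕜] 𝕜)),
      Comp K (fun t : Fin n → ℝ => info L k (PP 𝕜 g h t)))
    {lip : ℝ} (hlip : 0 < lip)
    (hL : ∀ (t t' : Fin n → ℝ) (i : Fin n), |t i - t' i| ≤ lip * ‖S (PP 𝕜 g h t) - S (PP 𝕜 g h t')‖)
    {η : ℝ} (hη0 : 0 < η) (hη1 : η ≤ 1)
    (hsmall : (2 * n * (K + 1) : ℝ) ^ K * 2 ^ (n + 1) * η ^ (n - K) ≤ 1) :
    ENNReal.ofReal (1 / lip * η / 2) ≤ eRan S F k := by
  apply ran_lower g h hF hn hg hh S k
  intro A err hm herr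
  -- Lipschitz inverse
  let G : Y → (Fin n → ℝ) := fun z i => ⨅ t : Fin n → ℝ, (t i + lip * ‖S (PP 𝕜 g h t) - z‖)
  have hbdd : ∀ z i t, ∀ t' : Fin n → ℝ, t i - lip * ‖S (PP 𝕜 g h t) - z‖ ≤
      t' i + lip * ‖S (PP 𝕜 g h t') - z‖ := by
    intro z i t t'
    have h1 := hL t t' i
    have h2 : ‖S (PP 𝕜 g h t) - S (PP 𝕜 g h t')‖ ≤ ‖S (PP 𝕜 g h t) - z‖ + ‖S (PP 𝕜 g h t') - z‖ := by
      have := norm_sub_le (S (PP 𝕜 g h t) - z) (S (PP 𝕜 g h t') - z)
      simpa using this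
    have h3 := le_abs_self (t i - t' i)
    nlinarith
  have hG : ∀ z i t, |t i - G z i| ≤ lip * ‖S (PP 𝕜 g h t) - z‖ := by
    intro z i t
    have h1 : G z i ≤ t i + lip * ‖S (PP 𝕜 g h t) - z‖ :=
      ciInf_le ⟨t i - lip * ‖S (PP 𝕜 g h t) - z‖, by
        rintro _ ⟨t', rfl⟩; exact hbdd z i t t'⟩ t
    have h2 : t i - lip * ‖S (PP 𝕜 g h t) - z‖ ≤ G z i := le_ciInf (hbdd z i t)
    rw [abs_le]
    constructor <;> linarith
  have hsingle : ∀ j : Fin n, ‖(LinearMap.id : (Fin n → ℝ) →ₗ[ℝ] (Fin n → ℝ)) (Pi.single j 1)‖ ≤ 1 := by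
    intro j
    rw [LinearMap.id_apply, pi_norm_le_iff_of_nonneg zero_le_one]
    intro i
    by_cases hij : i = j
    · subst hij; simp
    · simp [hij]
  apply cube_avg_sup hn LinearMap.id (by simp) hsingle K hK hη0 hη1
    hsmall (fun t => G (A.eval (PP 𝕜 g h t))) (Comp.map (fun y => G (A.φ y)) _ _ (hcomp A.L))
    (by positivity) err hm
  intro t ht
  rw [herr t ht, ← ofReal_norm]
  apply ENNReal.ofReal_le_ofReal
  rw [one_div, inv_mul_le_iff₀ hlip, pi_norm_le_iff_of_nonneg (by positivity)]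
  intro i
  exact hG _ i t

lemma PP_sub (S : X →L[𝕜] Y) {n : ℕ} (g h : Fin n → X) (t t' : Fin n → ℝ) :
    S (PP 𝕜 g h t) - S (PP 𝕜 g h t') =
      ((1 / (2 * n) : ℝ) : 𝕜) • ∑ i, ((t i - t' i : ℝ) : 𝕜) • S (g i - h i) := by
  unfold PP param vv
  rw [← map_sub, add_sub_add_left_eq_sub, ← Finset.sum_sub_distrib, Finset.smul_sum, map_sum]
  apply Finset.sum_congr rfl
  intro k _
  rw [← sub_smul, map_smul, map_smul, smul_smul, smul_smul, RCLike.ofReal_sub]
  congr 1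
  ring

/-- finiteness for one measurement -/
lemma fin_one {F : Set X} (hF : IsConvexSet 𝕜 F) (S : X →L[𝕜] Y) :
    ∃ C : ℝ, eDetNon S F 1 ≤ ENNReal.ofReal C * eRan S F 1 := by
  -- it suffices to bound each d < eDetNon
  suffices hsuff : ∃ c : ℝ, 0 < c ∧ ∀ d : ℝ, 0 < d → ENNReal.ofReal d < eDetNon S F 1 →
      ENNReal.ofReal (c * d) ≤ eRan S F 1 by
    obtain ⟨c, hc, hcd⟩ := hsuff
    refine ⟨1 / c, ?_⟩
    by_contra hcon
    rw [not_le, ENNReal.lt_iff_exists_real_btwn] at hcon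
    obtain ⟨d, hd0, hd1, hd2⟩ := hcon
    have hd : 0 < d := by
      rcases hd0.lt_or_eq with h | h
      · exact h
      · rw [← h] at hd1; simp at hd1
    have h1 := hcd d hd hd2
    have h2 : ENNReal.ofReal d ≤ ENNReal.ofReal (1 / c) * eRan S F 1 := by
      calc ENNReal.ofReal d = ENNReal.ofReal (1 / c) * ENNReal.ofReal (c * d) := by
            rw [← ENNReal.ofReal_mul (by positivity)]
            congr 1
            field_simp
        _ ≤ _ := by gcongr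
    exact absurd hd1 (not_lt.mpr h2)
  rcases RCLike.I_mul_I (K := 𝕜) with hI | hI
  · -- real scalars
    refine ⟨1 / (2 * 2 * 3) * (1 / 64) / 2, by norm_num, fun d hd hdN => ?_⟩
    obtain ⟨f1, hf1, g1, hg1, hn1, -⟩ := exists_pair_exact hF hd hdN (fun _ => 0)
    obtain ⟨l1, hl1, hl1'⟩ := exists_dual_vector 𝕜 (S (f1 - g1)) (by rw [hn1]; exact hd.ne')
    obtain ⟨f2, hf2, g2, hg2, hn2, hz2⟩ := exists_pair_exact hF hd hdN (fun _ => l1.comp S)
    have hz2' : l1 (S (f2 - g2)) = 0 := hz2 0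
    rw [hn1] at hl1'
    have hest : ∀ a b : ℝ, |a| ≤ 3 / d * ‖(a : 𝕜) • S (f1 - g1) + (b : 𝕜) • S (f2 - g2)‖ ∧
        |b| ≤ 3 / d * ‖(a : 𝕜) • S (f1 - g1) + (b : 𝕜) • S (f2 - g2)‖ := by
      intro a b
      set y := (a : 𝕜) • S (f1 - g1) + (b : 𝕜) • S (f2 - g2) with hy
      have h1 : l1 y = ((a * d : ℝ) : 𝕜) := by
        rw [hy, map_add, map_smul, map_smul, hl1', hz2']
        simp
      have h2 : |a| * d ≤ ‖y‖ := by
        calc |a| * d = ‖l1 y‖ := by rw [h1, RCLike.norm_ofReal, abs_mul, abs_of_pos hd]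
          _ ≤ ‖l1‖ * ‖y‖ := l1.le_opNorm _
          _ = ‖y‖ := by rw [hl1, one_mul]
      have h3 : |b| * d ≤ 2 * ‖y‖ := by
        calc |b| * d = ‖(b : 𝕜) • S (f2 - g2)‖ := by rw [norm_smul, hn2, RCLike.norm_ofReal]
          _ = ‖y - (a : 𝕜) • S (f1 - g1)‖ := by rw [hy]; congr 1; abel
          _ ≤ ‖y‖ + ‖(a : 𝕜) • S (f1 - g1)‖ := norm_sub_le _ _
          _ = ‖y‖ + |a| * d := by rw [norm_smul, hn1, RCLike.norm_ofReal]
          _ ≤ 2 * ‖y‖ := by linarith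
      have hy0 := norm_nonneg y
      constructor
      · rw [div_mul_eq_mul_div, le_div_iff₀ hd]; linarith
      · rw [div_mul_eq_mul_div, le_div_iff₀ hd]; linarith
    have := key_lip (k := 1) (n := 2) (K := 1) hF S (by norm_num) (g := ![f1, f2]) (h := ![g1, g2])
      (by intro k; fin_cases k <;> simp [hf1, hf2]) (by intro k; fin_cases k <;> simp [hg1, hg2])
      (by norm_num) (fun L => comp_info_real hI _ _ L 1) (lip := 2 * 2 * (3 / d)) (by positivity)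
      (by
        intro t t' i
        rw [PP_sub, norm_smul, Fin.sum_univ_two]
        show _ ≤ 2 * 2 * (3 / d) * (_ * ‖((t 0 - t' 0 : ℝ) : 𝕜) • S (f1 - g1) +
          ((t 1 - t' 1 : ℝ) : 𝕜) • S (f2 - g2)‖)
        have h4 := hest (t 0 - t' 0) (t 1 - t' 1)
        rw [RCLike.norm_ofReal, abs_of_pos (show (0 : ℝ) < 1 / (2 * ((2 : ℕ) : ℝ)) by norm_num)]
        have e : ∀ z : ℝ, 2 * 2 * (3 / d) * (1 / (2 * ((2 : ℕ) : ℝ)) * z) = 3 / d * z := by
          intro z; push_cast; ring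
        rw [e]
        fin_cases i
        · exact h4.1
        · exact h4.2) (η := 1 / 64) (by norm_num) (by norm_num) (by norm_num)
    refine le_trans (ENNReal.ofReal_le_ofReal ?_) this
    apply le_of_eq
    field_simp
  · -- complex scalars
    refine ⟨1 / (2 * 3 * 7) * (1 / 5184) / 2, by norm_num, fun d hd hdN => ?_⟩
    obtain ⟨f1, hf1, g1, hg1, hn1, -⟩ := exists_pair_exact hF hd hdN (fun _ => 0)
    obtain ⟨l1, hl1, hl1'⟩ := exists_dual_vector 𝕜 (S (f1 - g1)) (by rw [hn1]; exact hd.ne')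
    obtain ⟨f2, hf2, g2, hg2, hn2, hz2⟩ := exists_pair_exact hF hd hdN (fun _ => l1.comp S)
    obtain ⟨l2, hl2, hl2'⟩ := exists_dual_vector 𝕜 (S (f2 - g2)) (by rw [hn2]; exact hd.ne')
    have hz2' : l1 (S (f2 - g2)) = 0 := hz2 0
    rw [hn1] at hl1'
    rw [hn2] at hl2'
    set w : 𝕜 := l2 (S (f1 - g1)) with hw
    have hI1 : RCLike.im (RCLike.I : 𝕜) = 1 := by
      rcases RCLike.I_eq_zero_or_im_I_eq_one (K := 𝕜) with h0 | h0
      · exfalso
        rw [h0] at hI; simp at hI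
      · exact h0
    have hI0 : RCLike.re (RCLike.I : 𝕜) = 0 := RCLike.I_re
    -- choice of tau
    obtain ⟨σ, hσ1, hσ2⟩ : ∃ σ : ℝ, |σ| = 1 ∧ σ * RCLike.im w ≤ 0 := by
      rcases le_total (RCLike.im w) 0 with h | h
      · exact ⟨1, by norm_num, by linarith⟩
      · exact ⟨-1, by norm_num, by linarith⟩
    obtain ⟨f3, hf3, g3, hg3, hn3, hz3⟩ := exists_pair_exact hF hd hdN
      (fun _ => (l1 + ((σ : 𝕜) * RCLike.I) • l2).comp S)
    have hz3' : l1 (S (f3 - g3)) + ((σ : 𝕜) * RCLike.I) * l2 (S (f3 - g3)) = 0 := by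
      have := hz3 0
      simpa using this
    have hest : ∀ a b c : ℝ,
        |a| ≤ 7 / d * ‖(a : 𝕜) • S (f1 - g1) + (b : 𝕜) • S (f2 - g2) + (c : 𝕜) • S (f3 - g3)‖ ∧
        |b| ≤ 7 / d * ‖(a : 𝕜) • S (f1 - g1) + (b : 𝕜) • S (f2 - g2) + (c : 𝕜) • S (f3 - g3)‖ ∧
        |c| ≤ 7 / d * ‖(a : 𝕜) • S (f1 - g1) + (b : 𝕜) • S (f2 - g2) + (c : 𝕜) • S (f3 - g3)‖ := by
      intro a b c
      set y := (a : 𝕜) • S (f1 - g1) + (b : 𝕜) • S (f2 - g2) + (c : 𝕜) • S (f3 - g3) with hy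
      have hσn : ‖((σ : 𝕜) * RCLike.I : 𝕜)‖ ≤ 1 := by
        rw [norm_mul, RCLike.norm_ofReal, hσ1, one_mul]
        have hIne : (RCLike.I : 𝕜) ≠ 0 := by
          intro h0; rw [h0] at hI; simp at hI
        exact (RCLike.norm_I_of_ne_zero hIne).le
      -- the combined functional
      set z : 𝕜 := l1 y + ((σ : 𝕜) * RCLike.I) * l2 y with hz
      have hzn : ‖z‖ ≤ 2 * ‖y‖ := by
        calc ‖z‖ ≤ ‖l1 y‖ + ‖((σ : 𝕜) * RCLike.I) * l2 y‖ := norm_add_le _ _
          _ ≤ ‖l1‖ * ‖y‖ + 1 * (‖l2‖ * ‖y‖) := by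
              rw [norm_mul]
              exact add_le_add (l1.le_opNorm _) (mul_le_mul hσn (l2.le_opNorm _) (norm_nonneg _) zero_le_one)
          _ = 2 * ‖y‖ := by rw [hl1, hl2]; ring
      have hzval : z = (a : 𝕜) * ((d : 𝕜) + (σ : 𝕜) * RCLike.I * w) +
          (b : 𝕜) * ((σ : 𝕜) * RCLike.I * (d : 𝕜)) := by
        rw [hz, hy]
        simp only [map_add, map_smul, smul_eq_mul, hl1', hz2', hl2', ← hw]
        linear_combination (c : 𝕜) * hz3'
      have hwn : ‖w‖ ≤ d := by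
        calc ‖w‖ ≤ ‖l2‖ * ‖S (f1 - g1)‖ := l2.le_opNorm _
          _ = d := by rw [hl2, hn1, one_mul]
      have hre : RCLike.re z = a * (d - σ * RCLike.im w) := by
        rw [hzval]
        simp only [map_add, RCLike.re_ofReal_mul, mul_assoc, RCLike.I_mul_re, RCLike.ofReal_re,
          RCLike.ofReal_im]
        ring
      have him : RCLike.im z = a * (σ * RCLike.re w) + b * (σ * d) := by
        rw [hzval]
        simp only [map_add, mul_assoc, RCLike.mul_im, RCLike.ofReal_re,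
          RCLike.ofReal_im, hI0, hI1]
        ring
      have hre2 := (RCLike.abs_re_le_norm z).trans hzn
      have him2 := (RCLike.abs_im_le_norm z).trans hzn
      have hwre := (RCLike.abs_re_le_norm w).trans hwn
      have ha : |a| * d ≤ 2 * ‖y‖ := by
        rw [hre, abs_mul] at hre2
        have h1 : d ≤ |d - σ * RCLike.im w| := by
          rw [abs_of_nonneg (by linarith)]; linarith
        have := mul_le_mul_of_nonneg_left h1 (abs_nonneg a)
        linarith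
      have hb : |b| * d ≤ 4 * ‖y‖ := by
        have h1 : |b * (σ * d)| = |b| * d := by
          rw [abs_mul, abs_mul, hσ1, one_mul, abs_of_pos hd]
        have h2 : |a * (σ * RCLike.re w)| ≤ |a| * d := by
          rw [abs_mul, abs_mul, hσ1, one_mul]
          exact mul_le_mul_of_nonneg_left hwre (abs_nonneg a)
        have h3 : b * (σ * d) = RCLike.im z - a * (σ * RCLike.re w) := by rw [him]; ring
        rw [← h1, h3]
        calc |RCLike.im z - a * (σ * RCLike.re w)| ≤ |RCLike.im z| + |a * (σ * RCLike.re w)| := abs_sub _ _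
          _ ≤ 4 * ‖y‖ := by linarith
      have hc : |c| * d ≤ 7 * ‖y‖ := by
        calc |c| * d = ‖(c : 𝕜) • S (f3 - g3)‖ := by rw [norm_smul, hn3, RCLike.norm_ofReal]
          _ = ‖y - (a : 𝕜) • S (f1 - g1) - (b : 𝕜) • S (f2 - g2)‖ := by rw [hy]; congr 1; abel
          _ ≤ ‖y - (a : 𝕜) • S (f1 - g1)‖ + ‖(b : 𝕜) • S (f2 - g2)‖ := norm_sub_le _ _
          _ ≤ ‖y‖ + ‖(a : 𝕜) • S (f1 - g1)‖ + ‖(b : 𝕜) • S (f2 - g2)‖ := by
              gcongr; exact norm_sub_le _ _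
          _ = ‖y‖ + |a| * d + |b| * d := by
              rw [norm_smul, norm_smul, hn1, hn2, RCLike.norm_ofReal, RCLike.norm_ofReal]
          _ ≤ 7 * ‖y‖ := by linarith
      have hy0 := norm_nonneg y
      refine ⟨?_, ?_, ?_⟩
      · rw [div_mul_eq_mul_div, le_div_iff₀ hd]; linarith
      · rw [div_mul_eq_mul_div, le_div_iff₀ hd]; linarith
      · rw [div_mul_eq_mul_div, le_div_iff₀ hd]; linarith
    have := key_lip (k := 1) (n := 3) (K := 2) hF S (by norm_num) (g := ![f1, f2, f3])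
      (h := ![g1, g2, g3])
      (by intro k; fin_cases k <;> simp [hf1, hf2, hf3]) (by intro k; fin_cases k <;> simp [hg1, hg2, hg3])
      (by norm_num) (fun L => comp_info _ _ L 1) (lip := 2 * 3 * (7 / d)) (by positivity)
      (by
        intro t t' i
        rw [PP_sub, norm_smul, Fin.sum_univ_three]
        show _ ≤ 2 * 3 * (7 / d) * (_ * ‖((t 0 - t' 0 : ℝ) : 𝕜) • S (f1 - g1) +
          ((t 1 - t' 1 : ℝ) : 𝕜) • S (f2 - g2) + ((t 2 - t' 2 : ℝ) : 𝕜) • S (f3 - g3)‖)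
        have h4 := hest (t 0 - t' 0) (t 1 - t' 1) (t 2 - t' 2)
        rw [RCLike.norm_ofReal, abs_of_pos (show (0 : ℝ) < 1 / (2 * ((3 : ℕ) : ℝ)) by norm_num)]
        have e : ∀ z : ℝ, 2 * 3 * (7 / d) * (1 / (2 * ((3 : ℕ) : ℝ)) * z) = 7 / d * z := by
          intro z; push_cast; ring
        rw [e]
        fin_cases i
        · exact h4.1
        · exact h4.2.1
        · exact h4.2.2) (η := 1 / 5184) (by norm_num) (by norm_num) (by norm_num)
    refine le_trans (ENNReal.ofReal_le_ofReal ?_) this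
    apply le_of_eq
    field_simp

end

end Pool.Agent.H74
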