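import Mathlib
import Pool.Agent.H74.Upper4

open MeasureTheory Set
open scoped ENNReal Pointwise

namespace Pool.Agent.H74

open Pool.Agent.MP_83e7a5

/-- exponents achieved by a sequence -/
def Exps (a : ℕ → ℝ≥0∞) : Set ℝ :=
  {α : ℝ | (⨆ (n : ℕ) (_ : 1 ≤ n), (n : ℝ≥0∞) ^ α * a n) < ∞}

lemma rate_eq (a : ℕ → ℝ≥0∞) : rate a = sSup ((fun α : ℝ => (α : EReal)) '' Exps a) := rfl

lemma mem_Exps_iff (a : ℕ → ℝ≥0∞) (α : ℝ) :
    α ∈ Exps a ↔ ∃ C : ℝ, 0 ≤ C ∧ ∀ n : ℕ, 1 ≤ n → (n : ℝ≥0∞) ^ α * a n ≤ ENNReal.ofReal C := by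
  constructor
  · intro h
    refine ⟨(⨆ (n : ℕ) (_ : 1 ≤ n), (n : ℝ≥0∞) ^ α * a n).toReal, ENNReal.toReal_nonneg, ?_⟩
    intro n hn
    rw [ENNReal.ofReal_toReal (ne_of_lt h)]
    exact le_iSup₂ (f := fun (n : ℕ) (_ : 1 ≤ n) => (n : ℝ≥0∞) ^ α * a n) n hn
  · rintro ⟨C, _, hC⟩
    exact lt_of_le_of_lt (iSup₂_le hC) ENNReal.ofReal_lt_top

lemma natCast_rpow (n : ℕ) (hn : 1 ≤ n) (α : ℝ) :
    (n : ℝ≥0∞) ^ α = ENNReal.ofReal ((n : ℝ) ^ α) := by
  have : (0 : ℝ) < n := by exact_mod_cast hn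
  rw [← ENNReal.ofReal_natCast, ENNReal.ofReal_rpow_of_pos this]

lemma rate_transfer (a b : ℕ → ℝ≥0∞) (α γ : ℝ) (N0 : ℕ) {C c : ℝ} (hC : 0 ≤ C) (hc : 0 < c)
    (hb : ∀ N, 1 ≤ N → b N < ∞)
    (hab : ∀ N, 1 ≤ N → N0 ≤ N → ∃ k : ℕ, 1 ≤ k ∧ c * N ≤ k ∧ k ≤ N ∧
      b N ≤ ENNReal.ofReal (C * (N : ℝ) ^ γ) * a k)
    (hα : α ∈ Exps a) : α - γ ∈ Exps b := by
  obtain ⟨D, hD0, hD⟩ := (mem_Exps_iff a α).mp hα
  set K : ℝ≥0∞ := (∑ N ∈ Finset.range N0, if 1 ≤ N then (N : ℝ≥0∞) ^ (α - γ) * b N else 0) +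
    ENNReal.ofReal (C * max 1 ((1 / c) ^ α)) * ENNReal.ofReal D with hK
  have hKfin : K < ∞ := by
    rw [hK]
    refine ENNReal.add_lt_top.mpr ⟨?_, ENNReal.mul_lt_top ENNReal.ofReal_lt_top ENNReal.ofReal_lt_top⟩
    apply ENNReal.sum_lt_top.mpr
    intro N _
    split_ifs with h1
    · rw [natCast_rpow N h1]
      exact ENNReal.mul_lt_top ENNReal.ofReal_lt_top (hb N h1)
    · exact ENNReal.zero_lt_top
  refine lt_of_le_of_lt (iSup₂_le ?_) hKfin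
  intro N hN
  by_cases hN0 : N < N0
  · refine le_trans ?_ le_self_add
    have := Finset.single_le_sum (f := fun N : ℕ => if 1 ≤ N then (N : ℝ≥0∞) ^ (α - γ) * b N else 0)
      (fun i _ => bot_le) (Finset.mem_range.mpr hN0)
    simpa [hN] using this
  · push Not at hN0
    refine le_trans ?_ le_add_self
    obtain ⟨k, hk1, hck, hkN, hbk⟩ := hab N hN hN0
    have hNpos : (0 : ℝ) < N := by exact_mod_cast hN
    have hkpos : (0 : ℝ) < k := by exact_mod_cast hk1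
    have hkN' : (k : ℝ) ≤ N := by exact_mod_cast hkN
    have hpow : (N : ℝ) ^ α ≤ max 1 ((1 / c) ^ α) * (k : ℝ) ^ α := by
      rcases le_or_gt 0 α with h0 | h0
      · calc (N : ℝ) ^ α ≤ ((1 / c) * k) ^ α := by
              apply Real.rpow_le_rpow hNpos.le _ h0
              rw [one_div, inv_mul_eq_div, le_div_iff₀ hc]; linarith
          _ = (1 / c) ^ α * (k : ℝ) ^ α := Real.mul_rpow (by positivity) hkpos.le
          _ ≤ _ := by gcongr; exact le_max_right _ _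
      · calc (N : ℝ) ^ α ≤ (k : ℝ) ^ α := Real.rpow_le_rpow_of_nonpos hkpos hkN' h0.le
          _ = 1 * (k : ℝ) ^ α := by ring
          _ ≤ _ := by gcongr; exact le_max_left _ _
    calc (N : ℝ≥0∞) ^ (α - γ) * b N
        ≤ (N : ℝ≥0∞) ^ (α - γ) * (ENNReal.ofReal (C * (N : ℝ) ^ γ) * a k) := by gcongr
      _ = ENNReal.ofReal (C * (N : ℝ) ^ α) * a k := by
          rw [natCast_rpow N hN, ← mul_assoc, ← ENNReal.ofReal_mul (by positivity)]
          congr 2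
          rw [Real.rpow_sub hNpos]
          have : (N : ℝ) ^ γ ≠ 0 := (Real.rpow_pos_of_pos hNpos γ).ne'
          field_simp
      _ ≤ ENNReal.ofReal (C * max 1 ((1 / c) ^ α) * (k : ℝ) ^ α) * a k := by
          refine mul_le_mul' (ENNReal.ofReal_le_ofReal ?_) le_rfl
          rw [mul_assoc]
          exact mul_le_mul_of_nonneg_left hpow hC
      _ = ENNReal.ofReal (C * max 1 ((1 / c) ^ α)) * ((k : ℝ≥0∞) ^ α * a k) := by
          rw [natCast_rpow k hk1, ← mul_assoc, ← ENNReal.ofReal_mul (by positivity)]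
      _ ≤ _ := by gcongr; exact hD k hk1

section
variable {𝕜 : Type*} [RCLike 𝕜] {X Y : Type*} [NormedAddCommGroup X] [NormedSpace 𝕜 X]

lemma eRan_one_lt_top [NormedAddCommGroup Y] [NormedSpace 𝕜 Y] {F : Set X} {S : X →L[𝕜] Y} {α : ℝ}
    (hα : α ∈ Exps (eRan S F)) : eRan S F 1 < ∞ := by
  obtain ⟨C, _, hC⟩ := (mem_Exps_iff _ α).mp hα
  have := hC 1 le_rfl
  simp only [Nat.cast_one, ENNReal.one_rpow, one_mul] at this
  exact lt_of_le_of_lt this ENNReal.ofReal_lt_top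

lemma eDetNon_lt_top [NormedAddCommGroup Y] [NormedSpace 𝕜 Y] {F : Set X}
    (hF : IsConvexSet 𝕜 F) {S : X →L[𝕜] Y} (h1 : eRan S F 1 < ∞) (N : ℕ) (hN : 1 ≤ N) :
    eDetNon S F N < ∞ := by
  rcases hN.eq_or_lt with rfl | hN2
  · obtain ⟨C, hC⟩ := fin_one hF S
    exact lt_of_le_of_lt hC (ENNReal.mul_lt_top ENNReal.ofReal_lt_top h1)
  · have := key_banach hF S (N := N) (k := 1) (n := 3) (by norm_num) (by omega) (by norm_num)
      (η := 1 / 5184) (by norm_num) (by norm_num) (by norm_num)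
    exact lt_of_le_of_lt this (ENNReal.mul_lt_top ENNReal.ofReal_lt_top h1)

lemma exps_banach [NormedAddCommGroup Y] [NormedSpace 𝕜 Y] {F : Set X}
    (hF : IsConvexSet 𝕜 F) {S : X →L[𝕜] Y} {α ε : ℝ} (hε0 : 0 < ε) (hε1 : ε ≤ 1)
    (hα : α ∈ Exps (eRan S F)) : α - (1 + ε) ∈ Exps (eDetNon S F) := by
  apply rate_transfer (eRan S F) (eDetNon S F) α (1 + ε) ⌈16 / ε⌉₊ (C := 128) (c := ε / 16)
    (by norm_num) (by positivity) (eDetNon_lt_top hF (eRan_one_lt_top hα)) _ hα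
  intro N hN1 hN
  have hNpos : (0 : ℝ) < N := by exact_mod_cast hN1
  have hN16 : 16 / ε ≤ N := (Nat.le_ceil _).trans (by exact_mod_cast hN)
  have hεN : 16 ≤ ε * N := by
    rw [div_le_iff₀ hε0] at hN16; linarith
  set k := ⌊ε * N / 8⌋₊ with hk
  have hk1 : (k : ℝ) ≤ ε * N / 8 := Nat.floor_le (by positivity)
  have hk2 : ε * N / 8 - 1 < k := Nat.sub_one_lt_floor _
  have hk3 : (1 : ℝ) ≤ k := by
    have : (1 : ℝ) ≤ ε * N / 8 := by linarith
    have h1 : 1 ≤ k := Nat.le_floor (by exact_mod_cast this)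
    exact_mod_cast h1
  have hεN' : ε * N ≤ N := by nlinarith
  have h2k : 2 * (k : ℝ) ≤ N / 4 := by linarith
  have h2kN : 2 * k < N := by
    have : (2 * k : ℝ) < N := by linarith
    exact_mod_cast this
  refine ⟨k, by exact_mod_cast hk3, by linarith, by
    have : (k : ℝ) ≤ N := by linarith
    exact_mod_cast this, ?_⟩
  have hNε : (0 : ℝ) < (N : ℝ) ^ ε := Real.rpow_pos_of_pos hNpos _
  have hN1' : (1 : ℝ) ≤ N := by exact_mod_cast hN1
  have hNε1 : (1 : ℝ) ≤ (N : ℝ) ^ ε := Real.one_le_rpow hN1' hε0.le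
  have hη : (0 : ℝ) < 1 / (32 * (N : ℝ) ^ ε) := by positivity
  have key := key_banach hF S (N := N) (k := k) (n := N) (by omega) (by omega) h2kN
    (η := 1 / (32 * (N : ℝ) ^ ε)) hη (by rw [div_le_one (by positivity)]; linarith) ?_
  · convert key using 3
    rw [Real.rpow_add hNpos, Real.rpow_one]
    field_simp
    norm_num
  · -- smallness
    obtain ⟨r, hr⟩ : ∃ r, N = 2 * k + r := ⟨N - 2 * k, by omega⟩
    have hr' : (N : ℝ) = 2 * k + r := by exact_mod_cast hr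
    have hrN : N - 2 * k = r := by omega
    rw [hrN]
    have hr34 : 3 * (N : ℝ) / 4 ≤ r := by linarith
    rw [one_div, inv_pow, ← div_eq_mul_inv, div_le_one (by positivity), mul_pow 32 ((N : ℝ) ^ ε) r]
    -- (2N(2k+1))^(2k) * 2^(N+1) ≤ 32^r * (N^ε)^r
    have e1 : (2 * (N : ℝ) * (((2 * k : ℕ) : ℝ) + 1)) ≤ 2 * (N : ℝ) ^ 2 := by
      push_cast
      nlinarith
    have e2 : (2 * (N : ℝ) * (((2 * k : ℕ) : ℝ) + 1)) ^ (2 * k) ≤ 2 ^ (2 * k) * (N : ℝ) ^ (2 * (2 * k)) := by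
      calc _ ≤ (2 * (N : ℝ) ^ 2) ^ (2 * k) := pow_le_pow_left₀ (by positivity) e1 _
        _ = _ := by rw [mul_pow, ← pow_mul]
    have e3 : (N : ℝ) ^ (2 * (2 * k)) ≤ ((N : ℝ) ^ ε) ^ r := by
      rw [← Real.rpow_natCast, ← Real.rpow_natCast, ← Real.rpow_mul hNpos.le]
      apply Real.rpow_le_rpow_of_exponent_le hN1'
      push_cast
      have : ε * (3 * (N : ℝ) / 4) ≤ ε * r := mul_le_mul_of_nonneg_left hr34 hε0.le
      nlinarith
    have e4 : (2 : ℝ) ^ (2 * k) * 2 ^ (N + 1) ≤ 32 ^ r := by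
      rw [show (32 : ℝ) = 2 ^ 5 by norm_num, ← pow_add, ← pow_mul]
      apply pow_le_pow_right₀ (by norm_num)
      have : ((2 * k + (N + 1) : ℕ) : ℝ) ≤ ((5 * r : ℕ) : ℝ) := by
        push_cast
        linarith
      exact_mod_cast this
    calc (2 * (N : ℝ) * (((2 * k : ℕ) : ℝ) + 1)) ^ (2 * k) * 2 ^ (N + 1)
        ≤ (2 ^ (2 * k) * (N : ℝ) ^ (2 * (2 * k))) * 2 ^ (N + 1) := by gcongr
      _ = (2 ^ (2 * k) * 2 ^ (N + 1)) * (N : ℝ) ^ (2 * (2 * k)) := by ring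
      _ ≤ 32 ^ r * ((N : ℝ) ^ ε) ^ r := by gcongr

lemma exps_hilbert [NormedAddCommGroup Y] [InnerProductSpace 𝕜 Y] {F : Set X}
    (hF : IsConvexSet 𝕜 F) {S : X →L[𝕜] Y} {α ε : ℝ} (hε0 : 0 < ε) (hε1 : ε ≤ 1 / 2)
    (hα : α ∈ Exps (eRan S F)) : α - (1 / 2 + ε) ∈ Exps (eDetNon S F) := by
  obtain ⟨B, hB⟩ : ∃ B : ℕ, B = 2600 := ⟨_, rfl⟩
  apply rate_transfer (eRan S F) (eDetNon S F) α (1 / 2 + ε) (2 * (⌈16 / ε⌉₊ + B)) (C := 64)
    (c := ε / 32) (by norm_num) (by positivity) (eDetNon_lt_top hF (eRan_one_lt_top hα)) _ hα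
  intro N hN1 hN
  set m := N / 2 with hm
  have hm1 : ⌈16 / ε⌉₊ + B ≤ m := by omega
  have h2m : 2 * m ≤ N := by omega
  have h2m' : N ≤ 2 * m + 1 := by omega
  have hmpos' : 0 < m := by omega
  have hmpos : (0 : ℝ) < m := by exact_mod_cast hmpos'
  have hm1' : (1 : ℝ) ≤ m := by exact_mod_cast hmpos'
  have hm16 : 16 / ε ≤ m := (Nat.le_ceil _).trans (by
    have : ⌈16 / ε⌉₊ ≤ m := by omega
    exact_mod_cast this)
  have hεm : 16 ≤ ε * m := by
    rw [div_le_iff₀ hε0] at hm16; linarith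
  have hm2600 : (2600 : ℝ) ≤ m := by
    have h0 : B ≤ m := by omega
    have h1 : (B : ℝ) = 2600 := by rw [hB]; norm_num
    rw [← h1]
    exact_mod_cast h0
  have hNm : (N : ℝ) ≤ 2 * m + 1 := by exact_mod_cast h2m'
  have hNm' : 2 * (m : ℝ) ≤ N := by exact_mod_cast h2m
  have hNpos : (0 : ℝ) < N := by linarith
  set k := ⌊ε * m / 4⌋₊ with hk
  have hk1 : (k : ℝ) ≤ ε * m / 4 := Nat.floor_le (by positivity)
  have hk2 : ε * m / 4 - 1 < k := Nat.sub_one_lt_floor _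
  have hk3 : (1 : ℝ) ≤ k := by
    have : (1 : ℝ) ≤ ε * m / 4 := by linarith
    have h1 : 1 ≤ k := Nat.le_floor (by exact_mod_cast this)
    exact_mod_cast h1
  have hεm' : ε * m ≤ m / 2 := by nlinarith
  refine ⟨k, by exact_mod_cast hk3, by nlinarith, by
    have : (k : ℝ) ≤ N := by linarith
    exact_mod_cast this, ?_⟩
  set q : ℝ := (2 * (m : ℝ)) ^ ε with hq
  have h2mpos : (0 : ℝ) < 2 * m := by positivity
  have hqpos : 0 < q := Real.rpow_pos_of_pos h2mpos _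
  have hq1 : 1 ≤ q := Real.one_le_rpow (by linarith) hε0.le
  have hqsq : q ≤ √(2 * m) := by
    rw [hq, Real.sqrt_eq_rpow]
    exact Real.rpow_le_rpow_of_exponent_le (by linarith) hε1
  set η : ℝ := √(m / (18 * q)) with hη
  have hη2 : η ^ 2 = m / (18 * q) := Real.sq_sqrt (by positivity)
  have hη1 : 1 ≤ η := by
    rw [hη, Real.one_le_sqrt, le_div_iff₀ (by positivity), one_mul]
    have h1 : √(2 * m) * √(2 * m) = 2 * m := Real.mul_self_sqrt h2mpos.le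
    have h2 : (72 : ℝ) ≤ √(2 * m) := by
      apply Real.le_sqrt_of_sq_le; linarith
    nlinarith
  have hη0 : 0 < η := by linarith
  have key := key_hilbert hF S (N := N) (k := k) (m := m) hmpos' (by omega) hη1 ?_
  · refine key.trans (mul_le_mul' (ENNReal.ofReal_le_ofReal ?_) le_rfl)
    -- 8 m / η ≤ 64 N^(1/2+ε)
    rw [div_le_iff₀ hη0]
    have h3 : (N : ℝ) ^ (1 / 2 + ε : ℝ) = √N * (N : ℝ) ^ ε := by
      rw [Real.rpow_add hNpos, Real.sqrt_eq_rpow]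
    rw [h3]
    have h4 : q ≤ (N : ℝ) ^ ε := Real.rpow_le_rpow h2mpos.le hNm' hε0.le
    -- (8m)^2 ≤ (64 √N N^ε η)^2
    rw [← pow_le_pow_iff_left₀ (by positivity) (by positivity) (two_ne_zero)]
    have h5 : (64 * (√N * (N : ℝ) ^ ε) * η) ^ 2 = 64 ^ 2 * N * ((N : ℝ) ^ ε) ^ 2 * (m / (18 * q)) := by
      rw [mul_pow, mul_pow, mul_pow, hη2, Real.sq_sqrt hNpos.le]
      ring
    rw [h5]
    have h6 : q * 1 ≤ ((N : ℝ) ^ ε) ^ 2 := by nlinarith
    have h7 : 64 ^ 2 * (N : ℝ) * ((N : ℝ) ^ ε) ^ 2 * (m / (18 * q)) =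
        (64 ^ 2 / 18) * N * m * (((N : ℝ) ^ ε) ^ 2 / q) := by
      field_simp
    rw [h7]
    have h8 : 1 ≤ ((N : ℝ) ^ ε) ^ 2 / q := by
      rw [le_div_iff₀ hqpos]; linarith
    have h9 : (0 : ℝ) ≤ (64 ^ 2 / 18) * N * m := by positivity
    push_cast
    nlinarith [mul_le_mul_of_nonneg_left h8 h9, mul_le_mul_of_nonneg_right hNm' hmpos.le]
  · -- smallness
    have e0 : 9 * η ^ 2 / m = 1 / (2 * q) := by
      rw [hη2]; field_simp; norm_num
    rw [e0]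
    have e1 : (2 * ((2 * m : ℕ) : ℝ) * (((2 * k : ℕ) : ℝ) + 1)) ≤ (2 * (m : ℝ)) ^ 2 := by
      push_cast
      nlinarith
    have e2 : (2 * ((2 * m : ℕ) : ℝ) * (((2 * k : ℕ) : ℝ) + 1)) ^ (2 * k) ≤ q ^ m := by
      calc _ ≤ ((2 * (m : ℝ)) ^ 2) ^ (2 * k) := pow_le_pow_left₀ (by positivity) e1 _
        _ = (2 * (m : ℝ)) ^ (2 * (2 * k)) := by rw [← pow_mul]
        _ ≤ q ^ m := by
          rw [hq, ← Real.rpow_natCast, ← Real.rpow_natCast, ← Real.rpow_mul h2mpos.le]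
          apply Real.rpow_le_rpow_of_exponent_le (by linarith)
          push_cast
          linarith
    rw [one_div, inv_pow, ← div_eq_mul_inv, div_le_one (by positivity), mul_pow 2 q m]
    have e3 : (2 : ℝ) ≤ 2 ^ m := by
      calc (2 : ℝ) = 2 ^ 1 := by norm_num
        _ ≤ 2 ^ m := pow_le_pow_right₀ (by norm_num) hmpos'
    exact mul_le_mul e3 e2 (by positivity) (by positivity)

end

lemma rate_of_exps {a b : ℕ → ℝ≥0∞} {γ : ℝ}
    (h : ∀ α ε : ℝ, 0 < ε → ε ≤ 1 / 2 → α ∈ Exps a → α - (γ + ε) ∈ Exps b) :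
    rate a ≤ rate b + (γ : EReal) := by
  rw [rate_eq a]
  apply sSup_le
  rintro _ ⟨α, hα, rfl⟩
  have h1 : ∀ ε : ℝ, 0 < ε → ε ≤ 1 / 2 → ((α - (γ + ε) : ℝ) : EReal) ≤ rate b := by
    intro ε h0 h1
    rw [rate_eq]
    exact le_sSup ⟨_, h α ε h0 h1 hα, rfl⟩
  have h2 : ((α - γ : ℝ) : EReal) ≤ rate b := by
    induction hb : rate b using EReal.rec with
    | bot =>
      have := h1 (1 / 2) (by norm_num) le_rfl
      rw [hb] at this
      simp only [le_bot_iff] at this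
      exact absurd this (EReal.coe_ne_bot _)
    | coe r =>
      rw [EReal.coe_le_coe_iff]
      apply le_of_forall_pos_le_add
      intro ε hε
      have := h1 (min ε (1 / 2)) (by positivity) (min_le_right _ _)
      rw [hb, EReal.coe_le_coe_iff] at this
      have h3 := min_le_left ε (1 / 2)
      linarith
    | top => exact le_top
  show (α : EReal) ≤ rate b + (γ : EReal)
  calc (α : EReal) = ((α - γ : ℝ) : EReal) + (γ : EReal) := by
        rw [← EReal.coe_add]; congr 1; ring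
    _ ≤ rate b + (γ : EReal) := by gcongr

end Pool.Agent.H74
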