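import Mathlib
import Pool.Agent.H74.RanUpper
import Pool.Agent.H74.DetLower
import Pool.Agent.H74.Rates

open MeasureTheory Set
open scoped ENNReal Pointwise

namespace Pool.Agent.H74

open Pool.Agent.MP_83e7a5

lemma cw_lower (a b q : ℕ) (hb : 1 ≤ b) (i : ℕ) (hi : 2 ^ (q ^ (a * b)) ≤ i) :
    (q : ℝ) ^ a ≤ cw b i := by
  unfold cw
  have hb' : (0 : ℝ) < b := by exact_mod_cast hb
  have h1 : q ^ (a * b) ≤ 1 + Nat.log 2 (i + 1) := by
    have : q ^ (a * b) ≤ Nat.log 2 (i + 1) := by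
      apply Nat.le_log_of_pow_le (by norm_num)
      omega
    omega
  calc (q : ℝ) ^ a = ((q : ℝ) ^ (a * b : ℕ)) ^ (1 / (b : ℝ)) := by
        rw [pow_mul, ← Real.rpow_natCast ((q : ℝ) ^ a) b, ← Real.rpow_mul (by positivity),
          mul_one_div_cancel hb'.ne', Real.rpow_one]
    _ ≤ (((1 + Nat.log 2 (i + 1) : ℕ) : ℝ)) ^ (1 / (b : ℝ)) := by
        apply Real.rpow_le_rpow (by positivity) _ (by positivity)
        exact_mod_cast h1

lemma cw_ge_one (b : ℕ) (i : ℕ) : 1 ≤ cw b i := by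
  unfold cw
  apply Real.one_le_rpow
  · push_cast
    have : (0 : ℝ) ≤ (Nat.log 2 (i + 1) : ℝ) := by positivity
    linarith
  · positivity

section
variable {P : ℝ≥0∞} [hP1 : Fact (1 ≤ P)]

lemma ran_param {κ : ℝ} (hκ0 : 0 < κ) (hκ1 : κ ≤ 1) (hΘ : NormProp P (fun x => x ^ κ))
    (a b q N : ℕ) (ha : 1 ≤ a) (hb : 1 ≤ b) (hq2 : 2 ≤ q)
    (hq : (4 * (a * b + 1)) ^ 2 ≤ q) (hN : 4 * a * (2 * a * b + 3) * q ^ (a + 4) ≤ N) :
    eRan (Sid P) (Fset P (cw b)) N ≤ ENNReal.ofReal (2 * ((q : ℝ) ^ (-(a * κ)))) := by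
  have hq0 : 0 < q := by omega
  have hq' : (0 : ℝ) < q := by exact_mod_cast hq0
  have hq1' : (1 : ℝ) ≤ q := by exact_mod_cast hq0
  have hδ : (0 : ℝ) < 1 / (q : ℝ) ^ a := by positivity
  have hm : 2 ^ (q ^ (a * b)) ≤ q ^ (2 ^ (a * b * q)) := by
    calc 2 ^ (q ^ (a * b)) ≤ q ^ (q ^ (a * b)) := Nat.pow_le_pow_left hq2 _
      _ ≤ q ^ (2 ^ (a * b * q)) := by
        apply Nat.pow_le_pow_right hq0
        calc q ^ (a * b) ≤ (2 ^ q) ^ (a * b) := Nat.pow_le_pow_left (Nat.lt_two_pow_self).le _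
          _ = 2 ^ (a * b * q) := by rw [← pow_mul, mul_comm]
  have hqC : ((4 * (a * b + 1) : ℝ)) ^ 2 ≤ q := by exact_mod_cast hq
  have key := main_ran (P := P) (c := cw b) (cw_ge_one b) hΘ (m := 2 ^ (q ^ (a * b))) (T := a * b * q)
    (B := q ^ (a + 3)) (q := q) (K := 4 * a) (N := N) (by positivity) hq0 hm hδ
    (φ := 4 * (a * b + 1) / q) ?_ ?_ ?_ ?_
  · refine key.trans (ENNReal.ofReal_le_ofReal ?_)
    simp only [Real.one_rpow, one_mul]
    have e1 : (1 / (q : ℝ) ^ a) ^ κ = (q : ℝ) ^ (-(a * κ)) := by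
      rw [one_div, Real.inv_rpow (by positivity), ← Real.rpow_natCast, ← Real.rpow_mul hq'.le,
        Real.rpow_neg hq'.le]
    have e2 : 1 / (q : ℝ) ^ a ≤ (q : ℝ) ^ (-(a * κ)) := by
      rw [one_div, ← Real.rpow_natCast, ← Real.rpow_neg hq'.le]
      apply Real.rpow_le_rpow_of_exponent_le hq1'
      have : (0 : ℝ) ≤ a := by positivity
      nlinarith
    rw [e1]; linarith
  · push_cast
    have e3 : (4 * (q : ℝ) / ((q : ℝ) ^ (a + 3) * (1 / (q : ℝ) ^ a))) = 4 / (q : ℝ) ^ 2 := by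
      rw [pow_add]; field_simp
    rw [e3, le_div_iff₀ hq']
    have e4 : ((a : ℝ) * b * q + 1) * (4 / (q : ℝ) ^ 2) * q = 4 * (a * b * q + 1) / q := by
      field_simp
    rw [e4, div_le_iff₀ hq']
    nlinarith
  · -- φ^K / δ ≤ δ
    have e5 : (4 * ((a : ℝ) * b + 1) / q) ^ 2 ≤ 1 / q := by
      rw [div_pow, div_le_div_iff₀ (by positivity) hq', one_mul, sq (q : ℝ)]
      exact mul_le_mul_of_nonneg_right hqC hq'.le
    have e6 : (4 * ((a : ℝ) * b + 1) / q) ^ (4 * a) ≤ (1 / (q : ℝ) ^ a) ^ 2 := by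
      calc (4 * ((a : ℝ) * b + 1) / q) ^ (4 * a) = ((4 * ((a : ℝ) * b + 1) / q) ^ 2) ^ (2 * a) := by
            rw [← pow_mul]; congr 1; ring
        _ ≤ (1 / (q : ℝ)) ^ (2 * a) := pow_le_pow_left₀ (by positivity) e5 _
        _ = (1 / (q : ℝ) ^ a) ^ 2 := by rw [← one_div_pow, ← pow_mul, mul_comm a 2]
    rw [div_le_iff₀ hδ, ← sq]
    exact e6
  · intro i hi
    rw [one_div_one_div]
    exact cw_lower a b q hb i hi
  · refine le_trans ?_ hN
    have e7 : 4 * a * (q ^ (a + 3) * (2 * (a * b * q + 1))) + 4 * a * q ^ (a + 3) =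
        4 * a * q ^ (a + 3) * (2 * a * b * q + 3) := by ring
    rw [e7, show a + 4 = (a + 3) + 1 by ring, pow_succ]
    calc 4 * a * q ^ (a + 3) * (2 * a * b * q + 3)
        ≤ 4 * a * q ^ (a + 3) * (2 * a * b * q + 3 * q) := by
          apply Nat.mul_le_mul_left; omega
      _ = 4 * a * (2 * a * b + 3) * (q ^ (a + 3) * q) := by ring

lemma ran_trivial {κ : ℝ} (hΘ : NormProp P (fun x => x ^ κ)) (b N : ℕ) :
    eRan (Sid P) (Fset P (cw b)) N ≤ ENNReal.ofReal 2 := by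
  have key := main_ran (P := P) (c := cw b) (cw_ge_one b) hΘ (m := 0) (T := 0)
    (B := 1) (q := 1) (K := 0) (N := N) one_pos one_pos (by simp) one_pos
    (φ := 4) (by norm_num) (by norm_num) (fun i _ => by simpa using cw_ge_one b i) (by simp)
  refine key.trans (ENNReal.ofReal_le_ofReal ?_)
  simp only [Real.one_rpow]; norm_num

lemma ran_exps {κ : ℝ} (hκ0 : 0 < κ) (hκ1 : κ ≤ 1) (hΘ : NormProp P (fun x => x ^ κ))
    (a b : ℕ) (ha : 1 ≤ a) (hb : 1 ≤ b) :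
    κ * (a / (a + 4)) ∈ Exps (eRan (Sid P) (Fset P (cw b))) := by
  rw [mem_Exps_iff]
  set q0 : ℕ := (4 * (a * b + 1)) ^ 2 + 2 with hq0
  set C2 : ℕ := 4 * a * (2 * a * b + 3) with hC2
  have hC2pos : 0 < C2 := by positivity
  set α : ℝ := κ * (a / (a + 4)) with hα
  have hα0 : 0 < α := by positivity
  set N0 : ℕ := C2 * q0 ^ (a + 4) with hN0
  refine ⟨2 * (N0 : ℝ) ^ α + 2 * ((C2 : ℝ) ^ α * 2 ^ (a * κ)), by positivity, ?_⟩
  intro N hN
  have hNpos : (0 : ℝ) < N := by exact_mod_cast hN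
  rw [natCast_rpow N hN]
  by_cases hNN0 : N < N0
  · calc ENNReal.ofReal ((N : ℝ) ^ α) * eRan (Sid P) (Fset P (cw b)) N
        ≤ ENNReal.ofReal ((N0 : ℝ) ^ α) * ENNReal.ofReal 2 := by
          refine mul_le_mul' (ENNReal.ofReal_le_ofReal ?_) (ran_trivial hΘ b N)
          apply Real.rpow_le_rpow hNpos.le _ hα0.le
          exact_mod_cast hNN0.le
      _ ≤ _ := by
          rw [← ENNReal.ofReal_mul (by positivity)]
          apply ENNReal.ofReal_le_ofReal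
          have : 0 ≤ 2 * ((C2 : ℝ) ^ α * 2 ^ (a * κ)) := by positivity
          linarith
  · push Not at hNN0
    -- choose q
    have hex : C2 * q0 ^ (a + 4) ≤ N := hNN0
    set q := Nat.findGreatest (fun q => C2 * q ^ (a + 4) ≤ N) N with hqdef
    have hq0N : q0 ≤ N := by
      calc q0 ≤ q0 ^ (a + 4) := Nat.le_self_pow (by omega) q0
        _ ≤ C2 * q0 ^ (a + 4) := Nat.le_mul_of_pos_left _ hC2pos
        _ ≤ N := hex
    have hq1 : C2 * q ^ (a + 4) ≤ N :=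
      Nat.findGreatest_spec (P := fun q => C2 * q ^ (a + 4) ≤ N) hq0N hex
    have hqq0 : q0 ≤ q := Nat.le_findGreatest hq0N hex
    have hq2 : N < C2 * (q + 1) ^ (a + 4) := by
      by_contra hcon
      push Not at hcon
      have h1 : q + 1 ≤ N := by
        calc q + 1 ≤ (q + 1) ^ (a + 4) := Nat.le_self_pow (by omega) _
          _ ≤ C2 * (q + 1) ^ (a + 4) := Nat.le_mul_of_pos_left _ hC2pos
          _ ≤ N := hcon
      have h2 := Nat.le_findGreatest (P := fun q => C2 * q ^ (a + 4) ≤ N) h1 hcon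
      omega
    have hqpos : (0 : ℝ) < q := by
      have : 0 < q := by omega
      exact_mod_cast this
    have hqone : (1 : ℝ) ≤ q := by
      have : 1 ≤ q := by omega
      exact_mod_cast this
    have hran := ran_param hκ0 hκ1 hΘ a b q N ha hb (by omega) (by omega) hq1
    have hNα : (N : ℝ) ^ α ≤ (C2 : ℝ) ^ α * 2 ^ (a * κ) * (q : ℝ) ^ (a * κ) := by
      have h3 : (N : ℝ) ≤ C2 * (2 * q) ^ (a + 4) := by
        have h4 : (N : ℝ) ≤ C2 * ((q : ℝ) + 1) ^ (a + 4) := by exact_mod_cast hq2.le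
        refine h4.trans ?_
        apply mul_le_mul_of_nonneg_left _ (by positivity)
        apply pow_le_pow_left₀ (by positivity)
        linarith
      calc (N : ℝ) ^ α ≤ (C2 * (2 * (q : ℝ)) ^ (a + 4)) ^ α :=
            Real.rpow_le_rpow hNpos.le h3 hα0.le
        _ = (C2 : ℝ) ^ α * ((2 * (q : ℝ)) ^ (a + 4)) ^ α := by
            rw [Real.mul_rpow (by positivity) (by positivity)]
        _ = (C2 : ℝ) ^ α * (2 * (q : ℝ)) ^ (a * κ) := by
            rw [← Real.rpow_natCast (2 * (q : ℝ)) (a + 4), ← Real.rpow_mul (by positivity)]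
            congr 2
            rw [hα]; push_cast; field_simp
        _ = _ := by rw [Real.mul_rpow (by norm_num) hqpos.le]; ring
    calc ENNReal.ofReal ((N : ℝ) ^ α) * eRan (Sid P) (Fset P (cw b)) N
        ≤ ENNReal.ofReal ((C2 : ℝ) ^ α * 2 ^ (a * κ) * (q : ℝ) ^ (a * κ)) *
          ENNReal.ofReal (2 * ((q : ℝ) ^ (-(a * κ)))) :=
          mul_le_mul' (ENNReal.ofReal_le_ofReal hNα) hran
      _ ≤ _ := by
          rw [← ENNReal.ofReal_mul (by positivity)]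
          apply ENNReal.ofReal_le_ofReal
          have h5 : (q : ℝ) ^ (a * κ) * (q : ℝ) ^ (-(a * κ)) = 1 := by
            rw [← Real.rpow_add hqpos]; simp
          have h6 : (C2 : ℝ) ^ α * 2 ^ (a * κ) * (q : ℝ) ^ (a * κ) * (2 * ((q : ℝ) ^ (-(a * κ)))) =
              2 * ((C2 : ℝ) ^ α * 2 ^ (a * κ)) * ((q : ℝ) ^ (a * κ) * (q : ℝ) ^ (-(a * κ))) := by ring
          rw [h6, h5]
          have : 0 ≤ 2 * (N0 : ℝ) ^ α := by positivity
          linarith

lemma rate_ran {κ : ℝ} (hκ0 : 0 < κ) (hκ1 : κ ≤ 1) (hΘ : NormProp P (fun x => x ^ κ))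
    (b : ℕ) (hb : 1 ≤ b) : (κ : EReal) ≤ rate (eRan (Sid P) (Fset P (cw b))) := by
  have h1 : ∀ a : ℕ, 1 ≤ a → ((κ * (a / (a + 4)) : ℝ) : EReal) ≤ rate (eRan (Sid P) (Fset P (cw b))) := by
    intro a ha
    rw [rate_eq]
    exact le_sSup ⟨_, ran_exps hκ0 hκ1 hΘ a b ha hb, rfl⟩
  induction hr : rate (eRan (Sid P) (Fset P (cw b))) using EReal.rec with
  | bot =>
    have := h1 1 le_rfl
    rw [hr] at this
    simp only [le_bot_iff] at this
    exact absurd this (EReal.coe_ne_bot _)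
  | coe r =>
    rw [EReal.coe_le_coe_iff]
    apply le_of_forall_pos_le_add
    intro ε hε
    obtain ⟨a, ha⟩ := exists_nat_gt (max 1 (4 / ε))
    have ha1 : 1 ≤ a := by
      have : (1 : ℝ) < a := lt_of_le_of_lt (le_max_left _ _) ha
      exact_mod_cast this.le
    have ha2 : 4 / ε < a := lt_of_le_of_lt (le_max_right _ _) ha
    have h2 := h1 a ha1
    rw [hr, EReal.coe_le_coe_iff] at h2
    have ha0 : (0 : ℝ) < a := by exact_mod_cast ha1
    have h3 : κ * (a / (a + 4)) = κ - κ * 4 / (a + 4) := by field_simp; ring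
    have h4 : κ * 4 / (a + 4) ≤ ε := by
      rw [div_le_iff₀ (by positivity)]
      rw [div_lt_iff₀ hε] at ha2
      nlinarith
    linarith
  | top => exact le_top

end

/-- ℓ_∞ -/
lemma normProp_top : NormProp ∞ (fun x => x ^ (1 : ℝ)) := by
  intro z δ hδ hz _
  show ‖z‖ ≤ δ ^ (1 : ℝ)
  rw [Real.rpow_one]
  apply lp.norm_le_of_forall_le hδ
  intro i
  rw [Real.norm_eq_abs, abs_of_nonneg (hz i).1]
  exact (hz i).2

/-- ℓ_2 -/
lemma normProp_two : NormProp 2 (fun x => x ^ (1 / 2 : ℝ)) := by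
  intro z δ hδ hz hs
  simp only
  rw [← Real.sqrt_eq_rpow]
  apply lp.norm_le_of_forall_sum_le (by norm_num) (Real.sqrt_nonneg _)
  intro s
  have e : (2 : ℝ≥0∞).toReal = ((2 : ℕ) : ℝ) := by norm_num
  rw [e, Real.rpow_natCast, Real.sq_sqrt hδ]
  calc ∑ i ∈ s, ‖z i‖ ^ ((2 : ℕ) : ℝ) ≤ ∑ i ∈ s, δ * z i := by
        apply Finset.sum_le_sum
        intro i _
        rw [Real.rpow_natCast, Real.norm_eq_abs, sq_abs, sq]
        exact mul_le_mul_of_nonneg_right (hz i).2 (hz i).1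
    _ = δ * ∑ i ∈ s, z i := by rw [Finset.mul_sum]
    _ ≤ δ * 1 := mul_le_mul_of_nonneg_left (hs s) hδ
    _ = δ := mul_one δ

end Pool.Agent.H74
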