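import Mathlib
import Pool.Agent.H74.RanRate

open MeasureTheory Set
open scoped ENNReal Pointwise

namespace Pool.Agent.H74

open Pool.Agent.MP_83e7a5

lemma convex_Fset (P : ℝ≥0∞) (c : ℕ → ℝ) (hc : ∀ i, 1 ≤ c i) : IsConvexSet ℝ (Fset P c) := by
  intro f hf g hg t ht0 ht1
  have hcoord : ∀ i, (((t : ℝ) : ℝ) • f + ((1 - t : ℝ) : ℝ) • g : LP P) i = t * f i + (1 - t) * g i := by
    intro i
    rw [lp.coeFn_add, lp.coeFn_smul, lp.coeFn_smul]
    rfl
  have h1t : 0 ≤ 1 - t := by linarith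
  refine ⟨fun i => ?_, fun s => ?_⟩
  · show 0 ≤ (((t : ℝ) : ℝ) • f + ((1 - t : ℝ) : ℝ) • g : LP P) i
    rw [hcoord]
    have := hf.1 i
    have := hg.1 i
    positivity
  · calc ∑ i ∈ s, c i * (((t : ℝ) : ℝ) • f + ((1 - t : ℝ) : ℝ) • g : LP P) i
        = t * ∑ i ∈ s, c i * f i + (1 - t) * ∑ i ∈ s, c i * g i := by
          rw [Finset.mul_sum, Finset.mul_sum, ← Finset.sum_add_distrib]
          apply Finset.sum_congr rfl
          intro i _
          rw [hcoord]; ring
      _ ≤ t * 1 + (1 - t) * 1 := by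
          have h1 := hf.2 s
          have h2 := hg.2 s
          gcongr
      _ = 1 := by ring

lemma nonempty_Fset (P : ℝ≥0∞) (c : ℕ → ℝ) : (Fset P c).Nonempty := by
  refine ⟨0, fun i => ?_, fun s => ?_⟩
  · show 0 ≤ (0 : LP P) i
    rw [lp.coeFn_zero]; simp
  · have : ∀ i, (0 : LP P) i = 0 := fun i => by rw [lp.coeFn_zero]; simp
    simp [this]

/-- upper bound for a gain, from the inequality of rates -/
lemma gain_le {r1 r2 : EReal} {γ ρ : ℝ} (h : r1 ≤ r2 + (γ : EReal)) (hρ : r1 = (ρ : EReal)) :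
    r1 - r2 ≤ (γ : EReal) := by
  rw [hρ] at h ⊢
  induction r2 using EReal.rec with
  | bot =>
    simp only [EReal.bot_add, le_bot_iff] at h
    exact absurd h (EReal.coe_ne_bot _)
  | coe r =>
    rw [← EReal.coe_sub, EReal.coe_le_coe_iff]
    rw [← EReal.coe_add, EReal.coe_le_coe_iff] at h
    linarith
  | top => simp

/-- lower bound for the gain of the instances -/
lemma gain_ge {r1 r2 : EReal} {γ κ : ℝ} {b : ℕ} (h : r1 ≤ r2 + (γ : EReal)) (h1 : (κ : EReal) ≤ r1)
    (h2 : r2 ≤ ((1 / (b : ℝ) : ℝ) : EReal)) :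
    (∃ ρ : ℝ, r1 = (ρ : EReal)) ∧ ((κ - 1 / (b : ℝ) : ℝ) : EReal) ≤ r1 - r2 := by
  have h3 : r1 ≤ ((1 / (b : ℝ) : ℝ) : EReal) + (γ : EReal) := h.trans (by gcongr)
  induction r1 using EReal.rec with
  | bot => simp at h1
  | top =>
    rw [← EReal.coe_add] at h3
    simp only [top_le_iff] at h3
    exact absurd h3 (EReal.coe_ne_top _)
  | coe ρ =>
    refine ⟨⟨ρ, rfl⟩, ?_⟩
    rw [EReal.coe_le_coe_iff] at h1
    induction r2 using EReal.rec with
    | bot =>
      simp only [EReal.bot_add, le_bot_iff] at h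
      exact absurd h (EReal.coe_ne_bot _)
    | coe r =>
      rw [← EReal.coe_sub, EReal.coe_le_coe_iff]
      rw [EReal.coe_le_coe_iff] at h2
      linarith
    | top =>
      simp only [top_le_iff] at h2
      exact absurd h2 (EReal.coe_ne_top _)

lemma le_of_forall_b {κ : ℝ} {s : EReal} (h : ∀ b : ℕ, 1 ≤ b → ((κ - 1 / (b : ℝ) : ℝ) : EReal) ≤ s) :
    (κ : EReal) ≤ s := by
  induction s using EReal.rec with
  | bot =>
    have := h 1 le_rfl
    simp only [le_bot_iff] at this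
    exact absurd this (EReal.coe_ne_bot _)
  | top => exact le_top
  | coe r =>
    rw [EReal.coe_le_coe_iff]
    apply le_of_forall_pos_le_add
    intro ε hε
    obtain ⟨b, hb⟩ := exists_nat_gt (1 / ε)
    have hb0 : (0 : ℝ) < b := lt_trans (by positivity) hb
    have hb1 : 1 ≤ b := by exact_mod_cast hb0
    have h1 := h b hb1
    rw [EReal.coe_le_coe_iff] at h1
    have h2 : 1 / (b : ℝ) ≤ ε := by
      rw [div_le_iff₀ hb0]
      rw [div_lt_iff₀ hε] at hb
      linarith
    linarith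

theorem gammaB_eq : gammaB = 1 := by
  have hone : ((1 : ℝ) : EReal) = 1 := by norm_num
  apply le_antisymm
  · apply sSup_le
    rintro g ⟨𝕜, _, X, Y, _, _, _, _, _, _, S, F, ρ, hne, hF, hρ, rfl⟩
    rw [← hone]
    apply gain_le _ hρ
    exact rate_of_exps (fun α ε h0 h1 hα => exps_banach hF h0 (by linarith) hα)
  · rw [← hone]
    apply le_of_forall_b
    intro b hb
    have hF := convex_Fset ∞ (cw b) (cw_one_le b)
    have h1 : rate (eRan (Sid ∞) (Fset ∞ (cw b))) ≤
        rate (eDetNon (Sid ∞) (Fset ∞ (cw b))) + ((1 : ℝ) : EReal) :=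
      rate_of_exps (fun α ε h0 h1 hα => exps_banach hF h0 (by linarith) hα)
    have h2 := rate_ran (P := ∞) one_pos le_rfl normProp_top b hb
    have h3 := rate_det ∞ b hb
    obtain ⟨⟨ρ, hρ⟩, hge⟩ := gain_ge h1 h2 h3
    refine hge.trans (le_sSup ?_)
    exact ⟨ℝ, inferInstance, LP ∞, LP ∞, inferInstance, inferInstance, inferInstance, inferInstance,
      inferInstance, inferInstance, Sid ∞, Fset ∞ (cw b), ρ, nonempty_Fset _ _, hF, hρ, rfl⟩

theorem gammaH_eq : gammaH = ((1 / 2 : ℝ) : EReal) := by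
  apply le_antisymm
  · apply sSup_le
    rintro g ⟨𝕜, _, X, Y, _, _, _, _, _, _, S, F, ρ, hne, hF, hρ, rfl⟩
    apply gain_le _ hρ
    exact rate_of_exps (fun α ε h0 h1 hα => exps_hilbert hF h0 h1 hα)
  · apply le_of_forall_b
    intro b hb
    have hF := convex_Fset 2 (cw b) (cw_one_le b)
    have h1 : rate (eRan (Sid 2) (Fset 2 (cw b))) ≤
        rate (eDetNon (Sid 2) (Fset 2 (cw b))) + ((1 / 2 : ℝ) : EReal) :=
      rate_of_exps (fun α ε h0 h1 hα => exps_hilbert hF h0 h1 hα)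
    have h2 := rate_ran (P := 2) (κ := 1 / 2) (by norm_num) (by norm_num) normProp_two b hb
    have h3 := rate_det 2 b hb
    obtain ⟨⟨ρ, hρ⟩, hge⟩ := gain_ge h1 h2 h3
    refine hge.trans (le_sSup ?_)
    exact ⟨ℝ, inferInstance, LP 2, LP 2, inferInstance, inferInstance, inferInstance, inferInstance,
      inferInstance, inferInstance, Sid 2, Fset 2 (cw b), ρ, nonempty_Fset _ _, hF, hρ, rfl⟩

end Pool.Agent.H74
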